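import Pool.Agent.TH831.OT.Step

/-!
# The steps: even levels
-/

set_option autoImplicit false

namespace Pool.Agent.TH831.OT

open Matrix Pool.Agent.W569.FM

/-! ### linear algebra in dimension two -/

theorem eig_of_wed {K : Type} [Field K] {a w : Fin 2 → K} (hw : w ≠ 0) (h : wed a w = 0) :
    ∃ c : K, a = c • w := by
  simp only [wed] at h
  by_cases h0 : w 0 = 0
  · have h1 : w 1 ≠ 0 := by
      intro h1
      apply hw
      funext i
      fin_cases i
      · exact h0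
      · exact h1
    refine ⟨a 1 / w 1, ?_⟩
    rw [h0, mul_zero, sub_zero] at h
    have ha := (mul_eq_zero.1 h).resolve_right h1
    funext i
    fin_cases i
    · simp [ha, h0]
    · simp [h1]
  · refine ⟨a 0 / w 0, ?_⟩
    funext i
    fin_cases i
    · simp [h0]
    · simp only [Fin.mk_one, Pi.smul_apply, smul_eq_mul]
      field_simp
      linear_combination -h

theorem trace_mul_zero {K : Type} [Field K] {C T : Matrix (Fin 2) (Fin 2) K} {w : Fin 2 → K}
    (hw : w ≠ 0) (hC : wed (C *ᵥ w) w = 0) (hT : T *ᵥ w = 0) (hC0 : C.trace = 0)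
    (hT0 : T.trace = 0) : (C * T).trace = 0 := by
  rw [Matrix.trace_fin_two] at hC0 hT0 ⊢
  rw [Matrix.mul_apply, Matrix.mul_apply, Fin.sum_univ_two, Fin.sum_univ_two]
  have t0 := congrFun hT 0
  have t1 := congrFun hT 1
  simp only [wed, Matrix.mulVec, dotProduct, Fin.sum_univ_two, Pi.zero_apply] at hC t0 t1
  have hC1 : C 1 1 = - C 0 0 := by linear_combination hC0
  have hT1 : T 1 1 = - T 0 0 := by linear_combination hT0
  rw [hT1] at t1 ⊢
  rw [hC1] at hC ⊢
  by_cases h0 : w 0 = 0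
  · have h1 : w 1 ≠ 0 := by
      intro h1
      apply hw
      funext i
      fin_cases i
      · exact h0
      · exact h1
    have e1 : T 0 1 = 0 := by
      have : T 0 1 * w 1 = 0 := by linear_combination t0 - T 0 0 * h0
      exact (mul_eq_zero.1 this).resolve_right h1
    have e2 : T 0 0 = 0 := by
      have : T 0 0 * w 1 = 0 := by linear_combination -t1 + T 1 0 * h0
      exact (mul_eq_zero.1 this).resolve_right h1
    have e3 : C 0 1 = 0 := by
      have : C 0 1 * (w 1 * w 1) = 0 := by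
        rw [h0] at hC
        linear_combination hC
      exact (mul_eq_zero.1 this).resolve_right (mul_ne_zero h1 h1)
    rw [e1, e2, e3]
    ring
  · apply mul_left_cancel₀ (pow_ne_zero 2 h0)
    have e1 : T 0 0 * w 0 = - T 0 1 * w 1 := by linear_combination t0
    have e2 : T 1 0 * w 0 = T 0 0 * w 1 := by linear_combination t1
    have e3 : T 1 0 * w 0 ^ 2 = - T 0 1 * w 1 ^ 2 := by
      linear_combination w 0 * e2 + w 1 * e1
    linear_combination 2 * C 0 0 * w 0 * e1 + C 0 1 * e3 - T 0 1 * hC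

theorem trace_zero_of_sq {K : Type} [Field K] {T : Matrix (Fin 2) (Fin 2) K} (h : T * T = 0) :
    T.trace = 0 := by
  have h1 : IsNilpotent T := ⟨2, by rw [pow_two, h]⟩
  have h2 := Matrix.isNilpotent_trace_of_isNilpotent h1
  exact h2.eq_zero

section
variable {p : ℕ} [hp : Fact p.Prime]

theorem exists_unimod (v : Fin 2 → ℤ_[p]) (hv : q (v 0) ≠ 0 ∨ q (v 1) ≠ 0) :
    ∃ U : Matrix (Fin 2) (Fin 2) ℤ_[p], U.det = 1 ∧ (fun i => U i 0) = v := by
  rcases hv with h | h
  · obtain ⟨w, hw⟩ := isUnit_of_q h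
    refine ⟨!![v 0, 0; v 1, ((w⁻¹ : ℤ_[p]ˣ) : ℤ_[p])], ?_, ?_⟩
    · rw [Matrix.det_fin_two_of, ← hw, Units.mul_inv]
      ring
    · funext i
      fin_cases i <;> simp
  · obtain ⟨w, hw⟩ := isUnit_of_q h
    refine ⟨!![v 0, -((w⁻¹ : ℤ_[p]ˣ) : ℤ_[p]); v 1, 0], ?_, ?_⟩
    · rw [Matrix.det_fin_two_of, ← hw]
      have := Units.inv_mul w
      linear_combination this
    · funext i
      fin_cases i <;> simp

theorem diag_conj (X : Matrix (Fin 2) (Fin 2) ℤ_[p]) (v : Fin 2 → ℤ_[p])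
    (hv : q (v 0) ≠ 0 ∨ q (v 1) ≠ 0) (hX : wed (X *ᵥ v) v = 0)
    (hne : ∀ x1 : ℤ_[p], X.det = x1 * (X.trace - x1) → q (x1 - (X.trace - x1)) ≠ 0) :
    ∃ (U : Matrix (Fin 2) (Fin 2) ℤ_[p]) (x1 : ℤ_[p]), U.det = 1 ∧
      X.det = x1 * (X.trace - x1) ∧
      U.adjugate * X * U = !![x1, 0; 0, X.trace - x1] := by
  obtain ⟨U1, hU1, hc⟩ := exists_unimod v hv
  set Y := U1.adjugate * X * U1 with hY
  have hv' : v = U1 *ᵥ (Pi.single 0 1) := by
    rw [Matrix.mulVec_single_one, ← hc]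
    rfl
  have hY10 : Y 1 0 = 0 := by
    have h1 : wed (Y *ᵥ (Pi.single 0 1)) (Pi.single 0 1) = wed (X *ᵥ v) v := by
      conv_rhs => rw [hv']
      have h2 : X *ᵥ (U1 *ᵥ (Pi.single 0 1)) = U1 *ᵥ (Y *ᵥ (Pi.single 0 1)) := by
        rw [Matrix.mulVec_mulVec, Matrix.mulVec_mulVec, hY, ← mul_assoc, ← mul_assoc,
          Matrix.mul_adjugate, hU1, one_smul, one_mul]
      rw [h2, wed_mulVec, hU1, one_mul]
    rw [hX] at h1
    simp [wed, Matrix.col] at h1
    exact h1
  have htr : Y.trace = X.trace := by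
    rw [hY, Matrix.trace_mul_comm, ← mul_assoc, Matrix.mul_adjugate, hU1, one_smul, one_mul]
  have hdet : Y.det = X.det := by
    rw [hY, Matrix.det_mul, Matrix.det_mul, Matrix.det_adjugate, hU1]
    simp
  set x1 := Y 0 0 with hx1
  have hx2 : Y 1 1 = X.trace - x1 := by
    rw [← htr, Matrix.trace_fin_two]
    ring
  have hd : X.det = x1 * (X.trace - x1) := by
    rw [← hdet, Matrix.det_fin_two, hY10, ← hx2]
    ring
  obtain ⟨w, hw⟩ := isUnit_of_q (hne x1 hd)
  -- `r (x2 - x1) = s`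
  set r := -(Y 0 1 * ((w⁻¹ : ℤ_[p]ˣ) : ℤ_[p])) with hr
  have hr' : r * x1 + Y 0 1 - r * (X.trace - x1) = 0 := by
    have h1 : ((w⁻¹ : ℤ_[p]ˣ) : ℤ_[p]) * (x1 - (X.trace - x1)) = 1 := by
      rw [← hw]
      exact Units.inv_mul w
    rw [hr]
    linear_combination -(Y 0 1) * h1
  refine ⟨U1 * !![1, r; 0, 1], x1, ?_, hd, ?_⟩
  · rw [Matrix.det_mul, hU1, Matrix.det_fin_two_of]
    ring
  · have h1 : (U1 * !![1, r; 0, 1]).adjugate * X * (U1 * !![1, r; 0, 1]) =
        (!![1, r; 0, 1] : Matrix (Fin 2) (Fin 2) ℤ_[p]).adjugate * Y * !![1, r; 0, 1] := by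
      rw [Matrix.adjugate_mul_distrib, hY]
      simp only [mul_assoc]
    have hYe : Y = !![x1, Y 0 1; 0, X.trace - x1] := by
      conv_lhs => rw [Matrix.eta_fin_two Y, hY10, hx2, ← hx1]
    generalize Y 0 1 = y at hr' hYe
    rw [h1, hYe, Matrix.adjugate_fin_two_of, Matrix.mul_fin_two, Matrix.mul_fin_two]
    have f1 : (1 * x1 + -r * 0) * 1 + (1 * y + -r * (X.trace - x1)) * 0 = x1 := by ring
    have f2 : (1 * x1 + -r * 0) * r + (1 * y + -r * (X.trace - x1)) * 1 = 0 := by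
      linear_combination hr'
    have f3 : (-0 * x1 + 1 * 0) * 1 + (-0 * y + 1 * (X.trace - x1)) * 0 = 0 := by ring
    have f4 : (-0 * x1 + 1 * 0) * r + (-0 * y + 1 * (X.trace - x1)) * 1 = X.trace - x1 := by ring
    rw [f1, f2, f3, f4]

end

end Pool.Agent.TH831.OT
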