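import Pool.Agent.TH831.OT.Twist

/-!
# The general theorem, and the conditions for at most two primes congruent to `1` modulo `p`
-/

set_option autoImplicit false

namespace Pool.Agent.TH831.OT

open NumberField Matrix Pool.Agent.W569.FM Pool.Agent.W134.FM

section
variable {p : ℕ} [hp : Fact p.Prime]

/-- the values `(l - 1) / p` -/
def uu (p : ℕ) (l : ℕ) : ZMod p := (((l - 1) / p : ℕ) : ZMod p)

theorem ordinary (hp5 : 5 ≤ p) (S : Finset ℕ)
    (hS : ∀ l ∈ S, l.Prime ∧ l ≠ p ∧ ¬ p ^ 2 ∣ l - 1)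
    (χ : ∀ j : ℕ, (ZMod j)ˣ →* Multiplicative (ZMod p))
    (hχ : ∀ l ∈ S, p ∣ l - 1 → ∃ x, χ l x ≠ 1)
    (P0 : Ideal (OO ℚ)) (hP0 : P0.IsMaximal) (hpP0 : (p : OO ℚ) ∈ P0)
    (lam : ℕ → ℕ → ZMod p) (b : ℕ → ZMod p)
    (hlam : ∀ l ∈ S, p ∣ l - 1 → ∀ j ∈ S, p ∣ j - 1 → j ≠ l → ∀ x : (ZMod j)ˣ,
      (x : ZMod j) = (l : ZMod j) → lam l j = Multiplicative.toAdd (χ j x))
    (hb : ∀ j ∈ S, p ∣ j - 1 → ∀ x : (ZMod j)ˣ,
      (x : ZMod j) = (p : ZMod j) → b j = Multiplicative.toAdd (χ j x))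
    (hH0 : H0 (S.filter fun l => p ∣ l - 1) (uu p) lam b)
    (hH1 : H1 (S.filter fun l => p ∣ l - 1) (uu p) lam b)
    (ρ : GF ℚ →* GL (Fin 2) ℤ_[p]) (hρ : Continuous ρ) (hres : ResUnip ρ)
    (hur : ∀ P : Ideal (OO ℚ), P.IsMaximal → (∀ l ∈ S, (l : OO ℚ) ∉ P) → (p : OO ℚ) ∉ P →
      ∀ τ : GF ℚ, InInertia P τ → ρ τ = 1)
    (hline : HasLine ρ (DSet P0)) : HasLine ρ Set.univ := by
  have hp2 : p ≠ 2 := by omega
  obtain ⟨A, hA⟩ := exists_Ar hp2 S hS χ hχ P0 hP0 hpP0 lam b hlam hb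
  obtain ⟨ρ1, s, h1c, h1r, hs0, h1e, h1d, h1u⟩ := exists_twist hp2 hρ hres
  have hG : Good A (fun g => (mt (ρ1 g)).trace) ρ1 := by
    refine ⟨h1c, ?_, h1d, fun g => rfl, ?_, ?_, ?_⟩
    · rintro g ⟨P, hP, h1, h2, h3⟩
      exact h1u g (hur P hP h1 h2 g h3)
    · obtain ⟨v, hv, hl⟩ := hline
      refine ⟨v, hv, fun g hg => ?_⟩
      rw [h1e, Matrix.smul_mulVec, wed_smul_left, hl g hg, mul_zero]
    · intro l hl
      obtain ⟨hl1, hl2⟩ := Finset.mem_filter.1 hl
      obtain ⟨P, hP, hlP, hτ, hσ⟩ := hA l hl1 hl2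
      exact (tame_rel hp5 ρ1 h1c h1r (hS l hl1).1 (Ne.symm (hS l hl1).2.1) hP hlP hτ hσ).1
    · intro l hl
      obtain ⟨hl1, hl2⟩ := Finset.mem_filter.1 hl
      obtain ⟨P, hP, hlP, hτ, hσ⟩ := hA l hl1 hl2
      exact (tame_rel hp5 ρ1 h1c h1r (hS l hl1).1 (Ne.symm (hS l hl1).2.1) hP hlP hτ hσ).2
  obtain ⟨ρ2, hρ2, hOd⟩ := exists_od h1r
  have h2 := main hp2 hH0 hH1 (hG.conj hρ2) hOd
  obtain ⟨v, hv, hl⟩ := hρ2.symm.line h2
  refine ⟨v, hv, fun g hg => ?_⟩
  have h3 := hl g hg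
  rw [h1e, Matrix.smul_mulVec, wed_smul_left] at h3
  exact (mul_eq_zero.1 h3).resolve_left (hs0 g)

variable {S1 : Finset ℕ} {u : ℕ → ZMod p} {lam : ℕ → ℕ → ZMod p} {b : ℕ → ZMod p}

theorem h0_core (hcard : S1.card ≤ 2) (hu : ∀ l ∈ S1, u l ≠ 0)
    (hpow : ∀ l ∈ S1, ∀ k ∈ S1, k ≠ l → b l ≠ 0 ∨ lam k l ≠ 0)
    (xp yp : ZMod p) (x y : ℕ → ZMod p) (h1 : ∀ l ∈ S1, x l * y l = 0)
    (h2 : ∀ l ∈ S1, x l * (u l * yp + ∑ j ∈ S1, lam l j * y j) = 0)
    (h3 : ∀ l ∈ S1, y l * (u l * xp + ∑ j ∈ S1, lam l j * x j) = 0)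
    (h4 : xp = 0) (h5 : ∑ j ∈ S1, b j * x j = 0) :
    (xp = 0 ∧ ∀ l ∈ S1, x l = 0) ∨ (yp = 0 ∧ ∀ l ∈ S1, y l = 0) := by
  classical
  by_cases hx : ∀ l ∈ S1, x l = 0
  · exact Or.inl ⟨h4, hx⟩
  right
  push Not at hx
  obtain ⟨k, hk, hxk⟩ := hx
  have hyk : y k = 0 := (mul_eq_zero.1 (h1 k hk)).resolve_left hxk
  have h6 := (mul_eq_zero.1 (h2 k hk)).resolve_left hxk
  -- the rest of `S1`
  have hyl : ∀ l ∈ S1, y l = 0 := by
    intro l hl
    by_cases hlk : l = k
    · rw [hlk, hyk]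
    have hS1 : S1 = {k, l} := by
      symm
      apply Finset.eq_of_subset_of_card_le
      · intro j hj
        rcases Finset.mem_insert.1 hj with h | h
        · rw [h]; exact hk
        · rw [Finset.mem_singleton.1 h]; exact hl
      · rw [Finset.card_pair (Ne.symm hlk)]
        exact hcard
    by_contra hy
    have hxl : x l = 0 := (mul_eq_zero.1 (h1 l hl)).resolve_right hy
    have h7 := (mul_eq_zero.1 (h3 l hl)).resolve_left hy
    rw [hS1, Finset.sum_pair (Ne.symm hlk), h4, hxl] at h7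
    rw [hS1, Finset.sum_pair (Ne.symm hlk), hxl] at h5
    have h8 : lam l k = 0 := by
      have : lam l k * x k = 0 := by linear_combination h7
      exact (mul_eq_zero.1 this).resolve_right hxk
    have h9 : b k = 0 := by
      have : b k * x k = 0 := by linear_combination h5
      exact (mul_eq_zero.1 this).resolve_right hxk
    rcases hpow k hk l hl hlk with h | h
    · exact h h9
    · exact h h8
  refine ⟨?_, hyl⟩
  rw [Finset.sum_eq_zero (fun j hj => by rw [hyl j hj, mul_zero]), add_zero] at h6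
  exact (mul_eq_zero.1 h6).resolve_left (hu k hk)

theorem h0_few (hcard : S1.card ≤ 2) (hu : ∀ l ∈ S1, u l ≠ 0)
    (hpow : ∀ l ∈ S1, ∀ k ∈ S1, k ≠ l → b l ≠ 0 ∨ lam k l ≠ 0) : H0 S1 u lam b := by
  intro xp yp x y h1 h2 h3 h4
  rcases h4 with ⟨h4, h5⟩ | ⟨h4, h5⟩
  · exact h0_core hcard hu hpow xp yp x y h1 h2 h3 h4 h5
  · exact (h0_core hcard hu hpow yp xp y x (fun l hl => by rw [mul_comm]; exact h1 l hl) h3 h2
      h4 h5).symm

/-- the kernel of a nilpotent two by two matrix -/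
theorem nil_kernel {K : Type} [Field K] {T : Matrix (Fin 2) (Fin 2) K} (hT : T * T = 0)
    (hT0 : T ≠ 0) : ∃ w : Fin 2 → K, w ≠ 0 ∧ T *ᵥ w = 0 ∧ (∀ a, T *ᵥ a = 0 → wed a w = 0) ∧
      ∀ T' : Matrix (Fin 2) (Fin 2) K, T' * T' = 0 → (T * T').trace = 0 → T' *ᵥ w = 0 := by
  have htr := trace_zero_of_sq hT
  rw [Matrix.trace_fin_two] at htr
  have e11 : T 1 1 = - T 0 0 := by linear_combination htr
  have e00 := congrFun (congrFun hT 0) 0
  rw [Matrix.mul_apply, Fin.sum_univ_two, Matrix.zero_apply] at e00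
  have key : ∃ w : Fin 2 → K, w ≠ 0 ∧ T *ᵥ w = 0 ∧
      ∀ T' : Matrix (Fin 2) (Fin 2) K, T' * T' = 0 → (T * T').trace = 0 →
        wed (T' *ᵥ w) w = 0 := by
    by_cases hc : T 0 0 = 0 ∧ T 1 0 = 0
    · obtain ⟨h1, h2⟩ := hc
      have hb : T 0 1 ≠ 0 := by
        intro h3
        apply hT0
        ext i j
        fin_cases i <;> fin_cases j
        · exact h1
        · exact h3
        · exact h2
        · show T 1 1 = 0
          rw [e11, h1, neg_zero]
      refine ⟨![1, 0], fun h => by simpa using congrFun h 0, ?_, fun T' _ htr' => ?_⟩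
      · funext i
        fin_cases i <;> simp [Matrix.mulVec, dotProduct, Fin.sum_univ_two, h1, h2]
      · rw [Matrix.trace_fin_two, Matrix.mul_apply, Matrix.mul_apply, Fin.sum_univ_two,
          Fin.sum_univ_two, h1, h2, e11, h1] at htr'
        have h5 : T' 1 0 = 0 := by
          have : T 0 1 * T' 1 0 = 0 := by linear_combination htr'
          exact (mul_eq_zero.1 this).resolve_left hb
        simp [wed, Matrix.mulVec, dotProduct, Fin.sum_univ_two, h5]
    · refine ⟨![T 0 0, T 1 0], fun h => hc ⟨by simpa using congrFun h 0,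
        by simpa using congrFun h 1⟩, ?_, fun T' _ htr' => ?_⟩
      · funext i
        fin_cases i
        · simp [Matrix.mulVec, dotProduct, Fin.sum_univ_two]
          exact e00
        · simp [Matrix.mulVec, dotProduct, Fin.sum_univ_two, e11]
          ring
      · rw [Matrix.trace_fin_two, Matrix.mul_apply, Matrix.mul_apply, Fin.sum_univ_two,
          Fin.sum_univ_two, e11] at htr'
        have h6 : T' 0 0 * T 0 0 * T 1 0 + T' 0 1 * T 1 0 * T 1 0 - T' 1 0 * T 0 0 * T 0 0 -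
            T' 1 1 * T 1 0 * T 0 0 = 0 := by
          linear_combination T 1 0 * htr' - T' 1 0 * e00
        simp only [wed, Matrix.mulVec, dotProduct, Fin.sum_univ_two, Matrix.cons_val_zero,
          Matrix.cons_val_one]
        linear_combination h6
  obtain ⟨w, hw, hTw, hw'⟩ := key
  refine ⟨w, hw, hTw, fun a ha => ?_, fun T' hT' htr' => ?_⟩
  · by_contra hne
    apply hT0
    ext i j
    have h1 := congrFun hTw i
    have h2 := congrFun ha i
    simp only [Matrix.mulVec, dotProduct, Fin.sum_univ_two, Pi.zero_apply] at h1 h2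
    rw [Matrix.zero_apply]
    unfold wed at hne
    fin_cases j
    · have h3 : T i 0 * (a 0 * w 1 - a 1 * w 0) = 0 := by
        linear_combination w 1 * h2 - a 1 * h1
      exact (mul_eq_zero.1 h3).resolve_right hne
    · have h3 : T i 1 * (a 0 * w 1 - a 1 * w 0) = 0 := by
        linear_combination a 0 * h1 - w 0 * h2
      exact (mul_eq_zero.1 h3).resolve_right hne
  · obtain ⟨c, hc⟩ := eig_of_wed hw (hw' T' hT' htr')
    have h1 : (T' * T') *ᵥ w = c • c • w := by
      rw [← Matrix.mulVec_mulVec, hc, Matrix.mulVec_smul, hc]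
    rw [hT', Matrix.zero_mulVec, smul_smul] at h1
    rcases smul_eq_zero.1 h1.symm with h2 | h2
    · rw [hc, mul_self_eq_zero.1 h2, zero_smul]
    · exact absurd h2 hw

theorem comm_sum (T : ℕ → Matrix (Fin 2) (Fin 2) (ZMod p)) (c : ℕ → ZMod p) (l : ℕ) :
    (∑ j ∈ S1, c j • T j) * T l - T l * (∑ j ∈ S1, c j • T j) =
      ∑ j ∈ S1, c j • (T j * T l - T l * T j) := by
  rw [Finset.sum_mul, Finset.mul_sum, ← Finset.sum_sub_distrib]
  refine Finset.sum_congr rfl fun j _ => ?_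
  rw [smul_sub, Matrix.smul_mul, Matrix.mul_smul]

theorem h1_few (hp2 : p ≠ 2) (hcard : S1.card ≤ 2) (hu : ∀ l ∈ S1, u l ≠ 0) :
    H1 S1 u lam b := by
  classical
  intro C T _ hsq hrel hv
  by_cases hT : ∀ l ∈ S1, T l = 0
  · obtain ⟨v, hv0, hv1, -⟩ := hv
    exact ⟨v, hv0, hv1, fun l hl => by rw [hT l hl, Matrix.zero_mulVec]⟩
  push Not at hT
  obtain ⟨k, hk, hTk⟩ := hT
  have hrel' : ∀ l ∈ S1, u l • (C * T l - T l * C) +
      ∑ j ∈ S1, lam l j • (T j * T l - T l * T j) = u l • T l := by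
    intro l hl
    rw [← comm_sum, ← hrel l hl]
    simp only [add_mul, mul_add, Matrix.smul_mul, Matrix.mul_smul, smul_sub]
    abel
  obtain ⟨w, hw0, hTkw, hker, hw'⟩ := nil_kernel (hsq k hk) hTk
  have hall : ∀ l ∈ S1, T l *ᵥ w = 0 := by
    intro l hl
    by_cases hlk : l = k
    · rw [hlk]; exact hTkw
    have hS1 : S1 = {k, l} := by
      symm
      apply Finset.eq_of_subset_of_card_le
      · intro j hj
        rcases Finset.mem_insert.1 hj with h | h
        · rw [h]; exact hk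
        · rw [Finset.mem_singleton.1 h]; exact hl
      · rw [Finset.card_pair (Ne.symm hlk)]
        exact hcard
    apply hw' _ (hsq l hl)
    have r1 := hrel' k hk
    have r2 := hrel' l hl
    rw [hS1, Finset.sum_pair (Ne.symm hlk), sub_self, smul_zero, zero_add] at r1
    rw [hS1, Finset.sum_pair (Ne.symm hlk), sub_self, smul_zero, add_zero] at r2
    have t1 := congrArg (fun M => (M * T l).trace) r1
    have t2 := congrArg (fun M => (M * T k).trace) r2
    simp only [add_mul, sub_mul, Matrix.smul_mul, Matrix.trace_add, Matrix.trace_sub,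
      Matrix.trace_smul, smul_eq_mul, mul_sub] at t1 t2
    -- cyclic identities
    have c1 : (T l * T k * T l).trace = 0 := by
      rw [Matrix.trace_mul_comm, ← mul_assoc, hsq l hl, zero_mul, Matrix.trace_zero]
    have c2 : (T k * T l * T l).trace = 0 := by
      rw [mul_assoc, hsq l hl, mul_zero, Matrix.trace_zero]
    have c3 : (T k * T l * T k).trace = 0 := by
      rw [Matrix.trace_mul_comm, ← mul_assoc, hsq k hk, zero_mul, Matrix.trace_zero]
    have c4 : (T l * T k * T k).trace = 0 := by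
      rw [mul_assoc, hsq k hk, mul_zero, Matrix.trace_zero]
    have c5 : (T k * C * T l).trace = (C * T l * T k).trace := by
      rw [mul_assoc, Matrix.trace_mul_comm]
    have c6 : (T l * C * T k).trace = (C * T k * T l).trace := by
      rw [mul_assoc, Matrix.trace_mul_comm]
    have c7 : (T l * T k).trace = (T k * T l).trace := Matrix.trace_mul_comm _ _
    rw [c1, c2, c5] at t1
    rw [c3, c4, c6, c7] at t2
    have t1' : (C * T k * T l).trace - (C * T l * T k).trace = (T k * T l).trace := by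
      apply mul_left_cancel₀ (hu k hk)
      linear_combination t1
    have t2' : (C * T l * T k).trace - (C * T k * T l).trace = (T k * T l).trace := by
      apply mul_left_cancel₀ (hu l hl)
      linear_combination t2
    have t3 : 2 * (T k * T l).trace = 0 := by linear_combination -t1' - t2'
    exact (mul_eq_zero.1 t3).resolve_left (two_ne hp2)
  refine ⟨w, hw0, ?_, hall⟩
  apply hker
  have h1 := congrArg (fun M => M *ᵥ w) (hrel' k hk)
  have h2 : (∑ j ∈ S1, lam k j • (T j * T k - T k * T j)) *ᵥ w = 0 := by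
    rw [Matrix.sum_mulVec]
    refine Finset.sum_eq_zero fun j hj => ?_
    rw [Matrix.smul_mulVec, Matrix.sub_mulVec, ← Matrix.mulVec_mulVec, ← Matrix.mulVec_mulVec,
      hTkw, hall j hj, Matrix.mulVec_zero, Matrix.mulVec_zero, sub_zero, smul_zero]
  simp only [Matrix.add_mulVec, h2, add_zero, Matrix.smul_mulVec, Matrix.sub_mulVec, hTkw,
    smul_zero] at h1
  rw [← Matrix.mulVec_mulVec, ← Matrix.mulVec_mulVec, hTkw, Matrix.mulVec_zero, zero_sub] at h1
  have h3 := (smul_eq_zero.1 h1).resolve_left (hu k hk)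
  exact neg_eq_zero.1 h3

end

end Pool.Agent.TH831.OT
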