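import Pool.Agent.TH831.OT.Step3

/-!
# The steps: conclusion
-/

set_option autoImplicit false

namespace Pool.Agent.TH831.OT

open Matrix Pool.Agent.W569.FM

section
variable {p : ℕ} [hp : Fact p.Prime] {G : Type} [Group G] [TopologicalSpace G]
  [IsTopologicalGroup G] {S1 : Finset ℕ} {u : ℕ → ZMod p} {lam : ℕ → ℕ → ZMod p} {b : ℕ → ZMod p}
  {Ur D : Set G}

theorem two_ne (hp2 : p ≠ 2) : (2 : ZMod p) ≠ 0 := by
  intro e3
  have e4 : ((2 : ℕ) : ZMod p) = 0 := by exact_mod_cast e3
  have := Nat.le_of_dvd two_pos ((ZMod.natCast_eq_zero_iff 2 p).1 e4)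
  have := hp.out.two_le
  omega

theorem red_apply (M : Matrix (Fin 2) (Fin 2) ℤ_[p]) (i j : Fin 2) :
    red p 2 M i j = q (M i j) := rfl

theorem wed_red (M : Matrix (Fin 2) (Fin 2) ℤ_[p]) (v w : Fin 2 → ℤ_[p]) :
    wed (red p 2 M *ᵥ (fun i => q (v i))) (fun i => q (w i)) = q (wed (M *ᵥ v) w) := by
  simp only [wed, Matrix.mulVec, dotProduct, Fin.sum_univ_two, red_apply]
  rw [q_sub, q_mul, q_mul, q_add, q_add, q_mul, q_mul, q_mul, q_mul]

/-- improving an even level, or finding a line -/
theorem ev_step (hp2 : p ≠ 2) {A : Ar p G S1 u lam b Ur D} {t : G → ℤ_[p]}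
    (hH : H1 S1 u lam b) {ρ : G →* GL (Fin 2) ℤ_[p]} (hG : Good A t ρ) {k : ℕ} (hk : 1 ≤ k)
    (hEv : Ev k ρ) :
    (∃ ρ' : G →* GL (Fin 2) ℤ_[p], Rel ρ ρ' ∧ Od k ρ') ∨ HasLine ρ Set.univ := by
  choose X hX using hEv
  have htr := ev_trace hk hX hG.det
  set C := red p 2 (X A.γ) with hC
  set T : ℕ → Matrix (Fin 2) (Fin 2) (ZMod p) := fun l => red p 2 (X (A.τ l)) with hTdef
  have hspan : ∀ g, red p 2 (X g) = A.psi g • C + ∑ l ∈ S1, A.chi l g • T l := by
    intro g
    ext i j
    rw [red_apply, span_entry A hG hk hX i j g, Matrix.add_apply, Matrix.smul_apply,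
      Matrix.sum_apply, smul_eq_mul]
    rfl
  have htr' : ∀ g, (red p 2 (X g)).trace = 0 := by
    intro g
    rw [Matrix.trace_fin_two, red_apply, red_apply, ← q_add, ← Matrix.trace_fin_two, q_eq_zero]
    exact htr g
  obtain ⟨v, hv, hvl⟩ := hG.prim
  have hvX : ∀ g ∈ D, wed (X g *ᵥ v) v = 0 := by
    intro g hg
    have e := hvl g hg
    rw [hX g, Matrix.add_mulVec, Matrix.one_mulVec, Matrix.smul_mulVec, wed_add_left, wed_self,
      zero_add, wed_smul_left] at e
    exact (mul_eq_zero.1 e).resolve_left (ppow_ne k)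
  have hv0 : (fun i => q (v i)) ≠ (0 : Fin 2 → ZMod p) := by
    intro h
    rcases hv with h1 | h1
    · exact h1 (congrFun h 0)
    · exact h1 (congrFun h 1)
  have hvC : wed (C *ᵥ (fun i => q (v i))) (fun i => q (v i)) = 0 := by
    rw [hC, wed_red, hvX _ A.hγ, q_zero]
  have hTsq : ∀ l ∈ S1, T l * T l = 0 := by
    intro l hl
    have e := congrArg (red p 2) (ev_tame A hG hX hl).1
    rwa [map_mul, map_zero] at e
  -- a common eigenvector
  have hw : ∃ w : Fin 2 → ZMod p, w ≠ 0 ∧ wed (C *ᵥ w) w = 0 ∧ ∀ l ∈ S1, T l *ᵥ w = 0 := by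
    by_cases hk1 : k = 1
    · refine hH C T (htr' _) hTsq (fun l hl => ?_) ⟨_, hv0, hvC, ?_⟩
      · rcases ev_tame_red A hG hk hX hl with ⟨-, h⟩ | ⟨h, -⟩
        · rw [hspan (A.σ l), A.hu l hl] at h
          have hcm : ∀ c : ℕ → ZMod p, (∑ j ∈ S1, c j • T j) * T l - T l * (∑ j ∈ S1, c j • T j) =
              ∑ j ∈ S1, c j • (T j * T l - T l * T j) := by
            intro c
            rw [Finset.sum_mul, Finset.mul_sum, ← Finset.sum_sub_distrib]
            refine Finset.sum_congr rfl fun j _ => ?_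
            rw [smul_sub, Matrix.smul_mul, Matrix.mul_smul]
          have hsum : ∑ j ∈ S1, A.chi j (A.σ l) • (T j * T l - T l * T j) =
              ∑ j ∈ S1, lam l j • (T j * T l - T l * T j) := by
            refine Finset.sum_congr rfl fun j hj => ?_
            by_cases hjl : j = l
            · subst hjl
              rw [sub_self, smul_zero, smul_zero]
            · rw [A.hlam l hl j hj hjl]
          have e1 : ∀ Z : Matrix (Fin 2) (Fin 2) (ZMod p), (u l • C + Z) * T l - T l * (u l • C + Z)
              = (u l • C * T l - T l * (u l • C)) + (Z * T l - T l * Z) := by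
            intro Z
            noncomm_ring
          rw [e1, hcm, ← hsum, ← hcm, ← e1]
          exact h
        · omega
      · have e : wed (red p 2 (X A.φ) *ᵥ (fun i => q (v i))) (fun i => q (v i)) = 0 := by
          rw [wed_red, hvX _ A.hφ, q_zero]
        rw [hspan A.φ, Matrix.add_mulVec, wed_add_left, Matrix.smul_mulVec, wed_smul_left, hvC,
          mul_zero, zero_add] at e
        rw [← e]
        congr 2
        exact Finset.sum_congr rfl fun j hj => by rw [A.hb j hj]
    · refine ⟨_, hv0, hvC, fun l hl => ?_⟩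
      rcases ev_tame_red A hG hk hX hl with ⟨h, -⟩ | ⟨-, h⟩
      · exact absurd h hk1
      · show red p 2 (X (A.τ l)) *ᵥ _ = 0
        rw [h, Matrix.zero_mulVec]
  obtain ⟨w, hw0, hwC, hwT⟩ := hw
  by_cases hCw : C *ᵥ w = 0
  · left
    refine move1 ρ X hX w hw0 (fun g => ?_) htr
    rw [hspan g, Matrix.add_mulVec, Matrix.smul_mulVec, hCw, smul_zero, zero_add,
      Matrix.sum_mulVec]
    exact Finset.sum_eq_zero fun l hl => by rw [Matrix.smul_mulVec, hwT l hl, smul_zero]
  · right
    obtain ⟨c, hc⟩ := eig_of_wed hw0 hwC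
    have hc0 : c ≠ 0 := by
      rintro rfl
      exact hCw (by rw [hc, zero_smul])
    have hTr : ∀ l ∈ S1, (C * T l).trace = 0 := fun l hl =>
      trace_mul_zero hw0 hwC (hwT l hl) (htr' _) (htr' _)
    -- determinant of `C`
    have hdetC : C.det = -(c ^ 2) := by
      have e0 := congrFun hc 0
      have e1 := congrFun hc 1
      have e2 := htr' A.γ
      rw [Matrix.trace_fin_two] at e2
      simp only [Matrix.mulVec, dotProduct, Fin.sum_univ_two, Pi.smul_apply, smul_eq_mul] at e0 e1
      rw [Matrix.det_fin_two]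
      have e3 : C 1 1 = - C 0 0 := by linear_combination e2
      rw [e3] at e1 ⊢
      by_cases h0 : w 0 = 0
      · have h1 : w 1 ≠ 0 := by
          intro h1
          apply hw0
          funext i
          fin_cases i
          · exact h0
          · exact h1
        apply mul_left_cancel₀ h1
        rw [h0] at e0 e1
        linear_combination (C 0 0 - c) * e1 - C 1 0 * e0
      · apply mul_left_cancel₀ h0
        linear_combination -(C 0 0 + c) * e0 - C 0 1 * e1
    have hqdet : q (X A.γ).det = -(c ^ 2) := by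
      rw [← hdetC, Matrix.det_fin_two, Matrix.det_fin_two, q_sub, q_mul, q_mul]
      rfl
    have hqtr : q (X A.γ).trace = 0 := q_eq_zero.2 (htr _)
    have hx1 : ∀ x1 : ℤ_[p], (X A.γ).det = x1 * ((X A.γ).trace - x1) → q x1 ≠ 0 := by
      intro x1 h h0
      rw [h, q_mul, h0, zero_mul] at hqdet
      exact pow_ne_zero 2 hc0 (by linear_combination hqdet)
    obtain ⟨U, x1, hU, hdet, hY⟩ := diag_conj (X A.γ) v hv (hvX _ A.hγ) (fun x1 h => by
      rw [q_sub, q_sub, hqtr]
      have e := hx1 x1 h
      intro h0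
      have e2 : (2 : ZMod p) * q x1 = 0 := by linear_combination h0
      exact e ((mul_eq_zero.1 e2).resolve_left (two_ne hp2)))
    obtain ⟨ρ', hρ', hr⟩ := exists_conj ρ U hU
    have hG' := hG.conj hρ'
    set X' : G → Matrix (Fin 2) (Fin 2) ℤ_[p] := fun g => U.adjugate * X g * U with hX'
    have hX'e : ∀ g, mt (ρ' g) = 1 + (p : ℤ_[p]) ^ k • X' g := by
      intro g
      rw [hr, hX, mul_add, mul_one, add_mul, Matrix.adjugate_mul, hU, one_smul, Matrix.mul_smul,
        Matrix.smul_mul]
    refine hρ'.symm.line (stage2 hp2 A hG' hk hX'e (fun l hl => ?_) ?_ ?_)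
    · -- trace of the product
      have e1 : (X' A.γ * X' (A.τ l)).trace = (X A.γ * X (A.τ l)).trace := by
        have e2 : X' A.γ * X' (A.τ l) = U.adjugate * (X A.γ * X (A.τ l)) * U := by
          show U.adjugate * X A.γ * U * (U.adjugate * X (A.τ l) * U) = _
          have e3 : U.adjugate * X A.γ * U * (U.adjugate * X (A.τ l) * U) =
              U.adjugate * X A.γ * (U * U.adjugate) * X (A.τ l) * U := by
            simp only [mul_assoc]
          rw [e3, Matrix.mul_adjugate, hU, one_smul, mul_one]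
          simp only [mul_assoc]
        rw [e2, Matrix.trace_mul_comm, ← mul_assoc, Matrix.mul_adjugate, hU, one_smul, one_mul]
      have e2 : q (X A.γ * X (A.τ l)).trace = 0 := by
        have e3 := hTr l hl
        have e4 : C * T l = red p 2 (X A.γ * X (A.τ l)) := by rw [map_mul]
        rw [e4, Matrix.trace_fin_two, red_apply, red_apply, ← q_add, ← Matrix.trace_fin_two] at e3
        exact e3
      rw [← e1] at e2
      have e3 : X' A.γ = !![x1, 0; 0, (X A.γ).trace - x1] := hY
      have e5 : (p : ℤ_[p]) ∣ (X' (A.τ l)).trace := by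
        have : (X' (A.τ l)).trace = (X (A.τ l)).trace := by
          show (U.adjugate * X (A.τ l) * U).trace = _
          rw [Matrix.trace_mul_comm, ← mul_assoc, Matrix.mul_adjugate, hU, one_smul, one_mul]
        rw [this]
        exact htr _
      rw [← q_eq_zero, Matrix.trace_fin_two, q_add] at e5
      have e6 : (X' A.γ * X' (A.τ l)).trace = x1 * X' (A.τ l) 0 0 +
          ((X A.γ).trace - x1) * X' (A.τ l) 1 1 := by
        rw [Matrix.trace_fin_two, Matrix.mul_apply, Matrix.mul_apply, Fin.sum_univ_two,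
          Fin.sum_univ_two, e3]
        simp
      rw [e6, q_add, q_mul, q_mul, q_sub, hqtr] at e2
      have e7 : 2 * q x1 * q (X' (A.τ l) 0 0) = 0 := by
        linear_combination e2 + q x1 * e5
      rcases mul_eq_zero.1 e7 with h | h
      · exact absurd ((mul_eq_zero.1 h).resolve_left (two_ne hp2)) (hx1 x1 hdet)
      · exact h
    · show (U.adjugate * X A.γ * U) 0 1 = 0
      rw [hY]
      simp
    · show (U.adjugate * X A.γ * U) 1 0 = 0
      rw [hY]
      simp

omit [TopologicalSpace G] [IsTopologicalGroup G] in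
/-- if all traces are `2` there is a line -/
theorem line_of_trace (hp2 : p ≠ 2) {ρ : G →* GL (Fin 2) ℤ_[p]} (hdet : ∀ g, (mt (ρ g)).det = 1)
    (htr : ∀ g, (mt (ρ g)).trace = 2) : HasLine ρ Set.univ := by
  have _ := hp2
  by_cases h : ∀ g, mt (ρ g) = 1
  · exact ⟨Pi.single 0 1, fun h => by simpa using congrFun h 0, fun g _ => by
      rw [h g, Matrix.one_mulVec, wed_self]⟩
  · push Not at h
    obtain ⟨g, hg⟩ := h
    -- entries of `N = ρ g - 1`
    have key : ∀ h : G, ∃ a b e : ℤ_[p], mt (ρ h) = !![1 + a, b; e, 1 - a] ∧ a ^ 2 + b * e = 0 := by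
      intro h
      refine ⟨mt (ρ h) 0 0 - 1, mt (ρ h) 0 1, mt (ρ h) 1 0, ?_, ?_⟩
      · have e1 := htr h
        rw [Matrix.trace_fin_two] at e1
        ext i j
        fin_cases i <;> fin_cases j
        · simp
        · simp
        · simp
        · simp only [Fin.mk_one, Matrix.of_apply, Matrix.cons_val', Matrix.cons_val_one]
          simp only [Matrix.cons_val_fin_one]
          linear_combination e1
      · have e1 := htr h
        have e2 := hdet h
        rw [Matrix.trace_fin_two] at e1
        rw [Matrix.det_fin_two] at e2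
        linear_combination -e2 + mt (ρ h) 0 0 * e1
    obtain ⟨a, b, e, hm, hab⟩ := key g
    have hcross : ∀ h : G, ∀ α β κ : ℤ_[p], mt (ρ h) = !![1 + α, β; κ, 1 - α] →
        2 * a * α + b * κ + e * β = 0 := by
      intro h α β κ hh
      have e1 := htr (g * h)
      rw [mt_mul, hm, hh, Matrix.trace_fin_two, Matrix.mul_apply, Matrix.mul_apply,
        Fin.sum_univ_two, Fin.sum_univ_two] at e1
      simp at e1
      linear_combination e1
    by_cases hae : a = 0 ∧ e = 0
    · obtain ⟨ha, he⟩ := hae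
      have hb : b ≠ 0 := by
        rintro rfl
        apply hg
        rw [hm, ha, he]
        ext i j
        fin_cases i <;> fin_cases j <;> simp
      refine ⟨Pi.single 0 1, fun h => by simpa using congrFun h 0, fun h _ => ?_⟩
      obtain ⟨α, β, κ, hh, -⟩ := key h
      have e1 := hcross h α β κ hh
      rw [ha, he] at e1
      have e2 : κ = 0 := by
        have : b * κ = 0 := by linear_combination e1
        exact (mul_eq_zero.1 this).resolve_left hb
      rw [hh]
      simp [wed, Matrix.col, e2]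
    · refine ⟨![a, e], fun h0 => hae ⟨congrFun h0 0, congrFun h0 1⟩, fun h _ => ?_⟩
      obtain ⟨α, β, κ, hh, -⟩ := key h
      have e1 := hcross h α β κ hh
      rw [hh]
      simp only [wed, Matrix.mulVec, dotProduct, Fin.sum_univ_two, Matrix.of_apply,
        Matrix.cons_val', Matrix.cons_val_zero, Matrix.cons_val_one]
      linear_combination e * e1 - κ * hab

/-- **the main theorem, abstract form** -/
theorem main (hp2 : p ≠ 2) {A : Ar p G S1 u lam b Ur D} {t : G → ℤ_[p]}
    (hH0 : H0 S1 u lam b) (hH1 : H1 S1 u lam b) {ρ : G →* GL (Fin 2) ℤ_[p]} (hG : Good A t ρ)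
    (hOd : Od 0 ρ) : HasLine ρ Set.univ := by
  by_cases htriv : ∀ g, t g = 2
  · exact line_of_trace hp2 hG.det fun g => by rw [hG.tr, htriv]
  · push Not at htriv
    obtain ⟨g0, hg0⟩ := htriv
    have hf : FiniteMultiplicity (p : ℤ_[p]) (t g0 - 2) :=
      FiniteMultiplicity.of_prime_left prime_p (sub_ne_zero.2 hg0)
    obtain ⟨B', hB'⟩ := hf
    set B := B' + 1 with hB
    have key : ∀ N : ℕ, (∀ ρ : G →* GL (Fin 2) ℤ_[p], ∀ m, Good A t ρ → Od m ρ → B ≤ m + N →
        HasLine ρ Set.univ) ∧ (∀ ρ : G →* GL (Fin 2) ℤ_[p], ∀ k, Good A t ρ → 1 ≤ k → Ev k ρ →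
        B ≤ k + N → HasLine ρ Set.univ) := by
      intro N
      induction N with
      | zero =>
        have hev : ∀ ρ : G →* GL (Fin 2) ℤ_[p], ∀ k, Good A t ρ → Ev k ρ → B ≤ k → False := by
          intro ρ k hG hEv hBk
          obtain ⟨X, hX⟩ := hEv g0
          apply hB'
          have e := hG.tr g0
          rw [hX, Matrix.trace_add, Matrix.trace_smul, Matrix.trace_one, Fintype.card_fin,
            smul_eq_mul] at e
          refine (pow_dvd_pow (p : ℤ_[p]) hBk).trans ⟨X.trace, ?_⟩
          rw [← e]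
          push_cast
          ring
        refine ⟨fun ρ m hG hOd hBm => ?_, fun ρ k hG _ hEv hBk => (hev ρ k hG hEv (by omega)).elim⟩
        exfalso
        refine hev ρ m hG (fun g => ?_) (by omega)
        obtain ⟨a, b, c, d, h⟩ := hOd g
        exact ⟨_, h⟩
      | succ N ih =>
        have h1 : ∀ ρ : G →* GL (Fin 2) ℤ_[p], ∀ m, Good A t ρ → Od m ρ → B ≤ m + (N + 1) →
            HasLine ρ Set.univ := by
          intro ρ m hG hOd hBm
          obtain ⟨ρ', hρ', hEv⟩ := od_step hH0 hG hOd
          exact hρ'.symm.line (ih.2 ρ' (m + 1) (hG.conj hρ') (by omega) hEv (by omega))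
        refine ⟨h1, fun ρ k hG hk hEv hBk => ?_⟩
        rcases ev_step hp2 hH1 hG hk hEv with ⟨ρ', hρ', hOd⟩ | h
        · exact hρ'.symm.line (h1 ρ' k (hG.conj hρ') hOd hBk)
        · exact h
    exact (key B).1 ρ 0 hG hOd (by omega)

end

end Pool.Agent.TH831.OT
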