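import Pool.Agent.TH831.OT.PsiP
import Pool.Agent.TH831.OT.Step4
import Pool.Agent.W64.TG.Cyc
import Pool.Agent.W924.UF.FrobZeta
import Pool.Agent.W571.FM.Frob
import Pool.Agent.W327.FM.TameAbs
import Pool.Agent.W258.FM.TameFin
import Pool.Agent.W215.FM.Gen
import Pool.Agent.W22.FM.Exact
import Pool.Agent.W376.TG.Uni

/-!
# The arithmetic input for the absolute Galois group of `ℚ`
-/

set_option autoImplicit false

namespace Pool.Agent.TH831.OT

open NumberField Matrix Pool.Agent.W569.FM Pool.Agent.W134.FM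

theorem inertia_mul {P : Ideal (OO ℚ)} {σ τ : GF ℚ} (hσ : InInertia P σ) (hτ : InInertia P τ) :
    InInertia P (σ * τ) := fun x => by
  have e : (σ * τ) • x - x = (σ • (τ • x - x) - (τ • x - x)) + (τ • x - x) + (σ • x - x) := by
    rw [mul_smul, smul_sub]; ring
  rw [e]
  exact P.add_mem (P.add_mem (hσ _) (hτ x)) (hσ x)

theorem inertia_pow {P : Ideal (OO ℚ)} {τ : GF ℚ} (hτ : InInertia P τ) (n : ℕ) :
    InInertia P (τ ^ n) := by
  induction n with
  | zero => rw [pow_zero]; exact inertia_one P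
  | succ n ih => rw [pow_succ]; exact inertia_mul ih hτ

theorem inertia_iff {P : Ideal (OO ℚ)} {τ : GF ℚ} (hτ : InInertia P τ) (x : OO ℚ) :
    τ • x ∈ P ↔ x ∈ P := by
  constructor
  · intro h
    have e : x = τ • x - (τ • x - x) := by ring
    rw [e]
    exact P.sub_mem h (hτ x)
  · intro h
    have e : τ • x = (τ • x - x) + x := by ring
    rw [e]
    exact P.add_mem (hτ x) h

theorem frob_iff {P : Ideal (OO ℚ)} (hP : P.IsMaximal) {l : ℕ} (hl : l ≠ 0) {σ : GF ℚ}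
    (hσ : FrobAt l P σ) (x : OO ℚ) : σ • x ∈ P ↔ x ∈ P := by
  constructor
  · intro h
    have e : x ^ l = σ • x - (σ • x - x ^ l) := by ring
    apply hP.isPrime.mem_of_pow_mem l
    rw [e]
    exact P.sub_mem h (hσ x)
  · intro h
    have e : σ • x = (σ • x - x ^ l) + x ^ l := by ring
    rw [e]
    exact P.add_mem (hσ x) (P.pow_mem_of_mem h l (Nat.pos_of_ne_zero hl))

section
variable {p : ℕ} [hp : Fact p.Prime]

/-- rescale an element -/
theorem exists_scale {P : Ideal (OO ℚ)} {ψ : GF ℚ →* Multiplicative (ZMod p)} {τ : GF ℚ}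
    (hτ : InInertia P τ) (h : ψ τ ≠ 1) :
    ∃ τ' : GF ℚ, InInertia P τ' ∧ ψ τ' = Multiplicative.ofAdd 1 := by
  have : NeZero p := ⟨hp.out.ne_zero⟩
  set c := Multiplicative.toAdd (ψ τ) with hc
  have hc0 : c ≠ 0 := by
    intro h0
    apply h
    apply Multiplicative.toAdd.injective
    rw [← hc, h0, toAdd_one]
  refine ⟨τ ^ (c⁻¹).val, inertia_pow hτ _, ?_⟩
  apply Multiplicative.toAdd.injective
  rw [map_pow, toAdd_pow, ← hc, nsmul_eq_mul, ZMod.natCast_zmod_val, toAdd_ofAdd,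
    inv_mul_cancel₀ hc0]

/-- inertia elements at primes outside `S ∪ {p}` -/
def UrSet (p : ℕ) (S : Finset ℕ) : Set (GF ℚ) :=
  {τ | ∃ P : Ideal (OO ℚ), P.IsMaximal ∧ (∀ l ∈ S, (l : OO ℚ) ∉ P) ∧ (p : OO ℚ) ∉ P ∧
    InInertia P τ}

/-- the decomposition group -/
def DSet (P : Ideal (OO ℚ)) : Set (GF ℚ) := {g | ∀ x : OO ℚ, g • x ∈ P ↔ x ∈ P}

theorem exists_Ar (hp2 : p ≠ 2) (S : Finset ℕ)
    (hS : ∀ l ∈ S, l.Prime ∧ l ≠ p ∧ ¬ p ^ 2 ∣ l - 1)
    (χ : ∀ j : ℕ, (ZMod j)ˣ →* Multiplicative (ZMod p))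
    (hχ : ∀ l ∈ S, p ∣ l - 1 → ∃ x, χ l x ≠ 1)
    (P0 : Ideal (OO ℚ)) (hP0 : P0.IsMaximal) (hpP0 : (p : OO ℚ) ∈ P0)
    (lam : ℕ → ℕ → ZMod p) (b : ℕ → ZMod p)
    (hlam : ∀ l ∈ S, p ∣ l - 1 → ∀ j ∈ S, p ∣ j - 1 → j ≠ l → ∀ x : (ZMod j)ˣ,
      (x : ZMod j) = (l : ZMod j) → lam l j = Multiplicative.toAdd (χ j x))
    (hb : ∀ j ∈ S, p ∣ j - 1 → ∀ x : (ZMod j)ˣ,
      (x : ZMod j) = (p : ZMod j) → b j = Multiplicative.toAdd (χ j x)) :
    ∃ A : Ar p (GF ℚ) (S.filter fun l => p ∣ l - 1) (fun l => (((l - 1) / p : ℕ) : ZMod p)) lam b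
      (UrSet p S) (DSet P0),
      ∀ l ∈ S, p ∣ l - 1 → ∃ P : Ideal (OO ℚ), P.IsMaximal ∧ (l : OO ℚ) ∈ P ∧
        InInertia P (A.τ l) ∧ FrobAt l P (A.σ l) := by
  classical
  have hGEN : S_GEN := Pool.Agent.W215.FM.main
  have hTAME : S_TAME := Pool.Agent.W327.FM.main Pool.Agent.W258.FM.main
  have hFROB : S_FROB := Pool.Agent.W571.FM.main
  have hCYC := Pool.Agent.W64.TG.main
  have hFP := Pool.Agent.W924.UF.frobp
  have : NeZero p := ⟨hp.out.ne_zero⟩
  -- primes and Frobenius elements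
  have e1 : ∀ l : ℕ, ∃ P : Ideal (OO ℚ), (l.Prime → P.IsMaximal ∧ (l : OO ℚ) ∈ P) ∧
      (l = p → P = P0) := by
    intro l
    by_cases hlp : l = p
    · exact ⟨P0, fun _ => ⟨hP0, by rw [hlp]; exact hpP0⟩, fun _ => rfl⟩
    · by_cases hl : l.Prime
      · obtain ⟨P, hP, hlP, -⟩ := (hFROB l hl).1
        exact ⟨P, fun _ => ⟨hP, hlP⟩, fun h => absurd h hlp⟩
      · exact ⟨⊥, fun h => absurd h hl, fun h => absurd h hlp⟩
  choose P hP hPp using e1
  have hPp' : P p = P0 := hPp p rfl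
  have e2 : ∀ l : ℕ, ∃ σ : GF ℚ, l.Prime → FrobAt l (P l) σ := by
    intro l
    by_cases hl : l.Prime
    · obtain ⟨σ, hσ⟩ := hFP l hl (P l) (hP l hl).1 (hP l hl).2
      exact ⟨σ, fun _ => hσ⟩
    · exact ⟨1, fun h => absurd h hl⟩
  choose σ hσ using e2
  have hnotmem : ∀ l q : ℕ, l.Prime → q.Prime → q ≠ l → (l : OO ℚ) ∉ P q := fun l q hl hq hne h =>
    hne (char_unique (hP q hq).1 hq hl (hP q hq).2 h)
  -- the character of conductor `p ^ 2`
  obtain ⟨ψp, w, hw, hψo, hψur, hψne, hψfr, hψker⟩ := exists_psi p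
  obtain ⟨γ, hγ, hγ1⟩ : ∃ γ : GF ℚ, InInertia P0 γ ∧ ψp γ = Multiplicative.ofAdd 1 := by
    have h1 : ∃ γ : GF ℚ, InInertia P0 γ ∧ ψp γ ≠ 1 := by
      by_contra hcon
      push Not at hcon
      obtain ⟨g, hg⟩ := hψne
      apply hg
      refine trivial_of_trivial hGEN hFROB ψp hψo P hP (fun l hl τ hτ => ?_) g
      by_cases hlp : l = p
      · rw [hlp, hPp'] at hτ
        exact hcon τ hτ
      · exact hψur (P l) (hP l hl).1 (hnotmem p l hp.out hl hlp) τ hτ
    obtain ⟨γ, h1, h2⟩ := h1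
    exact exists_scale h1 h2
  -- the characters at the primes `l`
  have e3 : ∀ l : ℕ, ∃ ψ : GF ℚ →* Multiplicative (ZMod p), l ∈ S → p ∣ l - 1 →
      IsOpen (ψ.ker : Set (GF ℚ)) ∧
      (∀ P : Ideal (OO ℚ), P.IsMaximal → (l : OO ℚ) ∉ P → ∀ τ : GF ℚ, InInertia P τ → ψ τ = 1) ∧
      (∃ g, ψ g ≠ 1) ∧
      ∀ q : ℕ, q.Prime → q ≠ l → ∀ P : Ideal (OO ℚ), P.IsMaximal → (q : OO ℚ) ∈ P →
        ∀ σ : GF ℚ, FrobAt q P σ → ∀ x : (ZMod l)ˣ, (x : ZMod l) = (q : ZMod l) → ψ σ = χ l x := by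
    intro l
    by_cases hl : l ∈ S ∧ p ∣ l - 1
    · obtain ⟨ψ, hψ⟩ := hCYC p l hp.out (hS l hl.1).1 (χ l) (hχ l hl.1 hl.2)
      exact ⟨ψ, fun _ _ => hψ⟩
    · exact ⟨1, fun h1 h2 => absurd ⟨h1, h2⟩ hl⟩
  choose ψ hψ using e3
  have e4 : ∀ l : ℕ, ∃ τ : GF ℚ, l ∈ S → p ∣ l - 1 → InInertia (P l) τ ∧
      ψ l τ = Multiplicative.ofAdd 1 := by
    intro l
    by_cases hl : l ∈ S ∧ p ∣ l - 1
    · have hlp := (hS l hl.1).1
      obtain ⟨h1, h2, ⟨g, hg⟩, -⟩ := hψ l hl.1 hl.2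
      have h3 : ∃ τ : GF ℚ, InInertia (P l) τ ∧ ψ l τ ≠ 1 := by
        by_contra hcon
        push Not at hcon
        apply hg
        refine trivial_of_trivial hGEN hFROB (ψ l) h1 P hP (fun q hq τ hτ => ?_) g
        by_cases hql : q = l
        · rw [hql] at hτ
          exact hcon τ hτ
        · exact h2 (P q) (hP q hq).1 (hnotmem l q hlp hq hql) τ hτ
      obtain ⟨τ, h4, h5⟩ := h3
      obtain ⟨τ', h6, h7⟩ := exists_scale h4 h5
      exact ⟨τ', fun _ _ => ⟨h6, h7⟩⟩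
    · exact ⟨1, fun h1 h2 => absurd ⟨h1, h2⟩ hl⟩
  choose τ hτ using e4
  have hne1 : (Multiplicative.ofAdd (1 : ZMod p)) ≠ 1 := by
    intro h
    have h1 := congrArg Multiplicative.toAdd h
    rw [toAdd_ofAdd, toAdd_one] at h1
    exact one_ne_zero h1
  have hmem : ∀ l ∈ S.filter (fun l => p ∣ l - 1), l ∈ S ∧ p ∣ l - 1 := fun l hl =>
    Finset.mem_filter.1 hl
  have hstep : ∀ l ∈ S, p ∣ l - 1 → l = 1 + p * ((l - 1) / p) := by
    intro l hl hpl
    rw [Nat.mul_div_cancel' hpl]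
    have := (hS l hl).1.one_le
    omega
  have hspan : ∀ F : GF ℚ →* Multiplicative (ZMod p), IsOpen (F.ker : Set (GF ℚ)) →
      (∀ g ∈ UrSet p S, F g = 1) → ∀ g, Multiplicative.toAdd (F g) =
        Multiplicative.toAdd (ψp g) * Multiplicative.toAdd (F γ) +
        ∑ l ∈ S.filter (fun l => p ∣ l - 1), Multiplicative.toAdd (ψ l g) *
          Multiplicative.toAdd (F (τ l)) := by
    intro F hF hFur g
    set c := Multiplicative.toAdd (F γ) with hc
    let F' : GF ℚ →* Multiplicative (ZMod p) :=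
      { toFun := fun g => Multiplicative.ofAdd (Multiplicative.toAdd (F g) -
          Multiplicative.toAdd (ψp g) * c)
        map_one' := by simp
        map_mul' := fun a b => by
          rw [← ofAdd_add]
          congr 1
          rw [map_mul F, map_mul ψp, toAdd_mul, toAdd_mul]
          ring }
    have hF' : ∀ g, F' g = Multiplicative.ofAdd (Multiplicative.toAdd (F g) -
          Multiplicative.toAdd (ψp g) * c) := fun g => rfl
    have hF'1 : ∀ g, F g = 1 → ψp g = 1 → F' g = 1 := by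
      intro g h1 h2
      rw [hF', h1, h2, toAdd_one, zero_mul, sub_zero, ofAdd_zero]
    have hF'o : IsOpen (F'.ker : Set (GF ℚ)) := by
      have h1 : IsOpen ((F.ker ⊓ ψp.ker : Subgroup (GF ℚ)) : Set (GF ℚ)) := by
        rw [Subgroup.coe_inf]
        exact hF.inter hψo
      refine Subgroup.isOpen_mono ?_ h1
      rintro g ⟨h2, h3⟩
      exact hF'1 g h2 h3
    have hur : ∀ l : ℕ, l.Prime → l ∉ S → ∀ t : GF ℚ, InInertia (P l) t → F' t = 1 := by
      intro l hl hlS t ht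
      by_cases hlp : l = p
      · rw [hlp, hPp'] at ht
        set n := (-Multiplicative.toAdd (ψp t)).val with hn
        have h1 : InInertia P0 (γ ^ n * t) := inertia_mul (inertia_pow hγ n) ht
        have h2 : ψp (γ ^ n * t) = 1 := by
          apply Multiplicative.toAdd.injective
          rw [map_mul, map_pow, hγ1, toAdd_mul, toAdd_pow, toAdd_ofAdd, toAdd_one, nsmul_eq_mul,
            mul_one, hn, ZMod.natCast_zmod_val]
          ring
        have h3 := hψker _ h2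
        have h4 := kw hP0 hpP0 hp2 hw F hF (inertia_pow h1 (p - 1)) h3
        have h5 := congrArg Multiplicative.toAdd h4
        rw [map_pow, toAdd_pow, toAdd_one, nsmul_eq_mul, map_mul, map_pow, toAdd_mul, toAdd_pow,
          nsmul_eq_mul, hn, ZMod.natCast_zmod_val, ← hc] at h5
        have h6 : ((p - 1 : ℕ) : ZMod p) ≠ 0 := by
          rw [Ne, ZMod.natCast_eq_zero_iff]
          intro h
          have := hp.out.two_le
          have := Nat.le_of_dvd (by omega) h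
          omega
        have h7 := (mul_eq_zero.1 h5).resolve_left h6
        rw [hF']
        have h8 : Multiplicative.toAdd (F t) - Multiplicative.toAdd (ψp t) * c = 0 := by
          linear_combination h7
        rw [h8, ofAdd_zero]
      · have h1 : (p : OO ℚ) ∉ P l := hnotmem p l hp.out hl hlp
        refine hF'1 t (hFur t ⟨P l, (hP l hl).1, fun l' hl' => ?_, h1, ht⟩)
          (hψur (P l) (hP l hl).1 h1 t ht)
        exact hnotmem l' l (hS l' hl').1 hl fun h => hlS (h ▸ hl')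
    have h1 := span_hom hGEN hTAME hFROB F' hF'o S (fun l hl => ⟨(hS l hl).1, (hS l hl).2.1⟩) P hP
      σ hσ hur ψ (fun l hl hpl => (hψ l hl hpl).1)
      (fun l hl hpl q hq hql t ht => (hψ l hl hpl).2.1 (P q) (hP q hq).1
        (hnotmem l q (hS l hl).1 hq hql) t ht) τ
      (fun l hl hpl => ⟨(hτ l hl hpl).1, by rw [(hτ l hl hpl).2]; exact hne1⟩) g
    rw [hF', toAdd_ofAdd] at h1
    have h2 : ∑ l ∈ S.filter (fun l => p ∣ l - 1),
        (Multiplicative.toAdd (ψ l g) / Multiplicative.toAdd (ψ l (τ l))) •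
        Multiplicative.toAdd (F' (τ l)) = ∑ l ∈ S.filter (fun l => p ∣ l - 1),
          Multiplicative.toAdd (ψ l g) * Multiplicative.toAdd (F (τ l)) := by
      refine Finset.sum_congr rfl fun l hl => ?_
      obtain ⟨hl1, hl2⟩ := hmem l hl
      have hlp := (hS l hl1).1
      rw [(hτ l hl1 hl2).2, toAdd_ofAdd, div_one, smul_eq_mul, hF', toAdd_ofAdd,
        hψur (P l) (hP l hlp).1 (hnotmem p l hp.out hlp (hS l hl1).2.1) _ (hτ l hl1 hl2).1,
        toAdd_one, zero_mul, sub_zero]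
    rw [h2] at h1
    rw [← h1]
    ring
  let A : Ar p (GF ℚ) (S.filter fun l => p ∣ l - 1) (fun l => (((l - 1) / p : ℕ) : ZMod p)) lam b
      (UrSet p S) (DSet P0) :=
    { psi := fun g => Multiplicative.toAdd (ψp g)
      chi := fun l g => Multiplicative.toAdd (ψ l g)
      γ := γ
      φ := σ p
      τ := τ
      σ := σ
      hγ := fun x => inertia_iff hγ x
      hφ := fun x => by
        rw [← hPp']
        exact frob_iff (hP p hp.out).1 hp.out.ne_zero (hσ p hp.out) x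
      hu := fun l hl => by
        obtain ⟨hl1, hl2⟩ := hmem l hl
        have hlp := (hS l hl1).1
        rw [hψfr l hlp (hS l hl1).2.1 _ (hstep l hl1 hl2) (P l) (hP l hlp).1 (hP l hlp).2 (σ l)
          (hσ l hlp), toAdd_ofAdd]
      hlam := fun l hl j hj hjl => by
        obtain ⟨hl1, hl2⟩ := hmem l hl
        obtain ⟨hj1, hj2⟩ := hmem j hj
        have hlp := (hS l hl1).1
        have hjp := (hS j hj1).1
        have hcop : Nat.Coprime l j := (Nat.coprime_primes hlp hjp).2 (Ne.symm hjl)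
        rw [(hψ j hj1 hj2).2.2.2 l hlp (Ne.symm hjl) (P l) (hP l hlp).1 (hP l hlp).2 (σ l)
          (hσ l hlp) (ZMod.unitOfCoprime l hcop) (ZMod.coe_unitOfCoprime l hcop)]
        exact (hlam l hl1 hl2 j hj1 hj2 hjl _ (ZMod.coe_unitOfCoprime l hcop)).symm
      hb := fun j hj => by
        obtain ⟨hj1, hj2⟩ := hmem j hj
        have hjp := (hS j hj1).1
        have hcop : Nat.Coprime p j := (Nat.coprime_primes hp.out hjp).2 (Ne.symm (hS j hj1).2.1)
        rw [(hψ j hj1 hj2).2.2.2 p hp.out (Ne.symm (hS j hj1).2.1) (P p) (hP p hp.out).1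
          (hP p hp.out).2 (σ p) (hσ p hp.out) (ZMod.unitOfCoprime p hcop)
          (ZMod.coe_unitOfCoprime p hcop)]
        exact (hb j hj1 hj2 _ (ZMod.coe_unitOfCoprime p hcop)).symm
      span := hspan
      hl := fun l hl => by
        obtain ⟨hl1, hl2⟩ := hmem l hl
        refine ⟨(l - 1) / p, hstep l hl1 hl2, rfl, ?_⟩
        rw [Ne, ZMod.natCast_eq_zero_iff]
        intro h
        apply (hS l hl1).2.2
        rw [pow_two, ← Nat.mul_div_cancel' hl2]
        exact Nat.mul_dvd_mul_left p h }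
  exact ⟨A, fun l hl hpl => ⟨P l, (hP l (hS l hl).1).1, (hP l (hS l hl).1).2, (hτ l hl hpl).1,
    hσ l (hS l hl).1⟩⟩

/-- nilpotent two by two matrices -/
theorem sq_zero_of_nil {R : Type} [CommRing R] [IsDomain R] {N : Matrix (Fin 2) (Fin 2) R}
    (h : IsNilpotent N) : N * N = 0 := by
  have h1 : N.trace = 0 := (Matrix.isNilpotent_trace_of_isNilpotent h).eq_zero
  have h2 : N.det = 0 := by
    obtain ⟨k, hk⟩ := h
    have h3 := congrArg Matrix.det hk
    rw [Matrix.det_pow] at h3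
    rw [Matrix.det_zero] at h3
    have hk0 : k ≠ 0 := by
      rintro rfl
      rw [pow_zero] at h3
      exact one_ne_zero h3
    exact (pow_eq_zero_iff hk0).1 h3
  rw [Matrix.trace_fin_two] at h1
  rw [Matrix.det_fin_two] at h2
  ext i j
  rw [Matrix.mul_apply, Fin.sum_univ_two]
  fin_cases i <;> fin_cases j
  · show N 0 0 * N 0 0 + N 0 1 * N 1 0 = 0
    linear_combination N 0 0 * h1 - h2
  · show N 0 0 * N 0 1 + N 0 1 * N 1 1 = 0
    linear_combination N 0 1 * h1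
  · show N 1 0 * N 0 0 + N 1 1 * N 1 0 = 0
    linear_combination N 1 0 * h1
  · show N 1 0 * N 0 1 + N 1 1 * N 1 1 = 0
    linear_combination N 1 1 * h1 - h2

theorem one_add_pow {R : Type} [CommRing R] {N : Matrix (Fin 2) (Fin 2) R} (h : N * N = 0)
    (l : ℕ) : (1 + N) ^ l = 1 + (l : R) • N := by
  induction l with
  | zero => simp
  | succ l ih =>
    rw [pow_succ, ih]
    simp only [mul_add, add_mul, mul_one, one_mul, Matrix.smul_mul, h, smul_zero, add_zero]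
    rw [Nat.cast_succ, add_smul, one_smul]
    abel

/-- the tame relation -/
theorem tame_rel (hp5 : 5 ≤ p) (ρ : GF ℚ →* GL (Fin 2) ℤ_[p]) (hρ : Continuous ρ)
    (hres : ResUnip ρ) {l : ℕ} (hl : l.Prime) (hlp : p ≠ l) {P : Ideal (OO ℚ)} (hP : P.IsMaximal)
    (hlP : (l : OO ℚ) ∈ P) {τ σ : GF ℚ} (hτ : InInertia P τ) (hσ : FrobAt l P σ) :
    (mt (ρ τ) - 1) * (mt (ρ τ) - 1) = 0 ∧
      mt (ρ σ) * (mt (ρ τ) - 1) = (l : ℤ_[p]) • ((mt (ρ τ) - 1) * mt (ρ σ)) := by
  have h1 := Pool.Agent.W22.FM.Exact.main' p 2 ρ hρ hres l hl hlp P hP hlP τ σ hτ hσ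
  have h2 : mt (ρ σ) * mt (ρ τ) = mt (ρ τ) ^ l * mt (ρ σ) := by
    have := congrArg (fun M : GL (Fin 2) ℤ_[p] => mt M) h1
    simpa using this
  have h3 : IsNilpotent (mt (ρ τ) - 1) := by
    refine Pool.Agent.W376.TG.Uni.main p 2 l (by omega) hl.two_le (mt (ρ τ)) (mt (ρ σ))
      ((ρ σ)⁻¹ : GL (Fin 2) ℤ_[p]) ?_ ?_ (hres τ) h2
    · rw [← Units.val_mul, mul_inv_cancel, Units.val_one]
    · rw [← Units.val_mul, inv_mul_cancel, Units.val_one]
  have h4 := sq_zero_of_nil h3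
  refine ⟨h4, ?_⟩
  set N := mt (ρ τ) - 1 with hN
  have h5 : mt (ρ τ) = 1 + N := by rw [hN]; abel
  rw [h5, one_add_pow h4, mul_add, add_mul, mul_one, one_mul, add_right_inj, Matrix.smul_mul] at h2
  exact h2

end

end Pool.Agent.TH831.OT
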