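import Pool.Agent.W569.FM.Span
import Pool.Agent.W134.FM.Cyclo

/-!
# Integers of the `p`-th cyclotomic field inside the ring of all algebraic integers
-/

set_option autoImplicit false

namespace Pool.Agent.TH831.OT

open NumberField Pool.Agent.W569.FM Pool.Agent.W134.FM

/-- `x` is fixed by all automorphisms fixing `z` -/
def Fix (z x : OO ℚ) : Prop := ∀ h : GF ℚ, h • z = z → h • x = x

theorem Fix.mul {z x y : OO ℚ} (hx : Fix z x) (hy : Fix z y) : Fix z (x * y) := fun h hh => by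
  rw [smul_mul', hx h hh, hy h hh]

theorem Fix.add {z x y : OO ℚ} (hx : Fix z x) (hy : Fix z y) : Fix z (x + y) := fun h hh => by
  rw [smul_add, hx h hh, hy h hh]

theorem Fix.sub {z x y : OO ℚ} (hx : Fix z x) (hy : Fix z y) : Fix z (x - y) := fun h hh => by
  rw [smul_sub, hx h hh, hy h hh]

theorem Fix.pow {z x : OO ℚ} (hx : Fix z x) (n : ℕ) : Fix z (x ^ n) := fun h hh => by
  rw [smul_pow', hx h hh]

theorem smul_intCast (h : GF ℚ) (a : ℤ) : h • (a : OO ℚ) = a :=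
  map_intCast (MulSemiringAction.toRingEquiv (GF ℚ) (OO ℚ) h) a

theorem smul_natCast' (h : GF ℚ) (a : ℕ) : h • (a : OO ℚ) = a :=
  map_natCast (MulSemiringAction.toRingEquiv (GF ℚ) (OO ℚ) h) a

theorem fix_int (z : OO ℚ) (a : ℤ) : Fix z (a : OO ℚ) := fun h _ => smul_intCast h a

theorem fix_nat (z : OO ℚ) (a : ℕ) : Fix z (a : OO ℚ) := fun h _ => smul_natCast' h a

theorem fix_one (z : OO ℚ) : Fix z 1 := fun h _ => smul_one h

theorem fix_zero (z : OO ℚ) : Fix z 0 := fun h _ => smul_zero h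

theorem fix_self (z : OO ℚ) : Fix z z := fun _ hh => hh

theorem Fix.cancel {z x y : OO ℚ} (hx0 : x ≠ 0) (hx : Fix z x) (hxy : Fix z (x * y)) :
    Fix z y := fun h hh => by
  have h1 := hxy h hh
  rw [smul_mul', hx h hh] at h1
  exact mul_left_cancel₀ hx0 h1

/-- the coercion to the field is injective and multiplicative -/
theorem coe_mul' (x y : OO ℚ) : ((x * y : OO ℚ) : AlgebraicClosure ℚ) = x * y :=
  map_mul (algebraMap (OO ℚ) (AlgebraicClosure ℚ)) x y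

theorem coe_inj {x y : OO ℚ} (h : (x : AlgebraicClosure ℚ) = y) : x = y :=
  RingOfIntegers.ext h

theorem mem_adjoin_gen {F : Type} [Field F] [CharZero F] (z x : AlgebraicClosure F)
    (h : ∀ g : GF F, g z = z → g x = x) : x ∈ IntermediateField.adjoin F {z} := by
  rw [← InfiniteGalois.fixedField_fixingSubgroup (IntermediateField.adjoin F {z}),
    IntermediateField.mem_fixedField_iff]
  intro g hg
  rw [IntermediateField.mem_fixingSubgroup_iff] at hg
  exact h g (hg z (IntermediateField.mem_adjoin_simple_self F _))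

theorem fix_expand {p : ℕ} [hp : Fact p.Prime] {z : OO ℚ} (hz : IsPrimitiveRoot z p) {x : OO ℚ}
    (hx : Fix z x) : ∃ (a : ℤ) (y : OO ℚ), Fix z y ∧ x = a + (z - 1) * y := by
  have : NeZero p := ⟨hp.out.ne_zero⟩
  set ζ : AlgebraicClosure ℚ := (z : AlgebraicClosure ℚ) with hζdef
  have hζ : IsPrimitiveRoot ζ p :=
    hz.map_of_injective (f := algebraMap (OO ℚ) (AlgebraicClosure ℚ)) RingOfIntegers.coe_injective
  have hxK := mem_adjoin_gen ζ (x : AlgebraicClosure ℚ) fun g hg => by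
    have h1 : g • z = z := coe_inj hg
    exact congrArg (fun y : OO ℚ => (y : AlgebraicClosure ℚ)) (hx g h1)
  let K := @IntermediateField.adjoin ℚ _ (AlgebraicClosure ℚ) _ (AlgebraicClosure.instAlgebra ℚ) {ζ}
  have hxK' : (x : AlgebraicClosure ℚ) ∈ K := hxK
  let ζ' : K := ⟨ζ, IntermediateField.mem_adjoin_simple_self ℚ _⟩
  have hζ' : IsPrimitiveRoot ζ' p := hζ.of_map_of_injective (f := algebraMap K _)
    (algebraMap K (AlgebraicClosure ℚ)).injective
  have hcyc : @IsCyclotomicExtension {p} ℚ K _ _ (IntermediateField.algebra' K) :=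
    IsPrimitiveRoot.intermediateField_adjoin_isCyclotomicExtension ℚ hζ
  have hcyc' : @IsCyclotomicExtension {p} ℚ K _ _ DivisionRing.toRatAlgebra := by
    convert hcyc
    exact Subsingleton.elim _ _
  have hic := @IsCyclotomicExtension.Rat.isIntegralClosure_adjoin_singleton_of_prime p K _ ζ' _ _
    hcyc' hζ'
  have hint : IsIntegral ℤ (⟨x, hxK'⟩ : K) := by
    have h1 : IsIntegral ℤ (algebraMap K (AlgebraicClosure ℚ) ⟨x, hxK'⟩) := x.2
    exact (isIntegral_algebraMap_iff (algebraMap K (AlgebraicClosure ℚ)).injective).1 h1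
  obtain ⟨y, hy⟩ := hic.isIntegral_iff.1 hint
  have key : ∀ y : K, y ∈ Algebra.adjoin ℤ ({ζ'} : Set K) → ∃ (a : ℤ) (w : OO ℚ), Fix z w ∧
      (y : AlgebraicClosure ℚ) = algebraMap (OO ℚ) (AlgebraicClosure ℚ) (a + (z - 1) * w) := by
    intro y hy
    induction hy using Algebra.adjoin_induction with
    | mem y hy =>
      refine ⟨1, 1, fix_one z, ?_⟩
      rw [Set.mem_singleton_iff.1 hy]
      have : ((1 : ℤ) + (z - 1) * 1 : OO ℚ) = z := by push_cast; ring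
      rw [this]
    | algebraMap r =>
      refine ⟨r, 0, fix_zero z, ?_⟩
      rw [mul_zero, add_zero]
      simp
    | add y y' _ _ h1 h2 =>
      obtain ⟨a, w, hw, e⟩ := h1
      obtain ⟨a', w', hw', e'⟩ := h2
      refine ⟨a + a', w + w', hw.add hw', ?_⟩
      have : ((a + a' : ℤ) + (z - 1) * (w + w') : OO ℚ) =
        (a + (z - 1) * w) + (a' + (z - 1) * w') := by push_cast; ring
      rw [this, map_add, ← e, ← e']
      rfl
    | mul y y' _ _ h1 h2 =>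
      obtain ⟨a, w, hw, e⟩ := h1
      obtain ⟨a', w', hw', e'⟩ := h2
      refine ⟨a * a', a * w' + w * a' + (z - 1) * (w * w'),
        (((fix_int z a).mul hw').add (hw.mul (fix_int z a'))).add
          (((fix_self z).sub (fix_one z)).mul (hw.mul hw')), ?_⟩
      have : ((a * a' : ℤ) + (z - 1) * (a * w' + w * a' + (z - 1) * (w * w')) : OO ℚ) =
        (a + (z - 1) * w) * (a' + (z - 1) * w') := by push_cast; ring
      rw [this, map_mul, ← e, ← e']
      rfl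
  obtain ⟨a, w, hw, e⟩ := key y y.2
  refine ⟨a, w, hw, coe_inj ?_⟩
  refine Eq.trans ?_ e
  exact (congrArg (fun y : K => (y : AlgebraicClosure ℚ)) hy).symm

/-! ### the prime above `p` -/

theorem pi_pow_dvd {p : ℕ} [hp : Fact p.Prime] {z : OO ℚ} (hz : IsPrimitiveRoot z p) :
    (z - 1) ^ (p - 1) ∣ (p : OO ℚ) := by
  have h1 : p - 1 + 1 = p := Nat.sub_add_cancel hp.out.one_le
  have h2 : IsPrimitiveRoot z (p - 1 + 1) := by rw [h1]; exact hz
  have h3 := h2.prod_one_sub_pow_eq_order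
  have h4 : ((p - 1 : ℕ) : OO ℚ) + 1 = p := by exact_mod_cast congrArg (fun n : ℕ => (n : OO ℚ)) h1
  rw [← h4, ← h3]
  have h5 : (z - 1) ^ (p - 1) = ∏ _k ∈ Finset.range (p - 1), (z - 1) := by
    rw [Finset.prod_const, Finset.card_range]
  rw [h5]
  refine Finset.prod_dvd_prod_of_dvd _ _ fun k _ => ?_
  have h6 : z - 1 ∣ z ^ (k + 1) - 1 := by simpa using sub_dvd_pow_sub_pow z 1 (k + 1)
  have h7 : (1 : OO ℚ) - z ^ (k + 1) = -(z ^ (k + 1) - 1) := by ring
  rw [h7]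
  exact h6.neg_right

theorem pi_dvd {p : ℕ} [hp : Fact p.Prime] {z : OO ℚ} (hz : IsPrimitiveRoot z p) :
    (z - 1) ∣ (p : OO ℚ) := by
  have := hp.out.two_le
  exact (dvd_pow_self _ (by omega)).trans (pi_pow_dvd hz)

theorem p_dvd_pi_pow {p : ℕ} [hp : Fact p.Prime] (hp2 : p ≠ 2) {z : OO ℚ}
    (hz : IsPrimitiveRoot z p) : (p : OO ℚ) ∣ (z - 1) ^ p := by
  obtain ⟨r, hr⟩ := exists_add_pow_prime_eq hp.out z (-1)
  rw [← sub_eq_add_neg, hz.pow_eq_one, (hp.out.odd_of_ne_two hp2).neg_one_pow] at hr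
  exact ⟨z * -1 * r, by rw [hr]; ring⟩

theorem pi_ne_zero {p : ℕ} [hp : Fact p.Prime] {z : OO ℚ} (hz : IsPrimitiveRoot z p) :
    z - 1 ≠ 0 := sub_ne_zero.2 (hz.ne_one hp.out.one_lt)

section
variable {p : ℕ} [hp : Fact p.Prime] {P : Ideal (OO ℚ)} (hP : P.IsMaximal) (hpP : (p : OO ℚ) ∈ P)
include hP hpP

theorem int_mem {a : ℤ} (ha : (a : OO ℚ) ∈ P) : (p : ℤ) ∣ a := by
  by_contra hcon
  have hc : IsCoprime (p : ℤ) a := by
    rw [Prime.coprime_iff_not_dvd (Nat.prime_iff_prime_int.1 hp.out)]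
    exact hcon
  obtain ⟨u, v, huv⟩ := hc
  apply hP.ne_top
  rw [Ideal.eq_top_iff_one]
  have h4 : (u : OO ℚ) * (p : OO ℚ) + (v : OO ℚ) * (a : OO ℚ) = 1 := by
    have := congrArg (fun z : ℤ => (z : OO ℚ)) huv
    push_cast at this
    exact this
  rw [← h4]
  exact P.add_mem (P.mul_mem_left _ hpP) (P.mul_mem_left _ ha)

theorem int_dvd_of_p_dvd {a : ℤ} (ha : (p : OO ℚ) ∣ (a : OO ℚ)) : (p : ℤ) ∣ a :=
  int_mem hP hpP (P.mem_of_dvd ha hpP)

variable (hp2 : p ≠ 2) {z : OO ℚ} (hz : IsPrimitiveRoot z p)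
include hp2 hz

theorem pi_mem : z - 1 ∈ P :=
  hP.isPrime.mem_of_pow_mem p (P.mem_of_dvd (p_dvd_pi_pow hp2 hz) hpP)

theorem int_dvd {a : ℤ} (ha : z - 1 ∣ (a : OO ℚ)) : (p : ℤ) ∣ a :=
  int_mem hP hpP (P.mem_of_dvd ha (pi_mem hP hpP hp2 hz))

theorem exists_exact {x : OO ℚ} (hx0 : x ≠ 0) (hx : Fix z x) :
    ∃ (n : ℕ) (y : OO ℚ), Fix z y ∧ x = (z - 1) ^ n * y ∧ ¬ (z - 1) ∣ y := by
  classical
  have hex : ∃ n, ¬ (z - 1) ^ (n + 1) ∣ x := by
    by_contra hcon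
    push Not at hcon
    have : Algebra.IsAlgebraic ℤ (OO ℚ) := inferInstance
    obtain ⟨c, hc0, hc⟩ := (Algebra.IsAlgebraic.isAlgebraic (R := ℤ) x).exists_nonzero_dvd
      (mem_nonZeroDivisors_of_ne_zero hx0)
    have hfin : FiniteMultiplicity (p : ℤ) c := by
      rw [Int.finiteMultiplicity_iff]
      refine ⟨?_, hc0⟩
      simpa using hp.out.ne_one
    obtain ⟨c', hc', hc''⟩ := hfin.exists_eq_pow_mul_and_not_dvd
    set v := multiplicity (p : ℤ) c with hv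
    have h1 : (p : OO ℚ) ^ (v + 1) ∣ (c : OO ℚ) := by
      refine dvd_trans (pow_dvd_pow_of_dvd (p_dvd_pi_pow hp2 hz) (v + 1)) ?_
      rw [← pow_mul]
      have h2 := hcon (p * (v + 1) - 1)
      rw [Nat.sub_add_cancel (Nat.mul_pos hp.out.pos (Nat.succ_pos v))] at h2
      exact h2.trans (by simpa using hc)
    obtain ⟨w, hw⟩ := h1
    have h3 : (p : OO ℚ) ^ v * (c' : OO ℚ) = (p : OO ℚ) ^ v * ((p : OO ℚ) * w) := by
      rw [← mul_assoc, ← pow_succ, ← hw]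
      conv_rhs => rw [hc']
      push_cast
      rfl
    have hp0 : (p : OO ℚ) ^ v ≠ 0 := pow_ne_zero _ (by exact_mod_cast hp.out.ne_zero)
    exact hc'' (int_dvd_of_p_dvd hP hpP ⟨w, mul_left_cancel₀ hp0 h3⟩)
  set n := Nat.find hex with hn
  have h1 : ¬ (z - 1) ^ (n + 1) ∣ x := Nat.find_spec hex
  have h2 : (z - 1) ^ n ∣ x := by
    rcases Nat.eq_zero_or_pos n with h0 | h0
    · rw [h0, pow_zero]
      exact one_dvd x
    · have := Nat.find_min hex (m := n - 1) (by omega)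
      rw [not_not, Nat.sub_add_cancel h0] at this
      exact this
  obtain ⟨y, hy⟩ := h2
  refine ⟨n, y, ?_, hy, ?_⟩
  · exact Fix.cancel (pow_ne_zero n (pi_ne_zero hz)) (((fix_self z).sub (fix_one z)).pow n)
      (hy ▸ hx)
  · rintro ⟨w, hw⟩
    exact h1 ⟨w, by rw [hy, hw]; ring⟩

omit hP hpP hp2 in
/-- congruent modulo `π` to an integer prime to `p` -/
theorem pr_of_not_dvd {x : OO ℚ} (hx : Fix z x) (h : ¬ (z - 1) ∣ x) :
    ∃ a : ℤ, ¬ (p : ℤ) ∣ a ∧ (z - 1) ∣ x - a := by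
  obtain ⟨a, y, -, e⟩ := fix_expand hz hx
  refine ⟨a, fun ⟨b, hb⟩ => h ?_, ⟨y, by rw [e]; ring⟩⟩
  rw [e, hb]
  push_cast
  exact dvd_add (Dvd.dvd.mul_right (pi_dvd hz) _) (dvd_mul_right _ _)

end

/-- `x` is congruent modulo `π = z - 1` to an integer prime to `p` -/
def Pr (p : ℕ) (z x : OO ℚ) : Prop := ∃ a : ℤ, ¬ (p : ℤ) ∣ a ∧ (z - 1) ∣ x - a

theorem Pr.mul {p : ℕ} [hp : Fact p.Prime] {z x y : OO ℚ} (hx : Pr p z x) (hy : Pr p z y) :
    Pr p z (x * y) := by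
  obtain ⟨a, ha, u, hu⟩ := hx
  obtain ⟨b, hb, v, hv⟩ := hy
  refine ⟨a * b, fun h => ?_, ⟨u * y + a * v, ?_⟩⟩
  · rcases (Nat.prime_iff_prime_int.1 hp.out).dvd_or_dvd h with h | h
    · exact ha h
    · exact hb h
  · push_cast
    linear_combination y * hu + a * hv

theorem pr_one {p : ℕ} [hp : Fact p.Prime] (z : OO ℚ) : Pr p z 1 :=
  ⟨1, fun h => hp.out.ne_one (by exact_mod_cast Int.natAbs_dvd_natAbs.2 h |> Nat.dvd_one.1), by simp⟩

theorem Pr.pow {p : ℕ} [hp : Fact p.Prime] {z x : OO ℚ} (hx : Pr p z x) (n : ℕ) :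
    Pr p z (x ^ n) := by
  induction n with
  | zero => rw [pow_zero]; exact pr_one z
  | succ n ih => rw [pow_succ]; exact ih.mul hx

theorem not_dvd_of_pr {p : ℕ} [hp : Fact p.Prime] {P : Ideal (OO ℚ)} (hP : P.IsMaximal)
    (hpP : (p : OO ℚ) ∈ P) (hp2 : p ≠ 2) {z : OO ℚ} (hz : IsPrimitiveRoot z p) {x : OO ℚ}
    (hx : Pr p z x) : ¬ (z - 1) ∣ x := by
  obtain ⟨a, ha, h⟩ := hx
  intro h1
  apply ha
  apply int_dvd hP hpP hp2 hz
  have := dvd_sub h1 h
  rwa [sub_sub_cancel] at this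

/-- uniqueness of the exact power of `π` -/
theorem exact_unique {p : ℕ} [hp : Fact p.Prime] {P : Ideal (OO ℚ)} (hP : P.IsMaximal)
    (hpP : (p : OO ℚ) ∈ P) (hp2 : p ≠ 2) {z : OO ℚ} (hz : IsPrimitiveRoot z p) {x y : OO ℚ}
    (hx : Pr p z x) (hy : Pr p z y) {m n : ℕ} (h : (z - 1) ^ m * x = (z - 1) ^ n * y) :
    m = n := by
  have key : ∀ {x y : OO ℚ}, Pr p z x → ∀ {m n : ℕ},
      (z - 1) ^ m * x = (z - 1) ^ n * y → ¬ m < n := by
    intro x y hx m n h hmn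
    obtain ⟨d, rfl⟩ := Nat.exists_eq_add_of_lt hmn
    apply not_dvd_of_pr hP hpP hp2 hz hx
    refine ⟨(z - 1) ^ d * y, mul_left_cancel₀ (pow_ne_zero m (pi_ne_zero hz)) ?_⟩
    rw [h]
    ring
  have h1 := key hx h
  have h2 := key hy h.symm
  omega

end Pool.Agent.TH831.OT
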