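import Pool.Agent.TH831.OT.KW0

/-!
# The exponent `p` part of the inertia group at `p` is cyclic: the Kummer argument
-/

set_option autoImplicit false

namespace Pool.Agent.TH831.OT

open NumberField Pool.Agent.W569.FM Pool.Agent.W134.FM

section
variable {p : ℕ} [hp : Fact p.Prime] {z : OO ℚ} (hz : IsPrimitiveRoot z p)
include hz

theorem exists_exp (g : GF ℚ) : ∃ c : ℕ, c < p ∧ g • z = z ^ c := by
  have : NeZero p := ⟨hp.out.ne_zero⟩
  have h1 : (g • z) ^ p = 1 := by rw [← smul_pow', hz.pow_eq_one, smul_one]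
  obtain ⟨c, hc, h⟩ := hz.eq_pow_of_pow_eq_one h1
  exact ⟨c, hc, h.symm⟩

theorem conj_fix {h s : GF ℚ} (hh : h • z = z) : (s⁻¹ * h * s) • z = z := by
  obtain ⟨c, -, hc⟩ := exists_exp hz s
  rw [mul_smul, mul_smul, hc, smul_pow', hh, ← hc, inv_smul_smul]

end

/-- `h β = z ^ k β` for all `h` fixing `z`, and `k` depends only on the conjugacy class of `h` -/
def Eig (z β : OO ℚ) : Prop := ∀ h : GF ℚ, h • z = z →
  ∃ k : ℕ, h • β = z ^ k * β ∧ ∀ s : GF ℚ, (s⁻¹ * h * s) • β = z ^ k * β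

theorem Eig.mul {z β γ : OO ℚ} (hβ : Eig z β) (hγ : Eig z γ) : Eig z (β * γ) := fun h hh => by
  obtain ⟨k, h1, h2⟩ := hβ h hh
  obtain ⟨k', h1', h2'⟩ := hγ h hh
  refine ⟨k + k', ?_, fun s => ?_⟩
  · rw [smul_mul', h1, h1']; ring
  · rw [smul_mul', h2, h2']; ring

theorem eig_one (z : OO ℚ) : Eig z 1 := fun h _ => ⟨0, by simp, by simp⟩

theorem Eig.pow {z β : OO ℚ} (hβ : Eig z β) (n : ℕ) : Eig z (β ^ n) := by
  induction n with
  | zero => rw [pow_zero]; exact eig_one z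
  | succ n ih => rw [pow_succ]; exact ih.mul hβ

theorem Eig.cancel {p : ℕ} [hp : Fact p.Prime] {z : OO ℚ} (hz : IsPrimitiveRoot z p) {x β : OO ℚ}
    (hx0 : x ≠ 0) (hx : Fix z x) (h : Eig z (x * β)) : Eig z β := fun g hg => by
  obtain ⟨k, h1, h2⟩ := h g hg
  refine ⟨k, ?_, fun s => ?_⟩
  · rw [smul_mul', hx g hg, mul_left_comm] at h1
    exact mul_left_cancel₀ hx0 h1
  · have h3 := h2 s
    rw [smul_mul', hx _ (conj_fix hz hg), mul_left_comm] at h3
    exact mul_left_cancel₀ hx0 h3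

theorem eig_root {p : ℕ} [hp : Fact p.Prime] {z w : OO ℚ} (hw : IsPrimitiveRoot w (p ^ 2))
    (hwz : w ^ p = z) : Eig z w := fun h hh => by
  have hp0 : 0 < p ^ 2 := pow_pos hp.out.pos 2
  have : NeZero (p ^ 2) := ⟨hp0.ne'⟩
  have hz : IsPrimitiveRoot z p := by
    rw [← hwz]
    exact hw.pow hp0 (by ring)
  have h1 : (h • w) ^ (p ^ 2) = 1 := by rw [← smul_pow', hw.pow_eq_one, smul_one]
  obtain ⟨i, hi, h2⟩ := hw.eq_pow_of_pow_eq_one h1
  have h3 : z ^ i = z := by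
    rw [← hwz, ← pow_mul, mul_comm, pow_mul, h2, ← smul_pow', hwz, hh]
  have hi1 : 1 ≤ i := by
    rcases Nat.eq_zero_or_pos i with h0 | h0
    · exfalso
      rw [h0, pow_zero] at h3
      exact hz.ne_one hp.out.one_lt h3.symm
    · exact h0
  have hz0 : z ≠ 0 := hz.ne_zero hp.out.ne_zero
  obtain ⟨k, hk⟩ : p ∣ i - 1 := by
    apply hz.dvd_of_pow_eq_one
    have h5 : z ^ (i - 1) * z = 1 * z := by rw [← pow_succ, Nat.sub_add_cancel hi1, h3, one_mul]
    exact mul_right_cancel₀ hz0 h5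
  have hik : i = 1 + p * k := by omega
  have h6 : h • w = z ^ k * w := by
    rw [← h2, hik, pow_add, pow_one, pow_mul, hwz, mul_comm]
  refine ⟨k, h6, fun s => ?_⟩
  have h7 : (s • w) ^ (p ^ 2) = 1 := by rw [← smul_pow', hw.pow_eq_one, smul_one]
  obtain ⟨m, -, hm⟩ := hw.eq_pow_of_pow_eq_one h7
  have h8 : s • z = z ^ m := by
    rw [← hwz, smul_pow', ← hm]
    ring
  have h9 : h • s • w = s • (z ^ k * w) := by
    rw [← hm, smul_pow', h6, smul_mul', smul_pow', h8, ← hm]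
    ring
  rw [mul_smul, mul_smul, h9, inv_smul_smul]

section
variable {p : ℕ} [hp : Fact p.Prime] {z : OO ℚ} (hz : IsPrimitiveRoot z p)
include hz

omit hp in
theorem Eig.fix {β : OO ℚ} (hβ : Eig z β) : Fix z (β ^ p) := fun h hh => by
  obtain ⟨k, h1, -⟩ := hβ h hh
  rw [smul_pow', h1, mul_pow, ← pow_mul, mul_comm k p, pow_mul, hz.pow_eq_one, one_pow, one_mul]

theorem Eig.omega {β : OO ℚ} (hβ : Eig z β) {s : GF ℚ} {c : ℕ} (hc : s • z = z ^ c) (hcp : c ≤ p) :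
    Fix z ((s • β) * β ^ (p - c)) := fun h hh => by
  obtain ⟨k, h1, h2⟩ := hβ h hh
  have h3 : h • s • β = z ^ (c * k) * s • β := by
    have h4 := h2 s
    rw [mul_smul, mul_smul] at h4
    have h5 := congrArg (fun x => s • x) h4
    simp only [smul_inv_smul] at h5
    rw [h5, smul_mul', smul_pow', hc, pow_mul]
  rw [smul_mul', smul_pow', h1, h3, mul_pow]
  have h6 : z ^ (c * k) * (z ^ k) ^ (p - c) = 1 := by
    rw [← pow_mul, ← pow_add]
    have h7 : c * k + k * (p - c) = p * k := by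
      obtain ⟨d, rfl⟩ := Nat.exists_eq_add_of_le hcp
      rw [Nat.add_sub_cancel_left]
      ring
    rw [h7, pow_mul, hz.pow_eq_one, one_pow]
  calc z ^ (c * k) * s • β * ((z ^ k) ^ (p - c) * β ^ (p - c))
      = (z ^ (c * k) * (z ^ k) ^ (p - c)) * (s • β * β ^ (p - c)) := by ring
    _ = s • β * β ^ (p - c) := by rw [h6, one_mul]

end

/-! ### the action on `π` -/

theorem smul_pi {z : OO ℚ} {s : GF ℚ} {c : ℕ} (hc : s • z = z ^ c) :
    s • (z - 1) = (z - 1) * ∑ i ∈ Finset.range c, z ^ i := by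
  rw [smul_sub, hc, smul_one, mul_geom_sum]

theorem geom_congr (z : OO ℚ) (c : ℕ) : (z - 1) ∣ (∑ i ∈ Finset.range c, z ^ i) - c := by
  have h1 : (∑ i ∈ Finset.range c, z ^ i) - c = ∑ i ∈ Finset.range c, (z ^ i - 1) := by
    rw [Finset.sum_sub_distrib]
    simp
  rw [h1]
  exact Finset.dvd_sum fun i _ => by simpa using sub_dvd_pow_sub_pow z 1 i

theorem pr_nat {p : ℕ} (z : OO ℚ) {c : ℕ} (hc : ¬ p ∣ c) {x : OO ℚ}
    (hx : (z - 1) ∣ x - c) : Pr p z x :=
  ⟨c, fun h => hc (Int.natCast_dvd_natCast.1 h), by exact_mod_cast hx⟩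

theorem Pr.smul {p : ℕ} {z x : OO ℚ} {s : GF ℚ} {c : ℕ} (hc : s • z = z ^ c)
    (hx : Pr p z x) : Pr p z (s • x) := by
  obtain ⟨a, ha, w, hw⟩ := hx
  refine ⟨a, ha, ⟨(∑ i ∈ Finset.range c, z ^ i) * s • w, ?_⟩⟩
  have h1 := congrArg (fun y => s • y) hw
  simp only [smul_sub, smul_mul', smul_intCast, smul_one] at h1
  have h2 := smul_pi hc
  rw [smul_sub, smul_one] at h2
  rw [h1, h2, mul_assoc]

/-- in the integrally closed ring `OO` -/
theorem dvd_of_pow_dvd {x y : OO ℚ} {n : ℕ} (hn : n ≠ 0) (h : x ^ n ∣ y ^ n) : x ∣ y := by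
  rcases eq_or_ne x 0 with rfl | hx
  · rw [zero_pow hn, zero_dvd_iff, pow_eq_zero_iff hn] at h
    rw [h]
  obtain ⟨w, hw⟩ := h
  have hx' : algebraMap (OO ℚ) (AlgebraicClosure ℚ) x ≠ 0 := fun h0 =>
    hx (RingOfIntegers.coe_injective (h0.trans (map_zero _).symm))
  have h1 : (algebraMap (OO ℚ) (AlgebraicClosure ℚ) y / algebraMap (OO ℚ) (AlgebraicClosure ℚ) x) ^ n
      = algebraMap (OO ℚ) (AlgebraicClosure ℚ) w := by
    rw [div_pow, div_eq_iff (pow_ne_zero n hx'), ← map_pow, hw, map_mul, map_pow, mul_comm]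
  have h2 : IsIntegral ℤ (algebraMap (OO ℚ) (AlgebraicClosure ℚ) y /
      algebraMap (OO ℚ) (AlgebraicClosure ℚ) x) :=
    IsIntegral.of_pow (Nat.pos_of_ne_zero hn) (by rw [h1]; exact w.2)
  let t : OO ℚ := ⟨_, h2⟩
  have ht : algebraMap (OO ℚ) (AlgebraicClosure ℚ) t = algebraMap (OO ℚ) (AlgebraicClosure ℚ) y /
      algebraMap (OO ℚ) (AlgebraicClosure ℚ) x := rfl
  refine ⟨t, RingOfIntegers.coe_injective ?_⟩
  rw [map_mul, ht]
  exact (mul_div_cancel₀ _ hx').symm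

/-- the automorphism raising `z` to a power which is a primitive root -/
theorem exists_gen {p : ℕ} [hp : Fact p.Prime] (hp2 : p ≠ 2) {z : OO ℚ}
    (hz : IsPrimitiveRoot z p) : ∃ (s : GF ℚ) (c : ℕ), 1 < c ∧ c < p ∧ s • z = z ^ c ∧
      ∀ k, 0 < k → k < p - 1 → ¬ p ∣ c ^ k - 1 := by
  have hpos := hp.out.pos
  have : IsCyclic (ZMod p)ˣ := inferInstance
  obtain ⟨u, hu⟩ := IsCyclic.exists_generator (α := (ZMod p)ˣ)
  have hord : orderOf u = p - 1 := by
    rw [orderOf_eq_card_of_forall_mem_zpowers hu, Nat.card_eq_fintype_card, ZMod.card_units]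
  set c := (u : ZMod p).val with hc
  have hcop : Nat.Coprime c p := ZMod.val_coe_unit_coprime u
  have hcz : ((c : ℕ) : ZMod p) = u := ZMod.natCast_zmod_val _
  have hcp : c < p := ZMod.val_lt _
  have h3p : 3 ≤ p := by
    have := hp.out.two_le
    omega
  have hnd : ∀ k, 0 < k → k < p - 1 → ¬ p ∣ c ^ k - 1 := by
    intro k hk0 hk hdvd
    have hc0 : 1 ≤ c ^ k := Nat.one_le_iff_ne_zero.2 (pow_ne_zero k fun h0 => by
      rw [h0] at hcop
      have := (Nat.coprime_zero_left p).1 hcop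
      omega)
    have h1 : ((c ^ k : ℕ) : ZMod p) = 1 := by
      have h2 := (ZMod.natCast_eq_zero_iff (c ^ k - 1) p).2 hdvd
      rw [Nat.cast_sub hc0, sub_eq_zero] at h2
      simpa using h2
    have h4 : u ^ k = 1 := by
      apply Units.ext
      rw [Units.val_pow_eq_pow_val, ← hcz, ← Nat.cast_pow, h1, Units.val_one]
    have h5 := orderOf_dvd_of_pow_eq_one h4
    rw [hord] at h5
    have := Nat.le_of_dvd hk0 h5
    omega
  have hζ : IsPrimitiveRoot (z : AlgebraicClosure ℚ) p :=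
    hz.map_of_injective (f := algebraMap (OO ℚ) (AlgebraicClosure ℚ)) RingOfIntegers.coe_injective
  obtain ⟨s, hs⟩ := exists_aut (F := ℚ) (minpoly_root hpos (hζ.pow_of_coprime c hcop) hζ)
  refine ⟨s, c, ?_, hcp, ?_, hnd⟩
  · by_contra hcon
    have h1 : c = 0 ∨ c = 1 := by omega
    rcases h1 with h1 | h1
    · rw [h1] at hcop
      have := (Nat.coprime_zero_left p).1 hcop
      omega
    · exact hnd 1 one_pos (by omega) (by rw [h1]; simp)
  · apply coe_inj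
    rw [show ((z ^ c : OO ℚ) : AlgebraicClosure ℚ) = (z : AlgebraicClosure ℚ) ^ c from
      map_pow (algebraMap (OO ℚ) (AlgebraicClosure ℚ)) z c]
    exact hs

end Pool.Agent.TH831.OT
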