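import Pool.Agent.TH831.OT.KW1

/-!
# The exponent `p` part of the inertia group at `p` is cyclic: the Kummer argument
-/

set_option autoImplicit false

namespace Pool.Agent.TH831.OT

open NumberField Pool.Agent.W569.FM Pool.Agent.W134.FM

section
variable {p : ℕ} [hp : Fact p.Prime] {P : Ideal (OO ℚ)} (hP : P.IsMaximal) (hpP : (p : OO ℚ) ∈ P)
  (hp2 : p ≠ 2) {z : OO ℚ} (hz : IsPrimitiveRoot z p)
include hP hpP hp2 hz

/-- step A -/
theorem step_a {β : OO ℚ} (hβ0 : β ≠ 0) (hβ : Eig z β) :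
    ∃ β' : OO ℚ, β' ≠ 0 ∧ Eig z β' ∧ Pr p z (β' ^ p) ∧
      ∀ (τ : GF ℚ) (k : ℕ), τ • z = z → τ • β = z ^ k * β → τ • β' = z ^ k * β' := by
  have hp0 := hp.out.ne_zero
  have hpi0 := pi_ne_zero hz
  obtain ⟨n, α', hα', hα, hnd⟩ := exists_exact hP hpP hp2 hz (pow_ne_zero p hβ0) (hβ.fix hz)
  obtain ⟨s, c, hc1, hcp, hs, -⟩ := exists_gen hp2 hz
  have hω := hβ.omega hz hs hcp.le
  have hsβ0 : s • β ≠ 0 := fun h => hβ0 ((smul_eq_zero_iff_eq s).1 h)
  have hω0 : (s • β) * β ^ (p - c) ≠ 0 := mul_ne_zero hsβ0 (pow_ne_zero _ hβ0)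
  obtain ⟨m, ω', hω', hωe, hωnd⟩ := exists_exact hP hpP hp2 hz hω0 hω
  have hPr1 : Pr p z ω' := pr_of_not_dvd hz hω' hωnd
  have hPr2 : Pr p z α' := pr_of_not_dvd hz hα' hnd
  have hη : Pr p z (∑ i ∈ Finset.range c, z ^ i) :=
    pr_nat z (fun h => by have := Nat.le_of_dvd (by omega) h; omega) (geom_congr z c)
  have h1 : (z - 1) ^ (p * m) * ω' ^ p =
      (z - 1) ^ (n * (p + 1 - c)) * ((∑ i ∈ Finset.range c, z ^ i) ^ n * (s • α') *
        α' ^ (p - c)) := by
    have h2 : ((s • β) * β ^ (p - c)) ^ p = (s • (β ^ p)) * (β ^ p) ^ (p - c) := by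
      rw [smul_pow']; ring
    rw [hωe, hα, smul_mul', smul_pow', smul_pi hs] at h2
    have h3 : n * (p + 1 - c) = n + n * (p - c) := by
      obtain ⟨d, rfl⟩ := Nat.exists_eq_add_of_le hcp.le
      rw [show c + d + 1 - c = d + 1 by omega, Nat.add_sub_cancel_left]
      ring
    rw [h3, pow_add, mul_comm p m, pow_mul, pow_mul, ← mul_pow, h2, mul_pow, mul_pow]
    ring
  have h2 := exact_unique hP hpP hp2 hz (hPr1.pow p) (((hη.pow n).mul (hPr2.smul hs)).mul
    (hPr2.pow (p - c))) h1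
  have h3 : p ∣ n := by
    rcases hp.out.dvd_mul.1 (Dvd.intro m h2) with h | h
    · exact h
    · exfalso
      have := Nat.le_of_dvd (by omega) h
      omega
  obtain ⟨n', rfl⟩ := h3
  have h4 : (z - 1) ^ n' ∣ β := by
    apply dvd_of_pow_dvd hp0
    rw [hα, ← pow_mul, mul_comm n' p]
    exact dvd_mul_right _ _
  obtain ⟨β', rfl⟩ := h4
  have hfix : Fix z ((z - 1) ^ n') := ((fix_self z).sub (fix_one z)).pow n'
  have hn0 : (z - 1) ^ n' ≠ 0 := pow_ne_zero _ hpi0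
  have h5 : β' ^ p = α' := by
    apply mul_left_cancel₀ (pow_ne_zero (p * n') hpi0)
    rw [← hα]
    ring
  refine ⟨β', right_ne_zero_of_mul hβ0, hβ.cancel hz hn0 hfix, by rw [h5]; exact hPr2, ?_⟩
  intro τ k hτ hτβ
  rw [smul_mul', hfix τ hτ, mul_left_comm] at hτβ
  exact mul_left_cancel₀ hn0 hτβ

omit hP hpP hp2 in
/-- step B -/
theorem step_b {β : OO ℚ} (hβ0 : β ≠ 0) (hβ : Eig z β) (hPr : Pr p z (β ^ p)) {w : OO ℚ}
    (hw : IsPrimitiveRoot w (p ^ 2)) (hwz : w ^ p = z) :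
    ∃ (γ : OO ℚ), γ ≠ 0 ∧ Eig z γ ∧ (z - 1) ^ 2 ∣ γ ^ p - 1 ∧
      ∀ (τ : GF ℚ) (k : ℕ), τ • w = w → τ • β = z ^ k * β → τ • γ = z ^ (k * (p - 1)) * γ := by
  have hp0 := hp.out.ne_zero
  have hpi0 := pi_ne_zero hz
  -- `α ^ (p - 1) = 1 + π y`
  have h1 : (z - 1) ∣ (β ^ p) ^ (p - 1) - 1 := by
    obtain ⟨a, ha, h⟩ := hPr
    have h2 : (z - 1) ∣ (β ^ p) ^ (p - 1) - (a : OO ℚ) ^ (p - 1) :=
      h.trans (sub_dvd_pow_sub_pow _ _ _)
    have h3 : (p : ℤ) ∣ a ^ (p - 1) - 1 := by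
      have hco : IsCoprime a (p : ℤ) := by
        rw [isCoprime_comm, Prime.coprime_iff_not_dvd (Nat.prime_iff_prime_int.1 hp.out)]
        exact ha
      exact (Int.ModEq.pow_card_sub_one_eq_one hp.out hco).symm.dvd
    have h4 : (z - 1) ∣ (a : OO ℚ) ^ (p - 1) - 1 := by
      obtain ⟨b, hb⟩ := h3
      have h5 := congrArg (fun x : ℤ => (x : OO ℚ)) hb
      push_cast at h5
      rw [h5]
      exact Dvd.dvd.mul_right (pi_dvd hz) _
    have h5 := dvd_add h2 h4
    rwa [sub_add_sub_cancel] at h5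
  obtain ⟨y, hy⟩ := h1
  have hfix : Fix z ((β ^ p) ^ (p - 1)) := (hβ.fix hz).pow _
  have hyfix : Fix z y := by
    apply Fix.cancel hpi0 ((fix_self z).sub (fix_one z))
    rw [← hy]
    exact hfix.sub (fix_one z)
  obtain ⟨a, y', -, hy'⟩ := fix_expand hz hyfix
  set b : ℕ := ((-a : ℤ) : ZMod p).val with hb
  have hbp : (p : ℤ) ∣ a + b := by
    rw [← ZMod.intCast_zmod_eq_zero_iff_dvd]
    push_cast
    rw [hb, ZMod.natCast_zmod_val]
    push_cast
    ring
  have hbr : (z - 1) ^ 2 ∣ z ^ b - 1 - b * (z - 1) := by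
    have h2 : z ^ b - 1 - b * (z - 1) = (z - 1) * ((∑ i ∈ Finset.range b, z ^ i) - b) := by
      linear_combination -mul_geom_sum z b
    rw [h2, pow_two]
    exact mul_dvd_mul_left _ (geom_congr z b)
  have hw0 : w ≠ 0 := hw.ne_zero (pow_ne_zero 2 hp0)
  refine ⟨β ^ (p - 1) * w ^ b, mul_ne_zero (pow_ne_zero _ hβ0) (pow_ne_zero _ hw0),
    (hβ.pow _).mul ((eig_root hw hwz).pow b), ?_, ?_⟩
  · have h2 : (β ^ (p - 1) * w ^ b) ^ p = (β ^ p) ^ (p - 1) * z ^ b := by
      rw [← hwz]; ring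
    obtain ⟨r, hr⟩ := hbr
    obtain ⟨d, hd⟩ := hbp
    have hd' := congrArg (fun x : ℤ => (x : OO ℚ)) hd
    push_cast at hd'
    obtain ⟨e, he⟩ := pi_dvd hz
    have h3 : (β ^ p) ^ (p - 1) = 1 + (z - 1) * y := by rw [← hy]; ring
    have h4 : z ^ b = 1 + b * (z - 1) + (z - 1) ^ 2 * r := by rw [← hr]; ring
    rw [h2, h3, h4]
    refine ⟨y' + e * d + r + y * b + (z - 1) * y * r, ?_⟩
    have h5 : (a : OO ℚ) + b = (z - 1) * e * d := by rw [hd', he]
    have h6 : (y : OO ℚ) + b = (z - 1) * (y' + e * d) := by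
      rw [hy']
      linear_combination h5
    linear_combination (z - 1) * h6
  · intro τ k hτ hτβ
    rw [smul_mul', smul_pow', smul_pow', hτ, hτβ, mul_pow, pow_mul]
    ring

/-- step C -/
theorem step_c {γ : OO ℚ} (hγ : Eig z γ) (h2 : (z - 1) ^ 2 ∣ γ ^ p - 1) :
    (z - 1) ^ p ∣ γ ^ p - 1 := by
  have hp0 := hp.out.ne_zero
  have hpi0 := pi_ne_zero hz
  have h3p : 3 ≤ p := by
    have := hp.out.two_le
    omega
  have hfix : Fix z (γ ^ p) := hγ.fix hz
  obtain ⟨s, c, hc1, hcp, hs, hcnd⟩ := exists_gen hp2 hz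
  have hω := hγ.omega hz hs hcp.le
  have hpp := pi_pow_dvd hz
  -- `ω ^ p = 1` modulo `π ^ p`
  have hωp : (z - 1) ^ p ∣ ((s • γ) * γ ^ (p - c)) ^ p - 1 := by
    set ω := (s • γ) * γ ^ (p - c) with hωdef
    have h1 : (z - 1) ∣ γ ^ p - 1 := (dvd_pow_self _ two_ne_zero).trans h2
    have h3 : (z - 1) ∣ ω ^ p - 1 := by
      have e : ω ^ p - 1 = (s • (γ ^ p - 1)) * (γ ^ p) ^ (p - c) + ((γ ^ p) ^ (p - c) - 1) := by
        rw [hωdef, smul_sub, smul_pow', smul_one]; ring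
      rw [e]
      refine dvd_add (Dvd.dvd.mul_right ?_ _) (h1.trans (by
        simpa using sub_dvd_pow_sub_pow (γ ^ p) 1 (p - c)))
      obtain ⟨w, hw⟩ := h1
      rw [hw, smul_mul', smul_pi hs, mul_assoc]
      exact dvd_mul_right _ _
    obtain ⟨a, y, -, hy⟩ := fix_expand hz hω
    have h4 : (z - 1) ∣ ω ^ p - (a : OO ℚ) ^ p := by
      refine dvd_trans ?_ (sub_dvd_pow_sub_pow _ _ _)
      rw [hy]
      exact ⟨y, by ring⟩
    have h5 : (z - 1) ∣ ((a ^ p - 1 : ℤ) : OO ℚ) := by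
      have h6 := dvd_sub h3 h4
      rw [sub_sub_sub_cancel_left] at h6
      push_cast
      exact h6
    have h6 : (p : ℤ) ∣ a ^ p - 1 := int_dvd hP hpP hp2 hz h5
    have h7 : (p : ℤ) ∣ a ^ p - a := by
      have h8 : ((a ^ p - a : ℤ) : ZMod p) = 0 := by
        push_cast
        rw [ZMod.pow_card, sub_self]
      exact (ZMod.intCast_zmod_eq_zero_iff_dvd _ _).1 h8
    have h8 : (p : ℤ) ∣ a - 1 := by
      have := dvd_sub h6 h7
      rwa [sub_sub_sub_cancel_left] at this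
    have h9 : (z - 1) ∣ ω - 1 := by
      have e : ω - 1 = ((a - 1 : ℤ) : OO ℚ) + (z - 1) * y := by rw [hy]; push_cast; ring
      rw [e]
      refine dvd_add ?_ (dvd_mul_right _ _)
      obtain ⟨d, hd⟩ := h8
      rw [hd]
      push_cast
      exact Dvd.dvd.mul_right (pi_dvd hz) _
    obtain ⟨t, ht⟩ := h9
    have e : ω = 1 + (z - 1) * t := by rw [← ht]; ring
    obtain ⟨r, hr⟩ := exists_add_pow_prime_eq hp.out 1 ((z - 1) * t)
    obtain ⟨ε, hε⟩ := hpp
    rw [e, hr]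
    refine ⟨t ^ p + ε * t * r, ?_⟩
    have h10 : (z - 1) ^ p = (z - 1) ^ (p - 1) * (z - 1) := by
      rw [← pow_succ, Nat.sub_add_cancel hp.out.one_le]
    rw [one_pow, mul_pow, hε, h10]
    ring
  -- induction
  have key : ∀ k, 2 ≤ k → k ≤ p → (z - 1) ^ k ∣ γ ^ p - 1 := by
    intro k hk2 hkp
    induction k, hk2 using Nat.le_induction with
    | base => exact h2
    | succ k hk2 ih =>
      obtain ⟨y, hy⟩ := ih (by omega)
      have hyfix : Fix z y := by
        apply Fix.cancel (pow_ne_zero k hpi0) (((fix_self z).sub (fix_one z)).pow k)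
        rw [← hy]
        exact hfix.sub (fix_one z)
      obtain ⟨a, y', -, hy'⟩ := fix_expand hz hyfix
      have hα : γ ^ p = 1 + (z - 1) ^ k * y := by rw [← hy]; ring
      have h3 : ((s • γ) * γ ^ (p - c)) ^ p = (s • (γ ^ p)) * (γ ^ p) ^ (p - c) := by
        rw [smul_pow']; ring
      -- `s α = 1 + π ^ k η ^ k (s y)`
      have h4 : s • (γ ^ p) = 1 + (z - 1) ^ k * ((∑ i ∈ Finset.range c, z ^ i) ^ k * (s • y)) := by
        rw [hα, smul_add, smul_one, smul_mul', smul_pow', smul_pi hs, mul_pow, mul_assoc]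
      -- `α ^ (p - c) = 1 + (p - c) π ^ k y + π ^ (2 k) r`
      have h5 : ∃ r, (γ ^ p) ^ (p - c) = 1 + ((p - c : ℕ) : OO ℚ) * ((z - 1) ^ k * y) +
          (z - 1) ^ (k + 1) * r := by
        rw [hα]
        have h6 : ∀ m : ℕ, ∃ r, (1 + (z - 1) ^ k * y) ^ m = 1 + (m : OO ℚ) * ((z - 1) ^ k * y) +
            (z - 1) ^ (k + 1) * r := by
          intro m
          induction m with
          | zero => exact ⟨0, by simp⟩
          | succ m ihm =>
            obtain ⟨r, hr⟩ := ihm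
            obtain ⟨k', rfl⟩ := Nat.exists_eq_add_of_le' (show 1 ≤ k by omega)
            refine ⟨r * (1 + (z - 1) ^ (k' + 1) * y) + (m : OO ℚ) * y ^ 2 * (z - 1) ^ k', ?_⟩
            rw [pow_succ, hr]
            push_cast
            ring
        exact h6 (p - c)
      obtain ⟨r, hr⟩ := h5
      -- compare
      have h7 : (z - 1) ∣ (∑ i ∈ Finset.range c, z ^ i) ^ k - (c : OO ℚ) ^ k :=
        (geom_congr z c).trans (sub_dvd_pow_sub_pow _ _ _)
      have h8 : (z - 1) ∣ (s • y) - a := by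
        rw [hy', smul_add, smul_intCast, smul_mul', smul_pi hs]
        refine ⟨(∑ i ∈ Finset.range c, z ^ i) * (s • y'), by ring⟩
      obtain ⟨u, hu⟩ := h7
      obtain ⟨v, hv⟩ := h8
      obtain ⟨q, hq⟩ := hωp
      have h9 : (z - 1) ∣ ((c ^ k * a + (p - c : ℕ) * a : ℤ) : OO ℚ) := by
        have hpk : (z - 1) ^ p = (z - 1) ^ k * ((z - 1) * (z - 1) ^ (p - (k + 1))) := by
          rw [← pow_succ', ← pow_add]
          congr 1
          omega
        have h10 : (z - 1) ^ k * ((z - 1) * (z - 1) ^ (p - (k + 1)) * q) =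
            (z - 1) ^ k * ((∑ i ∈ Finset.range c, z ^ i) ^ k * (s • y) +
              ((p - c : ℕ) : OO ℚ) * y + (z - 1) * r +
              ((∑ i ∈ Finset.range c, z ^ i) ^ k * (s • y)) *
                (((p - c : ℕ) : OO ℚ) * (z - 1) ^ k * y + (z - 1) ^ (k + 1) * r)) := by
          rw [← mul_assoc, ← hpk, ← hq, h3, h4, hr]
          ring
        have h11 := mul_left_cancel₀ (pow_ne_zero k hpi0) h10
        obtain ⟨k', hk'⟩ := Nat.exists_eq_add_of_le' (show 1 ≤ k by omega)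
        set E := ∑ i ∈ Finset.range c, z ^ i with hE
        have h12 : E ^ k = (c : OO ℚ) ^ k + (z - 1) * u := by rw [← hu]; ring
        have h13 : s • y = a + (z - 1) * v := by rw [← hv]; ring
        rw [h12, h13] at h11
        push_cast
        refine ⟨(z - 1) ^ (p - (k + 1)) * q - (c : OO ℚ) ^ k * v - u * (a + (z - 1) * v) -
          ((p - c : ℕ) : OO ℚ) * y' - r - (((c : OO ℚ) ^ k + (z - 1) * u) * (a + (z - 1) * v)) *
            (((p - c : ℕ) : OO ℚ) * (z - 1) ^ k' * y + (z - 1) ^ k * r), ?_⟩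
        have h14 : (z - 1) ^ k = (z - 1) ^ k' * (z - 1) := by rw [hk', pow_succ]
        rw [hy'] at h11 ⊢
        rw [h14] at h11 ⊢
        rw [pow_succ] at h11
        rw [h14] at h11
        linear_combination -h11
      have h10 := int_dvd hP hpP hp2 hz h9
      have h11 : (p : ℤ) ∣ a * (c ^ k - c) := by
        have e : a * ((c : ℤ) ^ k - c) = (c ^ k * a + (p - c : ℕ) * a : ℤ) - p * a := by
          rw [Nat.cast_sub hcp.le]; ring
        rw [e]
        exact dvd_sub h10 (dvd_mul_right _ _)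
      have h12 : (p : ℤ) ∣ a := by
        rcases (Nat.prime_iff_prime_int.1 hp.out).dvd_or_dvd h11 with h | h
        · exact h
        · exfalso
          have e : (c : ℤ) ^ k - c = c * (c ^ (k - 1) - 1) := by
            obtain ⟨k', rfl⟩ := Nat.exists_eq_add_of_le' (show 1 ≤ k by omega)
            rw [Nat.add_sub_cancel]
            ring
          rw [e] at h
          rcases (Nat.prime_iff_prime_int.1 hp.out).dvd_or_dvd h with h | h
          · have := Nat.le_of_dvd (by omega) (Int.natCast_dvd_natCast.1 h)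
            omega
          · apply hcnd (k - 1) (by omega) (by omega)
            have h13 : 1 ≤ c ^ (k - 1) := Nat.one_le_pow _ _ (by omega)
            rw [← Int.natCast_dvd_natCast, Nat.cast_sub h13]
            push_cast
            exact h
      obtain ⟨d, hd⟩ := h12
      obtain ⟨e, he⟩ := pi_dvd hz
      refine ⟨y' + e * d, ?_⟩
      rw [hy, hy', hd]
      push_cast
      rw [he]
      ring
  exact key p hp.out.two_le le_rfl

omit hP hpP in
/-- step D -/
theorem step_d {γ : OO ℚ} (h : (z - 1) ^ p ∣ γ ^ p - 1) : (z - 1) ∣ γ - 1 := by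
  have hpi0 := pi_ne_zero hz
  obtain ⟨y, hy⟩ := h
  obtain ⟨r, hr⟩ := exists_add_pow_prime_eq hp.out 1 (γ - 1)
  rw [add_sub_cancel, one_pow, mul_one] at hr
  obtain ⟨ε, hε⟩ := pi_pow_dvd hz
  have hpi0' : algebraMap (OO ℚ) (AlgebraicClosure ℚ) (z - 1) ≠ 0 := fun h0 =>
    hpi0 (RingOfIntegers.coe_injective (h0.trans (map_zero _).symm))
  set t : AlgebraicClosure ℚ := algebraMap (OO ℚ) (AlgebraicClosure ℚ) (γ - 1) /
    algebraMap (OO ℚ) (AlgebraicClosure ℚ) (z - 1) with ht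
  have htm : algebraMap (OO ℚ) (AlgebraicClosure ℚ) (z - 1) * t =
    algebraMap (OO ℚ) (AlgebraicClosure ℚ) (γ - 1) := mul_div_cancel₀ _ hpi0'
  have h1 : (γ - 1) ^ p + (z - 1) ^ (p - 1) * ε * (γ - 1) * r = (z - 1) ^ p * y := by
    rw [← hy, ← hε, hr]
    ring
  have h2 := congrArg (algebraMap (OO ℚ) (AlgebraicClosure ℚ)) h1
  have h3 : (z - 1) ^ p = (z - 1) ^ (p - 1) * (z - 1) := by
    rw [← pow_succ, Nat.sub_add_cancel hp.out.one_le]
  have h4 : t ^ p + algebraMap (OO ℚ) (AlgebraicClosure ℚ) (ε * r) * t =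
      algebraMap (OO ℚ) (AlgebraicClosure ℚ) y := by
    apply mul_left_cancel₀ (pow_ne_zero p hpi0')
    have h3' : algebraMap (OO ℚ) (AlgebraicClosure ℚ) (z - 1) ^ p =
        algebraMap (OO ℚ) (AlgebraicClosure ℚ) (z - 1) ^ (p - 1) *
          algebraMap (OO ℚ) (AlgebraicClosure ℚ) (z - 1) := by
      rw [← map_pow, h3, map_mul, map_pow]
    calc algebraMap (OO ℚ) (AlgebraicClosure ℚ) (z - 1) ^ p *
          (t ^ p + algebraMap (OO ℚ) (AlgebraicClosure ℚ) (ε * r) * t)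
        = (algebraMap (OO ℚ) (AlgebraicClosure ℚ) (z - 1) * t) ^ p +
          algebraMap (OO ℚ) (AlgebraicClosure ℚ) (z - 1) ^ p *
            (algebraMap (OO ℚ) (AlgebraicClosure ℚ) (ε * r) * t) := by ring
      _ = (algebraMap (OO ℚ) (AlgebraicClosure ℚ) (z - 1) * t) ^ p +
          algebraMap (OO ℚ) (AlgebraicClosure ℚ) (z - 1) ^ (p - 1) *
            algebraMap (OO ℚ) (AlgebraicClosure ℚ) (ε * r) *
            (algebraMap (OO ℚ) (AlgebraicClosure ℚ) (z - 1) * t) := by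
          rw [h3']; ring
      _ = algebraMap (OO ℚ) (AlgebraicClosure ℚ)
          ((γ - 1) ^ p + (z - 1) ^ (p - 1) * ε * (γ - 1) * r) := by
          rw [htm, map_add, map_mul, map_mul, map_mul, map_mul, map_pow, map_pow]; ring
      _ = _ := by rw [h2, map_mul, map_pow]
  have h5 : IsIntegral (OO ℚ) t := by
    refine ⟨Polynomial.X ^ p + (Polynomial.C (ε * r) * Polynomial.X - Polynomial.C y), ?_, ?_⟩
    · apply Polynomial.monic_X_pow_add
      have h3p : 3 ≤ p := by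
        have := hp.out.two_le
        omega
      refine lt_of_le_of_lt (Polynomial.degree_sub_le _ _) (max_lt ?_ ?_)
      · refine lt_of_le_of_lt (Polynomial.degree_C_mul_X_le _) ?_
        exact_mod_cast hp.out.one_lt
      · refine lt_of_le_of_lt Polynomial.degree_C_le ?_
        exact_mod_cast hp.out.pos
    · simp only [Polynomial.eval₂_add, Polynomial.eval₂_sub, Polynomial.eval₂_mul,
        Polynomial.eval₂_pow, Polynomial.eval₂_X, Polynomial.eval₂_C]
      rw [← h4]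
      ring
  have h6 : IsIntegral ℤ t := isIntegral_trans (R := ℤ) (A := OO ℚ) t h5
  let t' : OO ℚ := ⟨t, h6⟩
  have ht' : algebraMap (OO ℚ) (AlgebraicClosure ℚ) t' = t := rfl
  refine ⟨t', RingOfIntegers.coe_injective ?_⟩
  rw [map_mul, ht', htm]

/-- step E -/
theorem step_e {γ : OO ℚ} (h : (z - 1) ∣ γ - 1) {τ : GF ℚ} (hτ : InInertia P τ) (hτz : τ • z = z)
    {k : ℕ} (hk : τ • γ = z ^ k * γ) : p ∣ k := by
  have hpi0 := pi_ne_zero hz
  obtain ⟨x, hx⟩ := h
  have e : γ = 1 + (z - 1) * x := by rw [← hx]; ring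
  rw [e, smul_add, smul_one, smul_mul', smul_sub, hτz, smul_one] at hk
  have h1 : (z - 1) * (τ • x) = (z - 1) * ((∑ i ∈ Finset.range k, z ^ i) + z ^ k * x) := by
    linear_combination hk - mul_geom_sum z k
  have h2 := mul_left_cancel₀ hpi0 h1
  have hπP := pi_mem hP hpP hp2 hz
  have h3 : (k : OO ℚ) ∈ P := by
    have h4 : (k : OO ℚ) = (τ • x - x) - (z ^ k - 1) * x - ((∑ i ∈ Finset.range k, z ^ i) - k) := by
      rw [h2]; ring
    rw [h4]
    refine P.sub_mem (P.sub_mem (hτ x) (P.mul_mem_right _ ?_)) (P.mem_of_dvd (geom_congr z k) hπP)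
    exact P.mem_of_dvd (by simpa using sub_dvd_pow_sub_pow z 1 k) hπP
  have h4 : ((k : ℤ) : OO ℚ) ∈ P := by exact_mod_cast h3
  exact Int.natCast_dvd_natCast.1 (int_mem hP hpP h4)

/-- the Kummer argument -/
theorem kummer {w : OO ℚ} (hw : IsPrimitiveRoot w (p ^ 2)) (hwz : w ^ p = z) {β : OO ℚ}
    (hβ0 : β ≠ 0) (hβ : Eig z β) {τ : GF ℚ} (hτ : InInertia P τ) (hτw : τ • w = w) {k : ℕ}
    (hk : τ • β = z ^ k * β) : p ∣ k := by
  have hτz : τ • z = z := by rw [← hwz, smul_pow', hτw]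
  obtain ⟨β', h1, h2, h3, h4⟩ := step_a hP hpP hp2 hz hβ0 hβ
  obtain ⟨γ, h5, h6, h7, h8⟩ := step_b hz h1 h2 h3 hw hwz
  have h9 := step_c hP hpP hp2 hz h6 h7
  have h10 := step_d hp2 hz h9
  have h11 := step_e hP hpP hp2 hz h10 hτ hτz (h8 τ k hτw (h4 τ k hτz hk))
  rcases hp.out.dvd_mul.1 h11 with h | h
  · exact h
  · exfalso
    have := hp.out.two_le
    have := Nat.le_of_dvd (by omega) h
    omega

end

end Pool.Agent.TH831.OT
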