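import Pool.Agent.TH831.OT.KW2

/-!
# Lagrange resolvents, and the local Kronecker-Weber theorem in exponent `p`
-/

set_option autoImplicit false

namespace Pool.Agent.TH831.OT

open NumberField Pool.Agent.W569.FM Pool.Agent.W134.FM

theorem zpow_val_add {p : ℕ} {R : Type} [Monoid R] {ζ : R} (hζ : ζ ^ p = 1) (u v : ZMod p)
    [NeZero p] : ζ ^ (u + v).val = ζ ^ u.val * ζ ^ v.val := by
  rw [← pow_add, ZMod.val_add]
  exact (pow_eq_pow_mod _ hζ).symm

section
variable {p : ℕ} [hp : Fact p.Prime] {F : Type} [Field F] [CharZero F]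

theorem resolvent (f : GF F →* Multiplicative (ZMod p)) (hf : IsOpen (f.ker : Set (GF F)))
    (ζ : AlgebraicClosure F) (hζ : IsPrimitiveRoot ζ p) (h0 : GF F) (hh0 : h0 ζ = ζ)
    (hf0 : f h0 = Multiplicative.ofAdd 1) :
    ∃ β : AlgebraicClosure F, β ≠ 0 ∧ ∀ h : GF F, h ζ = ζ →
      h β = ζ ^ (Multiplicative.toAdd (f h)).val * β := by
  classical
  have : NeZero p := ⟨hp.out.ne_zero⟩
  let N : Subgroup (GF F) := f.ker ⊓ MulAction.stabilizer (GF F) ζ
  have hNo : IsOpen (N : Set (GF F)) := by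
    rw [Subgroup.coe_inf]
    exact hf.inter (isOpen_stab ζ)
  let L : IntermediateField F (AlgebraicClosure F) := IntermediateField.fixedField N
  have hfix : L.fixingSubgroup = N :=
    InfiniteGalois.fixingSubgroup_fixedField ⟨N, Subgroup.isClosed_of_isOpen N hNo⟩
  have hpow : ∀ a : ZMod p, f (h0 ^ a.val) = Multiplicative.ofAdd a := by
    intro a
    rw [map_pow, hf0, ← ofAdd_nsmul, nsmul_eq_mul, mul_one, ZMod.natCast_zmod_val]
  have hpowζ : ∀ n : ℕ, (h0 ^ n) ζ = ζ := by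
    intro n
    induction n with
    | zero => rfl
    | succ n ih =>
      rw [pow_succ]
      show (h0 ^ n) (h0 ζ) = ζ
      rw [hh0, ih]
  have hinvζ : ∀ n : ℕ, (h0 ^ n)⁻¹ ζ = ζ := by
    intro n
    have h1 := hpowζ n
    conv_lhs => rw [← h1]
    exact (h0 ^ n).symm_apply_apply ζ
  have hmemN : ∀ g : GF F, g ∈ N → ∀ x ∈ L, g x = x := by
    intro g hg x hx
    rw [← hfix, IntermediateField.mem_fixingSubgroup_iff] at hg
    exact hg x hx
  let χ : ZMod p → (L →* AlgebraicClosure F) := fun a =>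
    (((h0 ^ a.val : GF F) : AlgebraicClosure F →+* AlgebraicClosure F) :
      AlgebraicClosure F →* AlgebraicClosure F).comp (L.val : L →* AlgebraicClosure F)
  have hχ : ∀ (a : ZMod p) (x : L), χ a x = (h0 ^ a.val) (x : AlgebraicClosure F) := fun a x => rfl
  have hinj : Function.Injective χ := by
    intro a b hab
    have h1 : (h0 ^ a.val)⁻¹ * h0 ^ b.val ∈ L.fixingSubgroup := by
      rw [IntermediateField.mem_fixingSubgroup_iff]
      intro x hx
      have h2 : (h0 ^ a.val) x = (h0 ^ b.val) x := by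
        have := congrArg (fun φ : L →* AlgebraicClosure F => φ ⟨x, hx⟩) hab
        exact this
      show (h0 ^ a.val)⁻¹ ((h0 ^ b.val) x) = x
      rw [← h2]
      exact (h0 ^ a.val).symm_apply_apply x
    rw [hfix] at h1
    have h2 : f ((h0 ^ a.val)⁻¹ * h0 ^ b.val) = 1 := h1.1
    rw [map_mul, map_inv, hpow, hpow, inv_mul_eq_one] at h2
    exact Multiplicative.ofAdd.injective h2
  have hli := (linearIndependent_monoidHom L (AlgebraicClosure F)).comp χ hinj
  rw [Fintype.linearIndependent_iff] at hli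
  have hζ0 : ζ ≠ 0 := hζ.ne_zero hp.out.ne_zero
  have hex : ∃ x : L, ∑ a : ZMod p, ζ ^ (-a).val * χ a x ≠ 0 := by
    by_contra hcon
    push Not at hcon
    have h1 := hli (fun a => ζ ^ (-a).val) (by
      funext x
      rw [Finset.sum_apply]
      have := hcon x
      simpa [Pi.smul_apply, smul_eq_mul] using this) 0
    exact pow_ne_zero _ hζ0 h1
  obtain ⟨x, hx⟩ := hex
  refine ⟨∑ a : ZMod p, ζ ^ (-a).val * χ a x, hx, fun h hh => ?_⟩
  set j := Multiplicative.toAdd (f h) with hj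
  have hhpow : ∀ n : ℕ, h (ζ ^ n) = ζ ^ n := fun n => by rw [map_pow, hh]
  have h1 : ∀ a : ZMod p, h (χ a x) = χ (a + j) x := by
    intro a
    rw [hχ, hχ]
    have h2 : (h0 ^ (a + j).val)⁻¹ * h * h0 ^ a.val ∈ N := by
      refine ⟨?_, ?_⟩
      · show f _ = 1
        rw [map_mul, map_mul, map_inv, hpow, hpow]
        apply Multiplicative.toAdd.injective
        rw [toAdd_mul, toAdd_mul, toAdd_inv, toAdd_ofAdd, toAdd_ofAdd, ← hj, toAdd_one]
        ring
      · show ((h0 ^ (a + j).val)⁻¹ * h * h0 ^ a.val) ζ = ζ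
        show (h0 ^ (a + j).val)⁻¹ (h ((h0 ^ a.val) ζ)) = ζ
        rw [hpowζ, hh, hinvζ]
    have h3 := hmemN _ h2 x x.2
    have h4 : (h0 ^ (a + j).val)⁻¹ (h ((h0 ^ a.val) x)) = x := h3
    have h5 := congrArg (fun y => (h0 ^ (a + j).val) y) h4
    have h6 : (h0 ^ (a + j).val) ((h0 ^ (a + j).val)⁻¹ (h ((h0 ^ a.val) x))) =
      h ((h0 ^ a.val) x) := (h0 ^ (a + j).val).apply_symm_apply _
    simp only [h6] at h5
    exact h5
  rw [map_sum, Finset.mul_sum]
  refine Fintype.sum_equiv (Equiv.addRight j) _ _ fun a => ?_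
  rw [map_mul, hhpow, h1, Equiv.coe_addRight]
  have h2 : (-a : ZMod p) = j + -(a + j) := by ring
  conv_lhs => rw [h2, zpow_val_add hζ.pow_eq_one]
  ring

end

theorem coe_smul' (g : GF ℚ) (x : OO ℚ) : algebraMap (OO ℚ) (AlgebraicClosure ℚ) (g • x) =
    g (algebraMap (OO ℚ) (AlgebraicClosure ℚ) x) := rfl

theorem exists_beta {p : ℕ} [hp : Fact p.Prime] {z : OO ℚ} (hz : IsPrimitiveRoot z p)
    (f : GF ℚ →* Multiplicative (ZMod p)) (hf : IsOpen (f.ker : Set (GF ℚ))) (h0 : GF ℚ)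
    (hh0 : h0 • z = z) (hf0 : f h0 = Multiplicative.ofAdd 1) :
    ∃ β : OO ℚ, β ≠ 0 ∧ ∀ h : GF ℚ, h • z = z →
      h • β = z ^ (Multiplicative.toAdd (f h)).val * β := by
  have hζ : IsPrimitiveRoot (algebraMap (OO ℚ) (AlgebraicClosure ℚ) z) p :=
    hz.map_of_injective (f := algebraMap (OO ℚ) (AlgebraicClosure ℚ)) RingOfIntegers.coe_injective
  obtain ⟨β, hβ0, hβ⟩ := resolvent f hf _ hζ h0 (by rw [← coe_smul', hh0]) hf0
  have halg : IsAlgebraic ℤ β := by
    have h1 : @Algebra.IsAlgebraic ℚ (AlgebraicClosure ℚ) _ _ (AlgebraicClosure.instAlgebra ℚ) :=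
      AlgebraicClosure.isAlgebraic ℚ
    have h2 : IsAlgebraic ℚ β := h1.isAlgebraic β
    exact (IsFractionRing.isAlgebraic_iff ℤ ℚ (AlgebraicClosure ℚ)).2 h2
  obtain ⟨c, hc0, hc⟩ := halg.exists_integral_multiple
  let β' : OO ℚ := ⟨c • β, hc⟩
  have hβ' : algebraMap (OO ℚ) (AlgebraicClosure ℚ) β' = c • β := rfl
  refine ⟨β', fun h => ?_, fun h hh => RingOfIntegers.coe_injective ?_⟩
  · have h1 : c • β = 0 := by rw [← hβ', h, map_zero]
    rcases smul_eq_zero.1 h1 with h2 | h2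
    · exact hc0 h2
    · exact hβ0 h2
  · rw [coe_smul', map_mul, map_pow, hβ']
    have h1 : h (c • β) = c • h β := map_zsmul h c β
    rw [h1, hβ h (by rw [← coe_smul', hh]), mul_smul_comm]

/-- **local Kronecker-Weber in exponent `p`** -/
theorem kw {p : ℕ} [hp : Fact p.Prime] {P : Ideal (OO ℚ)} (hP : P.IsMaximal)
    (hpP : (p : OO ℚ) ∈ P) (hp2 : p ≠ 2) {w : OO ℚ} (hw : IsPrimitiveRoot w (p ^ 2))
    (f : GF ℚ →* Multiplicative (ZMod p)) (hf : IsOpen (f.ker : Set (GF ℚ))) {τ : GF ℚ}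
    (hτ : InInertia P τ) (hτw : τ • w = w) : f τ = 1 := by
  have : NeZero p := ⟨hp.out.ne_zero⟩
  set z := w ^ p with hzw
  have hz : IsPrimitiveRoot z p := hw.pow (pow_pos hp.out.pos 2) (by ring)
  have hτz : τ • z = z := by rw [hzw, smul_pow', hτw]
  by_cases hex : ∃ h0 : GF ℚ, h0 • z = z ∧ f h0 ≠ 1
  · obtain ⟨h1, hh1, hf1⟩ := hex
    set c := Multiplicative.toAdd (f h1) with hc
    have hc0 : c ≠ 0 := by
      intro h0
      apply hf1
      apply Multiplicative.toAdd.injective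
      rw [← hc, h0, toAdd_one]
    have hpowz : ∀ n : ℕ, (h1 ^ n) • z = z := by
      intro n
      induction n with
      | zero => rw [pow_zero, one_smul]
      | succ n ih => rw [pow_succ, mul_smul, hh1, ih]
    have hf2 : f (h1 ^ (c⁻¹).val) = Multiplicative.ofAdd 1 := by
      apply Multiplicative.toAdd.injective
      rw [map_pow, toAdd_pow, ← hc, nsmul_eq_mul, ZMod.natCast_zmod_val, toAdd_ofAdd,
        inv_mul_cancel₀ hc0]
    obtain ⟨β, hβ0, hβ⟩ := exists_beta hz f hf _ (hpowz _) hf2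
    have hE : Eig z β := by
      intro h hh
      refine ⟨_, hβ h hh, fun s => ?_⟩
      rw [hβ _ (conj_fix hz hh), conj_value]
    have h2 := kummer hP hpP hp2 hz hw rfl hβ0 hE hτ hτw (hβ τ hτz)
    apply Multiplicative.toAdd.injective
    rw [toAdd_one, ← ZMod.natCast_zmod_val (Multiplicative.toAdd (f τ))]
    exact (ZMod.natCast_eq_zero_iff _ _).2 h2
  · by_contra hcon
    exact hex ⟨τ, hτz, hcon⟩

end Pool.Agent.TH831.OT
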