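import Pool.Agent.TH831.OT.Rel

/-!
# Levels: how far a two-dimensional representation is congruent to `1`
-/

set_option autoImplicit false

namespace Pool.Agent.TH831.OT

open Matrix Pool.Agent.W569.FM

section
variable {p : ℕ} [hp : Fact p.Prime]

/-- reduction modulo `p` -/
noncomputable abbrev q (x : ℤ_[p]) : ZMod p := PadicInt.toZMod x

theorem q_eq_zero {x : ℤ_[p]} : q x = 0 ↔ (p : ℤ_[p]) ∣ x := by
  constructor
  · intro h
    have h3 : x ∈ RingHom.ker (PadicInt.toZMod (p := p)) := h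
    rwa [PadicInt.ker_toZMod, PadicInt.maximalIdeal_eq_span_p, Ideal.mem_span_singleton] at h3
  · rintro ⟨b, rfl⟩
    show PadicInt.toZMod _ = 0
    rw [map_mul, toZMod_p, zero_mul]

theorem q_mul (x y : ℤ_[p]) : q (x * y) = q x * q y := map_mul _ x y

theorem q_add (x y : ℤ_[p]) : q (x + y) = q x + q y := map_add _ x y

theorem q_sub (x y : ℤ_[p]) : q (x - y) = q x - q y := map_sub _ x y

theorem q_neg (x : ℤ_[p]) : q (-x) = -q x := map_neg _ x

theorem q_pow (x : ℤ_[p]) (n : ℕ) : q (x ^ n) = q x ^ n := map_pow _ x n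

theorem q_zero : q (0 : ℤ_[p]) = 0 := map_zero _

theorem q_one : q (1 : ℤ_[p]) = 1 := map_one _

theorem q_natCast (n : ℕ) : q (n : ℤ_[p]) = n := map_natCast _ n

theorem q_surj (a : ZMod p) : ∃ x : ℤ_[p], q x = a :=
  ⟨(a.val : ℤ_[p]), by
    have : NeZero p := ⟨hp.out.ne_zero⟩
    show PadicInt.toZMod _ = a
    rw [map_natCast, ZMod.natCast_zmod_val]⟩

theorem ppow_ne (k : ℕ) : (p : ℤ_[p]) ^ k ≠ 0 := pow_ne_zero _ p_ne

theorem prime_p : Prime (p : ℤ_[p]) := PadicInt.prime_p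

theorem isUnit_of_q {x : ℤ_[p]} (h : q x ≠ 0) : IsUnit x := by
  rw [PadicInt.isUnit_iff]
  by_contra hcon
  have h1 : ‖x‖ < 1 := lt_of_le_of_ne (PadicInt.norm_le_one x) hcon
  exact h (q_eq_zero.2 (PadicInt.norm_lt_one_iff_dvd x |>.1 h1))

/-- a nonzero vector is a multiple of a primitive one -/
theorem exists_primitive (v : Fin 2 → ℤ_[p]) (hv : v ≠ 0) :
    ∃ (c : ℤ_[p]) (w : Fin 2 → ℤ_[p]), c ≠ 0 ∧ v = c • w ∧ (q (w 0) ≠ 0 ∨ q (w 1) ≠ 0) := by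
  by_contra hcon
  push Not at hcon
  have key : ∀ n : ℕ, ∃ w : Fin 2 → ℤ_[p], v = (p : ℤ_[p]) ^ n • w := by
    intro n
    induction n with
    | zero => exact ⟨v, by rw [pow_zero, one_smul]⟩
    | succ n ih =>
      obtain ⟨w, hw⟩ := ih
      obtain ⟨h0, h1⟩ := hcon _ w (ppow_ne n) hw
      obtain ⟨a, ha⟩ := q_eq_zero.1 h0
      obtain ⟨b, hb⟩ := q_eq_zero.1 h1
      refine ⟨![a, b], ?_⟩
      rw [hw, pow_succ]
      funext i
      fin_cases i
      · simp [ha, mul_assoc]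
      · simp [hb, mul_assoc]
  apply hv
  have hz : ∀ x : ℤ_[p], (∀ n : ℕ, (p : ℤ_[p]) ^ n ∣ x) → x = 0 := by
    intro x hx
    by_contra h0
    have hf : FiniteMultiplicity (p : ℤ_[p]) x :=
      FiniteMultiplicity.of_prime_left prime_p h0
    obtain ⟨n, hn⟩ := hf
    exact hn (hx (n + 1))
  funext i
  apply hz
  intro n
  obtain ⟨w, hw⟩ := key n
  rw [hw]
  exact dvd_mul_right _ _

end

section
variable {p : ℕ} [hp : Fact p.Prime] {G : Type} [Group G]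

theorem mt_mul (ρ : G →* GL (Fin 2) ℤ_[p]) (g h : G) : mt (ρ (g * h)) = mt (ρ g) * mt (ρ h) := by
  rw [map_mul]; rfl

theorem mt_one : mt (1 : GL (Fin 2) ℤ_[p]) = 1 := rfl

/-- even level -/
def Ev (k : ℕ) (ρ : G →* GL (Fin 2) ℤ_[p]) : Prop :=
  ∀ g, ∃ X : Matrix (Fin 2) (Fin 2) ℤ_[p], mt (ρ g) = 1 + (p : ℤ_[p]) ^ k • X

/-- odd level -/
def Od (m : ℕ) (ρ : G →* GL (Fin 2) ℤ_[p]) : Prop :=
  ∀ g, ∃ a b c d : ℤ_[p], mt (ρ g) =
    1 + (p : ℤ_[p]) ^ m • !![(p : ℤ_[p]) * a, b; (p : ℤ_[p]) * c, (p : ℤ_[p]) * d]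

theorem Rel.refl (ρ : G →* GL (Fin 2) ℤ_[p]) : Rel ρ ρ :=
  ⟨1, by simp, fun g => by rw [one_mul, mul_one]⟩

/-- a unimodular matrix with given first column modulo `p` -/
theorem exists_U (w : Fin 2 → ZMod p) (hw : w ≠ 0) :
    ∃ (U : Matrix (Fin 2) (Fin 2) ℤ_[p]) (c : ZMod p), U.det = 1 ∧
      (fun i => q (U i 0)) = c • w := by
  by_cases h0 : w 0 = 0
  · have h1 : w 1 ≠ 0 := by
      intro h1
      apply hw
      funext i
      fin_cases i
      · exact h0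
      · exact h1
    refine ⟨!![0, -1; 1, 0], (w 1)⁻¹, by simp [Matrix.det_fin_two], ?_⟩
    funext i
    fin_cases i
    · simp [h0]
    · simp [h1]
  · obtain ⟨r, hr⟩ := q_surj (w 1 / w 0)
    refine ⟨!![1, 0; r, 1], (w 0)⁻¹, by simp [Matrix.det_fin_two], ?_⟩
    funext i
    fin_cases i
    · simp [h0]
    · simp only [Fin.mk_one, Matrix.of_apply, Matrix.cons_val', Matrix.cons_val_zero,
        Matrix.cons_val_one, Pi.smul_apply, smul_eq_mul]
      rw [hr, div_eq_inv_mul]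

/-- first improvement -/
theorem move1 {k : ℕ} (ρ : G →* GL (Fin 2) ℤ_[p]) (X : G → Matrix (Fin 2) (Fin 2) ℤ_[p])
    (hX : ∀ g, mt (ρ g) = 1 + (p : ℤ_[p]) ^ k • X g) (w : Fin 2 → ZMod p) (hw : w ≠ 0)
    (h1 : ∀ g, red p 2 (X g) *ᵥ w = 0) (h2 : ∀ g, (p : ℤ_[p]) ∣ (X g).trace) :
    ∃ ρ' : G →* GL (Fin 2) ℤ_[p], Rel ρ ρ' ∧ Od k ρ' := by
  obtain ⟨U, c, hU, hc⟩ := exists_U w hw
  obtain ⟨ρ', hρ', h⟩ := exists_conj ρ U hU
  refine ⟨ρ', hρ', fun g => ?_⟩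
  set Y := U.adjugate * X g * U with hY
  have hYe : mt (ρ' g) = 1 + (p : ℤ_[p]) ^ k • Y := by
    rw [h, hX, mul_add, mul_one, add_mul, Matrix.adjugate_mul, hU, one_smul, Matrix.mul_smul,
      Matrix.smul_mul]
  have hcol : ∀ i, (p : ℤ_[p]) ∣ Y i 0 := by
    intro i
    rw [← q_eq_zero]
    have h3 : (red p 2 Y *ᵥ (Pi.single 0 1)) i = 0 := by
      have e : red p 2 U *ᵥ (Pi.single 0 1) = c • w := by
        rw [← hc]
        funext i
        rw [Matrix.mulVec_single_one]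
        rfl
      rw [hY, map_mul, map_mul, ← Matrix.mulVec_mulVec, ← Matrix.mulVec_mulVec, e,
        Matrix.mulVec_smul, h1 g, smul_zero, Matrix.mulVec_zero]
      rfl
    rw [Matrix.mulVec_single_one] at h3
    exact h3
  have htr : Y.trace = (X g).trace := by
    rw [hY, Matrix.trace_mul_comm, ← mul_assoc, Matrix.mul_adjugate, hU, one_smul, one_mul]
  have h11 : (p : ℤ_[p]) ∣ Y 1 1 := by
    have h3 := h2 g
    rw [← htr, Matrix.trace_fin_two] at h3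
    exact (dvd_add_right (hcol 0)).1 h3
  obtain ⟨a, ha⟩ := hcol 0
  obtain ⟨c', hc'⟩ := hcol 1
  obtain ⟨d, hd⟩ := h11
  refine ⟨a, Y 0 1, c', d, ?_⟩
  rw [hYe]
  congr 2
  ext i j
  fin_cases i <;> fin_cases j <;> simp [ha, hc', hd]

/-- second improvement -/
theorem move2 {m : ℕ} (ρ : G →* GL (Fin 2) ℤ_[p]) (a b c d : G → ℤ_[p])
    (h : ∀ g, mt (ρ g) =
      1 + (p : ℤ_[p]) ^ m • !![(p : ℤ_[p]) * a g, b g; (p : ℤ_[p]) * c g, (p : ℤ_[p]) * d g])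
    (hc : ∀ g, (p : ℤ_[p]) ∣ c g) :
    ∃ ρ' : G →* GL (Fin 2) ℤ_[p], Rel ρ ρ' ∧ Ev (m + 1) ρ' := by
  choose c' hc' using hc
  obtain ⟨ρ', hρ', hM⟩ := exists_rel ρ !![(p : ℤ_[p]), 0; 0, 1] (by
    rw [Matrix.det_fin_two]; simpa using (p_ne : (p : ℤ_[p]) ≠ 0))
    (fun g => 1 + (p : ℤ_[p]) ^ (m + 1) • !![a g, b g; c' g, d g]) (fun g => by
      rw [h g, hc' g]
      ext i j
      fin_cases i <;> fin_cases j <;>
        simp [Matrix.mul_apply, Fin.sum_univ_two] <;> ring)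
  exact ⟨ρ', hρ', fun g => ⟨_, hM g⟩⟩

/-- third improvement -/
theorem move3 {m : ℕ} (ρ : G →* GL (Fin 2) ℤ_[p]) (a b c d : G → ℤ_[p])
    (h : ∀ g, mt (ρ g) =
      1 + (p : ℤ_[p]) ^ m • !![(p : ℤ_[p]) * a g, b g; (p : ℤ_[p]) * c g, (p : ℤ_[p]) * d g])
    (hb : ∀ g, (p : ℤ_[p]) ∣ b g) : Ev (m + 1) ρ := by
  intro g
  obtain ⟨b', hb'⟩ := hb g
  refine ⟨!![a g, b'; c g, d g], ?_⟩
  rw [h g, hb']
  ext i j
  fin_cases i <;> fin_cases j <;> simp <;> ring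

end

section
variable {p : ℕ} [hp : Fact p.Prime] {G : Type} [Group G] [TopologicalSpace G]
  [IsTopologicalGroup G]

/-- homomorphisms to `ℤ / p` from functions that are additive modulo `p` -/
theorem exists_hom (ρ : G →* GL (Fin 2) ℤ_[p]) (hρ : Continuous ρ) (f : G → ℤ_[p])
    (hadd : ∀ g h, (p : ℤ_[p]) ∣ f (g * h) - (f g + f h)) (N : ℕ)
    (hN : ∀ g, Cong N (mt (ρ g)) → (p : ℤ_[p]) ∣ f g) :
    ∃ F : G →* Multiplicative (ZMod p), IsOpen (F.ker : Set G) ∧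
      (∀ g, F g = Multiplicative.ofAdd (q (f g))) ∧ ∀ g, ρ g = 1 → F g = 1 := by
  have h1 : Cong N (mt (ρ 1)) := by
    rw [map_one]
    exact ⟨0, by rw [smul_zero, add_zero]; rfl⟩
  let F : G →* Multiplicative (ZMod p) :=
    { toFun := fun g => Multiplicative.ofAdd (q (f g))
      map_one' := by rw [q_eq_zero.2 (hN 1 h1), ofAdd_zero]
      map_mul' := fun g h => by
        rw [← ofAdd_add]
        congr 1
        have h2 := q_eq_zero.2 (hadd g h)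
        have h3 : q (f (g * h)) - (q (f g) + q (f h)) = 0 := by
          rw [← map_add, ← map_sub]
          exact h2
        exact sub_eq_zero.1 h3 }
  refine ⟨F, ?_, fun g => rfl, fun g hg => ?_⟩
  · apply Subgroup.isOpen_of_mem_nhds _ (g := (1 : G))
    filter_upwards [eventually_cong ρ hρ N] with g hg
    show F g = 1
    show Multiplicative.ofAdd (q (f g)) = 1
    rw [q_eq_zero.2 (hN g hg), ofAdd_zero]
  · show Multiplicative.ofAdd (q (f g)) = 1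
    rw [q_eq_zero.2 (hN g ?_), ofAdd_zero]
    rw [hg]
    exact ⟨0, by rw [smul_zero, add_zero]; rfl⟩

end

end Pool.Agent.TH831.OT
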