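import Pool.Agent.TH831.OT.KW3

/-!
# The cyclotomic character of order `p` and conductor `p ^ 2`
-/

set_option autoImplicit false

namespace Pool.Agent.TH831.OT

open NumberField Pool.Agent.W569.FM Pool.Agent.W134.FM

section
variable (p : ℕ) [hp : Fact p.Prime]

theorem fermat_quot {a : ℤ} (ha : IsCoprime a (p : ℤ)) :
    a ^ (p - 1) = 1 + p * ((a ^ (p - 1) - 1) / p) := by
  have h := (Int.ModEq.pow_card_sub_one_eq_one hp.out ha).symm.dvd
  rw [Int.mul_ediv_cancel' h]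
  ring

/-- compare Fermat quotients -/
theorem fermat_add {a b c : ℤ} (ha : IsCoprime a (p : ℤ)) (hb : IsCoprime b (p : ℤ))
    (h : (p : ℤ) ^ 2 ∣ c - a * b) :
    ((((c ^ (p - 1) - 1) / p : ℤ) : ZMod p)) =
      (((a ^ (p - 1) - 1) / p : ℤ) : ZMod p) + (((b ^ (p - 1) - 1) / p : ℤ) : ZMod p) := by
  have hc : IsCoprime c (p : ℤ) := by
    have h1 : IsCoprime (a * b) (p : ℤ) := ha.mul_left hb
    obtain ⟨d, hd⟩ := h
    have h2 : c = a * b + p * (p * d) := by linear_combination hd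
    rw [h2]
    exact h1.add_mul_left_left _
  have h1 : (p : ℤ) ^ 2 ∣ c ^ (p - 1) - (a * b) ^ (p - 1) := h.trans (sub_dvd_pow_sub_pow _ _ _)
  have hfa := fermat_quot p ha
  have hfb := fermat_quot p hb
  have hfc := fermat_quot p hc
  set x := (a ^ (p - 1) - 1) / (p : ℤ)
  set y := (b ^ (p - 1) - 1) / (p : ℤ)
  set t := (c ^ (p - 1) - 1) / (p : ℤ)
  rw [mul_pow, hfa, hfb, hfc] at h1
  have h2 : (p : ℤ) ∣ t - (x + y) := by
    obtain ⟨d, hd⟩ := h1
    have hp0 : (p : ℤ) ≠ 0 := by exact_mod_cast hp.out.ne_zero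
    refine ⟨d + x * y, ?_⟩
    apply mul_left_cancel₀ hp0
    linear_combination hd
  have h3 := (ZMod.intCast_zmod_eq_zero_iff_dvd _ _).2 h2
  push_cast at h3
  linear_combination h3

omit hp in
theorem coprime_val (u : (ZMod (p ^ 2))ˣ) :
    IsCoprime (((u : ZMod (p ^ 2)).val : ℕ) : ℤ) (p : ℤ) := by
  have h : Nat.Coprime (u : ZMod (p ^ 2)).val (p ^ 2) := ZMod.val_coe_unit_coprime u
  exact Nat.isCoprime_iff_coprime.2 (Nat.Coprime.coprime_dvd_right (dvd_pow_self p two_ne_zero) h)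

/-- the projection of `(ℤ / p ^ 2)ˣ` to `ℤ / p` -/
noncomputable def theta : (ZMod (p ^ 2))ˣ →* Multiplicative (ZMod p) where
  toFun u := Multiplicative.ofAdd
    (-(((((u : ZMod (p ^ 2)).val : ℤ) ^ (p - 1) - 1) / p : ℤ) : ZMod p))
  map_one' := by
    have : Fact (1 < p ^ 2) := ⟨Nat.one_lt_pow two_ne_zero hp.out.one_lt⟩
    rw [Units.val_one, ZMod.val_one]
    simp
  map_mul' := fun u v => by
    have : NeZero (p ^ 2) := ⟨pow_ne_zero 2 hp.out.ne_zero⟩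
    rw [← ofAdd_add]
    congr 1
    rw [fermat_add p (coprime_val p u) (coprime_val p v)]
    · ring
    · have h1 : ((((u * v : (ZMod (p ^ 2))ˣ) : ZMod (p ^ 2)).val : ℤ) -
        ((u : ZMod (p ^ 2)).val : ℤ) * ((v : ZMod (p ^ 2)).val : ℤ) : ZMod (p ^ 2)) = 0 := by
        push_cast
        rw [ZMod.natCast_zmod_val, ZMod.natCast_zmod_val, ZMod.natCast_zmod_val]
        ring
      have h2 := (ZMod.intCast_zmod_eq_zero_iff_dvd
        ((((u * v : (ZMod (p ^ 2))ˣ) : ZMod (p ^ 2)).val : ℤ) -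
        ((u : ZMod (p ^ 2)).val : ℤ) * ((v : ZMod (p ^ 2)).val : ℤ)) (p ^ 2)).1 (by
          push_cast
          push_cast at h1
          exact h1)
      push_cast at h2
      exact h2

theorem theta_apply (u : (ZMod (p ^ 2))ˣ) : theta p u = Multiplicative.ofAdd
    (-(((((u : ZMod (p ^ 2)).val : ℤ) ^ (p - 1) - 1) / p : ℤ) : ZMod p)) := rfl

/-- the value on `1 + p s` -/
theorem theta_one_add (u : (ZMod (p ^ 2))ˣ) (s : ℕ)
    (h : (u : ZMod (p ^ 2)) = ((1 + p * s : ℕ) : ZMod (p ^ 2))) :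
    theta p u = Multiplicative.ofAdd (s : ZMod p) := by
  have : NeZero (p ^ 2) := ⟨pow_ne_zero 2 hp.out.ne_zero⟩
  rw [theta_apply]
  congr 1
  have hf := fermat_quot p (coprime_val p u)
  set a : ℤ := ((u : ZMod (p ^ 2)).val : ℤ) with ha
  set t := (a ^ (p - 1) - 1) / (p : ℤ) with ht
  have h1 : (p : ℤ) ^ 2 ∣ a - (1 + p * s) := by
    have h2 : ((a - (1 + p * s) : ℤ) : ZMod (p ^ 2)) = 0 := by
      rw [ha]
      push_cast
      rw [ZMod.natCast_zmod_val, h]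
      push_cast
      ring
    have h3 := (ZMod.intCast_zmod_eq_zero_iff_dvd _ _).1 h2
    exact_mod_cast h3
  have h2 : (p : ℤ) ^ 2 ∣ a ^ (p - 1) - (1 + p * s) ^ (p - 1) :=
    h1.trans (sub_dvd_pow_sub_pow _ _ _)
  have h3 : ∀ m : ℕ, (p : ℤ) ^ 2 ∣ (1 + p * s) ^ m - (1 + m * (p * s)) := by
    intro m
    induction m with
    | zero => simp
    | succ m ih =>
      obtain ⟨d, hd⟩ := ih
      refine ⟨d * (1 + p * s) + m * s ^ 2, ?_⟩
      push_cast
      linear_combination (1 + (p : ℤ) * s) * hd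
  have h4 := dvd_add h2 (h3 (p - 1))
  rw [sub_add_sub_cancel, hf] at h4
  have h5 : (p : ℤ) ∣ t + s := by
    obtain ⟨d, hd⟩ := h4
    have hp0 : (p : ℤ) ≠ 0 := by exact_mod_cast hp.out.ne_zero
    refine ⟨d + s, mul_left_cancel₀ hp0 ?_⟩
    rw [Nat.cast_sub hp.out.one_le] at hd
    push_cast at hd
    linear_combination hd
  have h6 := (ZMod.intCast_zmod_eq_zero_iff_dvd _ _).2 h5
  push_cast at h6
  linear_combination -h6

theorem theta_eq_one (u : (ZMod (p ^ 2))ˣ) (h : theta p u = 1) :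
    u ^ (p - 1) = 1 := by
  have : NeZero (p ^ 2) := ⟨pow_ne_zero 2 hp.out.ne_zero⟩
  rw [theta_apply] at h
  have h1 := congrArg Multiplicative.toAdd h
  rw [toAdd_ofAdd, toAdd_one, neg_eq_zero] at h1
  have h2 := (ZMod.intCast_zmod_eq_zero_iff_dvd _ _).1 h1
  have hf := fermat_quot p (coprime_val p u)
  obtain ⟨d, hd⟩ := h2
  rw [hd] at hf
  have h3 := congrArg (fun x : ℤ => (x : ZMod (p ^ 2))) hf
  push_cast at h3
  rw [ZMod.natCast_zmod_val] at h3
  apply Units.ext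
  rw [Units.val_pow_eq_pow_val, h3, Units.val_one]
  have h4 : ((p : ℕ) : ZMod (p ^ 2)) ^ 2 = 0 := by
    rw [← Nat.cast_pow, ZMod.natCast_self]
  linear_combination (d : ZMod (p ^ 2)) * h4

theorem exists_psi : ∃ (ψ : GF ℚ →* Multiplicative (ZMod p)) (w : OO ℚ),
    IsPrimitiveRoot w (p ^ 2) ∧ IsOpen (ψ.ker : Set (GF ℚ)) ∧
    (∀ P : Ideal (OO ℚ), P.IsMaximal → (p : OO ℚ) ∉ P → ∀ τ : GF ℚ, InInertia P τ → ψ τ = 1) ∧
    (∃ g, ψ g ≠ 1) ∧
    (∀ q : ℕ, q.Prime → q ≠ p → ∀ s : ℕ, q = 1 + p * s → ∀ P : Ideal (OO ℚ), P.IsMaximal →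
      (q : OO ℚ) ∈ P → ∀ σ : GF ℚ, FrobAt q P σ → ψ σ = Multiplicative.ofAdd (s : ZMod p)) ∧
    ∀ τ : GF ℚ, ψ τ = 1 → (τ ^ (p - 1)) • w = w := by
  have hl0 : p ^ 2 ≠ 0 := pow_ne_zero 2 hp.out.ne_zero
  have : NeZero (p ^ 2) := ⟨hl0⟩
  obtain ⟨ζ, hζ⟩ := HasEnoughRootsOfUnity.exists_primitiveRoot (AlgebraicClosure ℚ) (p ^ 2)
  have hζi : IsIntegral ℤ ζ :=
    IsIntegral.of_pow (Nat.pos_of_ne_zero hl0) (by rw [hζ.pow_eq_one]; exact isIntegral_one)
  let z : OO ℚ := ⟨ζ, hζi⟩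
  have hz : (z : AlgebraicClosure ℚ) = ζ := rfl
  have hzp : ∀ a : ℕ, ((z ^ a : OO ℚ) : AlgebraicClosure ℚ) = ζ ^ a := fun a =>
    map_pow (algebraMap (OO ℚ) (AlgebraicClosure ℚ)) z _
  have hzprim : IsPrimitiveRoot z (p ^ 2) := by
    have h1 : IsPrimitiveRoot (algebraMap (OO ℚ) (AlgebraicClosure ℚ) z) (p ^ 2) := hζ
    exact h1.of_map_of_injective RingOfIntegers.coe_injective
  have hzl : z ^ (p ^ 2) = 1 := hzprim.pow_eq_one
  set χ : GF ℚ →* (ZMod (p ^ 2))ˣ := hζ.autToPow ℚ with hχ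
  have hspec : ∀ g : GF ℚ, ζ ^ ((χ g : (ZMod (p ^ 2))ˣ) : ZMod (p ^ 2)).val = g ζ :=
    fun g => hζ.autToPow_spec ℚ g
  have hact : ∀ g : GF ℚ, g • z = z ^ ((χ g : (ZMod (p ^ 2))ˣ) : ZMod (p ^ 2)).val := by
    intro g
    apply RingOfIntegers.ext
    rw [hzp, hspec]
    rfl
  have hval : ∀ (g : GF ℚ) (a : ℕ), g • z = z ^ a →
      ((χ g : (ZMod (p ^ 2))ˣ) : ZMod (p ^ 2)) = a := by
    intro g a h
    rw [hact] at h
    have h1 := congrArg (fun y : OO ℚ => (y : AlgebraicClosure ℚ)) h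
    simp only [hzp] at h1
    have h2 : ((χ g : (ZMod (p ^ 2))ˣ) : ZMod (p ^ 2)).val ≡ a [MOD (p ^ 2)] := by
      rw [pow_eq_pow_mod a hζ.pow_eq_one] at h1
      have h3 := hζ.pow_inj (ZMod.val_lt _) (Nat.mod_lt _ (Nat.pos_of_ne_zero hl0)) h1
      rw [h3]
      exact Nat.mod_modEq _ _
    have h3 := (ZMod.natCast_eq_natCast_iff _ _ _).2 h2
    rwa [ZMod.natCast_zmod_val] at h3
  have hnotmem : ∀ P : Ideal (OO ℚ), P.IsMaximal → (p : OO ℚ) ∉ P →
      ((p ^ 2 : ℕ) : OO ℚ) ∉ P := by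
    intro P hP hpP h
    rw [Nat.cast_pow] at h
    exact hpP (hP.isPrime.mem_of_pow_mem 2 h)
  refine ⟨(theta p).comp χ, z, hzprim, ?_, ?_, ?_, ?_, ?_⟩
  · have h1 : IsOpen (MulAction.stabilizer (GF ℚ) ζ : Set (GF ℚ)) := isOpen_stab ζ
    refine Subgroup.isOpen_mono (H₁ := MulAction.stabilizer (GF ℚ) ζ) ?_ h1
    intro g hg
    rw [MulAction.mem_stabilizer_iff] at hg
    have h2 : g • z = z ^ 1 := by
      apply RingOfIntegers.ext
      rw [pow_one]
      exact hg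
    have h3 := hval g 1 h2
    rw [MonoidHom.mem_ker]
    show theta p (χ g) = 1
    have h4 : χ g = 1 := Units.ext (by rw [h3]; simp)
    rw [h4, map_one]
  · intro P hP hlP τ hτ
    have h1 := hτ z
    have h2 : τ • z = z := by
      refine root_eq hP.ne_top (hnotmem P hP hlP) ?_ hzl h1 hl0
      rw [← smul_pow', hzl, smul_one]
    have h3 := hval τ 1 (by rw [pow_one, h2])
    show theta p (χ τ) = 1
    have h4 : χ τ = 1 := Units.ext (by rw [h3]; simp)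
    rw [h4, map_one]
  · have hcop : Nat.Coprime (1 + p * 1) (p ^ 2) := by
      apply Nat.Coprime.pow_right
      simp
    have h1 : IsPrimitiveRoot (ζ ^ (1 + p * 1)) (p ^ 2) := hζ.pow_of_coprime _ hcop
    obtain ⟨g, hg⟩ := exists_aut (F := ℚ) (minpoly_root (Nat.pos_of_ne_zero hl0) h1 hζ)
    refine ⟨g, ?_⟩
    have h3 : g • z = z ^ (1 + p * 1) := by
      apply RingOfIntegers.ext
      rw [hzp]
      exact hg
    have h4 := hval g _ h3
    show theta p (χ g) ≠ 1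
    rw [theta_one_add p _ 1 h4]
    intro h5
    have h6 := congrArg Multiplicative.toAdd h5
    rw [toAdd_ofAdd, toAdd_one, Nat.cast_one] at h6
    exact one_ne_zero h6
  · intro q hq hqp s hqs P hP hqP σ hσ
    have hpP : (p : OO ℚ) ∉ P := fun h => hqp (char_unique hP hq hp.out hqP h)
    have h1 := hσ z
    have h2 : σ • z = z ^ q := by
      refine root_eq hP.ne_top (hnotmem P hP hpP) ?_ ?_ h1 hl0
      · rw [← smul_pow', hzl, smul_one]
      · rw [← pow_mul, mul_comm, pow_mul, hzl, one_pow]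
    have h3 := hval σ q h2
    rw [hqs] at h3
    exact theta_one_add p _ s h3
  · intro τ hτ
    have h1 : χ τ ^ (p - 1) = 1 := theta_eq_one p _ hτ
    have h2 : χ (τ ^ (p - 1)) = 1 := by rw [map_pow, h1]
    have : Fact (1 < p ^ 2) := ⟨Nat.one_lt_pow two_ne_zero hp.out.one_lt⟩
    rw [hact, h2, Units.val_one, ZMod.val_one, pow_one]

end

end Pool.Agent.TH831.OT
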