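import Pool.Agent.W569.FM.Layer

/-!
# Two-dimensional representations over `ℤ_p`, up to conjugation over `ℚ_p`
-/

set_option autoImplicit false

namespace Pool.Agent.TH831.OT

open Matrix

/-- the determinant of two vectors -/
def wed {R : Type} [CommRing R] (a b : Fin 2 → R) : R := a 0 * b 1 - a 1 * b 0

theorem wed_mulVec {R : Type} [CommRing R] (Q : Matrix (Fin 2) (Fin 2) R) (a b : Fin 2 → R) :
    wed (Q *ᵥ a) (Q *ᵥ b) = Q.det * wed a b := by
  simp only [wed, Matrix.mulVec, dotProduct, Fin.sum_univ_two, Matrix.det_fin_two]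
  ring

theorem wed_smul_left {R : Type} [CommRing R] (c : R) (a b : Fin 2 → R) :
    wed (c • a) b = c * wed a b := by
  simp only [wed, Pi.smul_apply, smul_eq_mul]; ring

theorem wed_smul_right {R : Type} [CommRing R] (c : R) (a b : Fin 2 → R) :
    wed a (c • b) = c * wed a b := by
  simp only [wed, Pi.smul_apply, smul_eq_mul]; ring

theorem wed_add_left {R : Type} [CommRing R] (a a' b : Fin 2 → R) :
    wed (a + a') b = wed a b + wed a' b := by
  simp only [wed, Pi.add_apply]; ring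

theorem wed_self {R : Type} [CommRing R] (a : Fin 2 → R) : wed a a = 0 := by
  simp only [wed]; ring

/-- the underlying matrix -/
abbrev mt {p : ℕ} [Fact p.Prime] (M : GL (Fin 2) ℤ_[p]) : Matrix (Fin 2) (Fin 2) ℤ_[p] := M

section
variable {p : ℕ} [hp : Fact p.Prime] {G : Type} [Group G]

/-- the elements of `D` preserve a line of `ℚ_p ^ 2` -/
def HasLine (ρ : G →* GL (Fin 2) ℤ_[p]) (D : Set G) : Prop :=
  ∃ v : Fin 2 → ℤ_[p], v ≠ 0 ∧ ∀ g ∈ D, wed (mt (ρ g) *ᵥ v) v = 0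

/-- conjugate over `ℚ_p` -/
def Rel (ρ ρ' : G →* GL (Fin 2) ℤ_[p]) : Prop :=
  ∃ Q : Matrix (Fin 2) (Fin 2) ℤ_[p], Q.det ≠ 0 ∧ ∀ g, Q * mt (ρ g) = mt (ρ' g) * Q

theorem Rel.symm {ρ ρ' : G →* GL (Fin 2) ℤ_[p]} (h : Rel ρ ρ') : Rel ρ' ρ := by
  obtain ⟨Q, hQ, h⟩ := h
  refine ⟨Q.adjugate, ?_, fun g => ?_⟩
  · rw [Matrix.det_adjugate]
    simpa using hQ
  · have h1 : Q.adjugate * (mt (ρ' g) * Q) * Q.adjugate = Q.adjugate * (Q * mt (ρ g)) * Q.adjugate := by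
      rw [h g]
    have h2 : Q.adjugate * (mt (ρ' g) * Q) * Q.adjugate = Q.det • (Q.adjugate * mt (ρ' g)) := by
      rw [mul_assoc, mul_assoc, Matrix.mul_adjugate, Matrix.mul_smul, Matrix.mul_one,
        Matrix.mul_smul]
    have h3 : Q.adjugate * (Q * mt (ρ g)) * Q.adjugate = Q.det • (mt (ρ g) * Q.adjugate) := by
      rw [← mul_assoc, Matrix.adjugate_mul, Matrix.smul_mul, Matrix.one_mul, Matrix.smul_mul]
    rw [h2, h3] at h1
    exact smul_right_injective _ hQ h1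

theorem Rel.trans {ρ ρ' ρ'' : G →* GL (Fin 2) ℤ_[p]} (h : Rel ρ ρ') (h' : Rel ρ' ρ'') :
    Rel ρ ρ'' := by
  obtain ⟨Q, hQ, h⟩ := h
  obtain ⟨Q', hQ', h'⟩ := h'
  refine ⟨Q' * Q, by rw [Matrix.det_mul]; exact mul_ne_zero hQ' hQ, fun g => ?_⟩
  rw [mul_assoc, h g, ← mul_assoc, h' g, mul_assoc]

theorem Rel.det {ρ ρ' : G →* GL (Fin 2) ℤ_[p]} (h : Rel ρ ρ') (g : G) :
    (mt (ρ' g)).det = (mt (ρ g)).det := by
  obtain ⟨Q, hQ, h⟩ := h
  have h1 := congrArg Matrix.det (h g)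
  rw [Matrix.det_mul, Matrix.det_mul, mul_comm] at h1
  exact (mul_right_cancel₀ hQ h1).symm

theorem Rel.trace {ρ ρ' : G →* GL (Fin 2) ℤ_[p]} (h : Rel ρ ρ') (g : G) :
    (mt (ρ' g)).trace = (mt (ρ g)).trace := by
  obtain ⟨Q, hQ, h⟩ := h
  have h1 : (Q * mt (ρ g) * Q.adjugate).trace = (mt (ρ' g) * Q * Q.adjugate).trace := by rw [h g]
  rw [Matrix.trace_mul_comm, ← mul_assoc, Matrix.adjugate_mul, Matrix.smul_mul, Matrix.one_mul,
    mul_assoc, Matrix.mul_adjugate, Matrix.mul_smul, Matrix.mul_one, Matrix.trace_smul,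
    Matrix.trace_smul, smul_eq_mul, smul_eq_mul] at h1
  exact (mul_left_cancel₀ hQ h1).symm

theorem mulVec_ne_zero {Q : Matrix (Fin 2) (Fin 2) ℤ_[p]} (hQ : Q.det ≠ 0) {v : Fin 2 → ℤ_[p]}
    (hv : v ≠ 0) : Q *ᵥ v ≠ 0 := by
  intro h
  apply hv
  have h1 : Q.adjugate *ᵥ (Q *ᵥ v) = 0 := by rw [h, Matrix.mulVec_zero]
  rw [Matrix.mulVec_mulVec, Matrix.adjugate_mul, Matrix.smul_mulVec, Matrix.one_mulVec] at h1
  exact (smul_eq_zero.1 h1).resolve_left hQ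

theorem Rel.line {ρ ρ' : G →* GL (Fin 2) ℤ_[p]} (h : Rel ρ ρ') {D : Set G}
    (hl : HasLine ρ D) : HasLine ρ' D := by
  obtain ⟨Q, hQ, h⟩ := h
  obtain ⟨v, hv, hl⟩ := hl
  refine ⟨Q *ᵥ v, mulVec_ne_zero hQ hv, fun g hg => ?_⟩
  rw [Matrix.mulVec_mulVec, ← h g, ← Matrix.mulVec_mulVec, wed_mulVec, hl g hg, mul_zero]

theorem Rel.unr {ρ ρ' : G →* GL (Fin 2) ℤ_[p]} (h : Rel ρ ρ') {g : G} (hg : ρ g = 1) :
    ρ' g = 1 := by
  obtain ⟨Q, hQ, h⟩ := h
  have h1 := h g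
  rw [hg] at h1
  have h2 : Q * (1 : Matrix (Fin 2) (Fin 2) ℤ_[p]) = mt (ρ' g) * Q := h1
  have h3 : mt (ρ' g) * Q * Q.adjugate = Q * Q.adjugate := by rw [← h2, mul_one]
  rw [mul_assoc, Matrix.mul_adjugate, Matrix.mul_smul, Matrix.mul_one] at h3
  exact Units.ext (smul_right_injective _ hQ h3)

/-- construction of a conjugate representation -/
theorem exists_rel (ρ : G →* GL (Fin 2) ℤ_[p]) (Q : Matrix (Fin 2) (Fin 2) ℤ_[p]) (hQ : Q.det ≠ 0)
    (M : G → Matrix (Fin 2) (Fin 2) ℤ_[p]) (hM : ∀ g, Q * mt (ρ g) = M g * Q) :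
    ∃ ρ' : G →* GL (Fin 2) ℤ_[p], Rel ρ ρ' ∧ ∀ g, mt (ρ' g) = M g := by
  have hcancel : ∀ A B : Matrix (Fin 2) (Fin 2) ℤ_[p], A * Q = B * Q → A = B := by
    intro A B hAB
    have h1 : A * Q * Q.adjugate = B * Q * Q.adjugate := by rw [hAB]
    rw [mul_assoc, mul_assoc, Matrix.mul_adjugate, Matrix.mul_smul, Matrix.mul_smul,
      Matrix.mul_one, Matrix.mul_one] at h1
    exact smul_right_injective _ hQ h1
  have h1 : M 1 = 1 := by
    apply hcancel
    rw [← hM, map_one]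
    show Q * 1 = 1 * Q
    rw [mul_one, one_mul]
  have h2 : ∀ a b, M (a * b) = M a * M b := by
    intro a b
    apply hcancel
    have e : mt (ρ (a * b)) = mt (ρ a) * mt (ρ b) := by
      rw [map_mul]
      rfl
    rw [← hM, e, ← mul_assoc, hM a, mul_assoc, mul_assoc, hM b]
  let M' : G →* Matrix (Fin 2) (Fin 2) ℤ_[p] :=
    { toFun := M, map_one' := h1, map_mul' := h2 }
  refine ⟨M'.toHomUnits, ⟨Q, hQ, fun g => hM g⟩, fun g => rfl⟩

/-- conjugation by a matrix of determinant `1` -/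
theorem exists_conj (ρ : G →* GL (Fin 2) ℤ_[p]) (U : Matrix (Fin 2) (Fin 2) ℤ_[p])
    (hU : U.det = 1) :
    ∃ ρ' : G →* GL (Fin 2) ℤ_[p], Rel ρ ρ' ∧ ∀ g, mt (ρ' g) = U.adjugate * mt (ρ g) * U := by
  refine exists_rel ρ U.adjugate ?_ (fun g => U.adjugate * mt (ρ g) * U) fun g => ?_
  · rw [Matrix.det_adjugate, hU]
    simp
  · rw [mul_assoc _ U, Matrix.mul_adjugate, hU, one_smul, mul_one]

/-- continuity of a conjugate -/
theorem Rel.cont [TopologicalSpace G] [IsTopologicalGroup G] {ρ ρ' : G →* GL (Fin 2) ℤ_[p]}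
    (h : Rel ρ ρ') (hρ : Continuous ρ) : Continuous ρ' := by
  obtain ⟨Q, hQ, h⟩ := h
  have hval : Continuous fun g => mt (ρ' g) := by
    refine continuous_matrix fun i j => ?_
    have h1 : Continuous fun g => (Q * mt (ρ g) * Q.adjugate) i j := by
      have hv : Continuous fun g => mt (ρ g) := Units.continuous_val.comp hρ
      exact ((continuous_const.mul hv).mul continuous_const).matrix_elem i j
    have h2 : ∀ g, ((mt (ρ' g) i j : ℤ_[p]) : ℚ_[p]) =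
        ((Q * mt (ρ g) * Q.adjugate) i j : ℤ_[p]) / (Q.det : ℚ_[p]) := by
      intro g
      have hQ' : ((Q.det : ℤ_[p]) : ℚ_[p]) ≠ 0 := fun h0 => hQ (Subtype.ext h0)
      rw [eq_div_iff hQ', h g, mul_assoc, Matrix.mul_adjugate, Matrix.mul_smul, Matrix.mul_one,
        Matrix.smul_apply, smul_eq_mul]
      push_cast
      ring
    have h3 : Continuous fun g => ((mt (ρ' g) i j : ℤ_[p]) : ℚ_[p]) := by
      simp_rw [h2]
      exact (continuous_subtype_val.comp h1).div_const _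
    exact Topology.IsInducing.subtypeVal.continuous_iff.2 h3
  rw [Units.continuous_iff]
  refine ⟨hval, ?_⟩
  have h3 : (fun g => ((ρ' g)⁻¹ : GL (Fin 2) ℤ_[p]).1) = fun g => mt (ρ' g⁻¹) := by
    funext g
    rw [map_inv]
  show Continuous fun g => ((ρ' g)⁻¹ : GL (Fin 2) ℤ_[p]).1
  rw [h3]
  exact hval.comp continuous_inv

end

end Pool.Agent.TH831.OT
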