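import Pool.Agent.TH831.OT.Lvl

/-!
# The steps: improving the level
-/

set_option autoImplicit false

namespace Pool.Agent.TH831.OT

open Matrix Pool.Agent.W569.FM

/-- the arithmetic input: a group `G` with the elements `γ` (inertia at `p`), `φ` (Frobenius at
`p`), `τ l` (inertia at `l`), `σ l` (Frobenius at `l`) and the characters `psi`, `chi l` -/
structure Ar (p : ℕ) [Fact p.Prime] (G : Type) [Group G] [TopologicalSpace G] (S1 : Finset ℕ)
    (u : ℕ → ZMod p) (lam : ℕ → ℕ → ZMod p) (b : ℕ → ZMod p) (Ur D : Set G) where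
  psi : G → ZMod p
  chi : ℕ → G → ZMod p
  γ : G
  φ : G
  τ : ℕ → G
  σ : ℕ → G
  hγ : γ ∈ D
  hφ : φ ∈ D
  hu : ∀ l ∈ S1, psi (σ l) = u l
  hlam : ∀ l ∈ S1, ∀ j ∈ S1, j ≠ l → chi j (σ l) = lam l j
  hb : ∀ j ∈ S1, chi j φ = b j
  span : ∀ F : G →* Multiplicative (ZMod p), IsOpen (F.ker : Set G) → (∀ g ∈ Ur, F g = 1) →
    ∀ g, Multiplicative.toAdd (F g) = psi g * Multiplicative.toAdd (F γ) +
      ∑ l ∈ S1, chi l g * Multiplicative.toAdd (F (τ l))
  hl : ∀ l ∈ S1, ∃ s : ℕ, l = 1 + p * s ∧ (s : ZMod p) = u l ∧ u l ≠ 0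

section
variable {p : ℕ} [hp : Fact p.Prime] {G : Type} [Group G] [TopologicalSpace G]
  [IsTopologicalGroup G] {S1 : Finset ℕ} {u : ℕ → ZMod p} {lam : ℕ → ℕ → ZMod p} {b : ℕ → ZMod p}
  {Ur D : Set G}

/-- the properties of the representation that are used -/
structure Good (A : Ar p G S1 u lam b Ur D) (t : G → ℤ_[p]) (ρ : G →* GL (Fin 2) ℤ_[p]) :
    Prop where
  cont : Continuous ρ
  unr : ∀ g ∈ Ur, ρ g = 1
  det : ∀ g, (mt (ρ g)).det = 1
  tr : ∀ g, (mt (ρ g)).trace = t g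
  line : HasLine ρ D
  sq : ∀ l ∈ S1, (mt (ρ (A.τ l)) - 1) * (mt (ρ (A.τ l)) - 1) = 0
  rel : ∀ l ∈ S1, mt (ρ (A.σ l)) * (mt (ρ (A.τ l)) - 1) =
    (l : ℤ_[p]) • ((mt (ρ (A.τ l)) - 1) * mt (ρ (A.σ l)))

theorem Good.conj {A : Ar p G S1 u lam b Ur D} {t : G → ℤ_[p]} {ρ ρ' : G →* GL (Fin 2) ℤ_[p]}
    (h : Good A t ρ) (hr : Rel ρ ρ') : Good A t ρ' := by
  have hr' := hr
  obtain ⟨Q, hQ, hQr⟩ := hr
  have hcancel : ∀ A B : Matrix (Fin 2) (Fin 2) ℤ_[p], A * Q = B * Q → A = B := by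
    intro A B hAB
    have h1 : A * Q * Q.adjugate = B * Q * Q.adjugate := by rw [hAB]
    rw [mul_assoc, mul_assoc, Matrix.mul_adjugate, Matrix.mul_smul, Matrix.mul_smul,
      Matrix.mul_one, Matrix.mul_one] at h1
    exact smul_right_injective _ hQ h1
  have hsub : ∀ g, (mt (ρ' g) - 1) * Q = Q * (mt (ρ g) - 1) := by
    intro g
    rw [sub_mul, mul_sub, hQr, one_mul, mul_one]
  refine ⟨hr'.cont h.cont, fun g hg => hr'.unr (h.unr g hg), fun g => ?_, fun g => ?_,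
    hr'.line h.line, fun l hl => ?_, fun l hl => ?_⟩
  · rw [hr'.det, h.det]
  · rw [hr'.trace, h.tr]
  · apply hcancel
    rw [mul_assoc, hsub, ← mul_assoc, hsub, mul_assoc, h.sq l hl, mul_zero, zero_mul]
  · apply hcancel
    rw [mul_assoc, hsub, ← mul_assoc, ← hQr, mul_assoc, h.rel l hl, Matrix.smul_mul, mul_assoc,
      ← hQr, ← mul_assoc, hsub, mul_assoc, Matrix.mul_smul]

omit [IsTopologicalGroup G] in
/-- the primitive local line -/
theorem Good.prim {A : Ar p G S1 u lam b Ur D} {t : G → ℤ_[p]} {ρ : G →* GL (Fin 2) ℤ_[p]}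
    (h : Good A t ρ) : ∃ v : Fin 2 → ℤ_[p], (q (v 0) ≠ 0 ∨ q (v 1) ≠ 0) ∧
      ∀ g ∈ D, wed (mt (ρ g) *ᵥ v) v = 0 := by
  obtain ⟨v, hv, hl⟩ := h.line
  obtain ⟨c, w, hc, rfl, hw⟩ := exists_primitive v hv
  refine ⟨w, hw, fun g hg => ?_⟩
  have h1 := hl g hg
  rw [Matrix.mulVec_smul, wed_smul_left, wed_smul_right] at h1
  rcases mul_eq_zero.1 h1 with h2 | h2
  · exact absurd h2 hc
  · rcases mul_eq_zero.1 h2 with h3 | h3
    · exact absurd h3 hc
    · exact h3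

/-- the condition on the odd levels -/
def H0 (S1 : Finset ℕ) (u : ℕ → ZMod p) (lam : ℕ → ℕ → ZMod p) (b : ℕ → ZMod p) : Prop :=
  ∀ (xp yp : ZMod p) (x y : ℕ → ZMod p), (∀ l ∈ S1, x l * y l = 0) →
    (∀ l ∈ S1, x l * (u l * yp + ∑ j ∈ S1, lam l j * y j) = 0) →
    (∀ l ∈ S1, y l * (u l * xp + ∑ j ∈ S1, lam l j * x j) = 0) →
    ((xp = 0 ∧ ∑ j ∈ S1, b j * x j = 0) ∨ (yp = 0 ∧ ∑ j ∈ S1, b j * y j = 0)) →
    (xp = 0 ∧ ∀ l ∈ S1, x l = 0) ∨ (yp = 0 ∧ ∀ l ∈ S1, y l = 0)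

theorem dvd_cancel {k : ℕ} {x y : ℤ_[p]} (h : (p : ℤ_[p]) ^ k * x = (p : ℤ_[p]) ^ k * y) : x = y :=
  mul_left_cancel₀ (ppow_ne k) h

omit [IsTopologicalGroup G] in
theorem sum_congr_mul {A : Ar p G S1 u lam b Ur D} {l : ℕ} (hl : l ∈ S1) (x y : ℕ → ZMod p)
    (hxy : x l * y l = 0) :
    x l * ∑ j ∈ S1, A.chi j (A.σ l) * y j = x l * ∑ j ∈ S1, lam l j * y j := by
  rw [Finset.mul_sum, Finset.mul_sum]
  refine Finset.sum_congr rfl fun j hj => ?_
  by_cases hjl : j = l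
  · subst hjl
    rw [mul_left_comm, hxy, mul_left_comm, hxy, mul_zero, mul_zero]
  · rw [A.hlam l hl j hj hjl]

/-- improving an odd level -/
theorem od_step {A : Ar p G S1 u lam b Ur D} {t : G → ℤ_[p]} (hH : H0 S1 u lam b)
    {ρ : G →* GL (Fin 2) ℤ_[p]} (hG : Good A t ρ) {m : ℕ} (hOd : Od m ρ) :
    ∃ ρ' : G →* GL (Fin 2) ℤ_[p], Rel ρ ρ' ∧ Ev (m + 1) ρ' := by
  choose a bb c d h using hOd
  have e00 : ∀ g, mt (ρ g) 0 0 = 1 + (p : ℤ_[p]) ^ (m + 1) * a g := fun g => by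
    rw [h g]; simp; ring
  have e01 : ∀ g, mt (ρ g) 0 1 = (p : ℤ_[p]) ^ m * bb g := fun g => by
    rw [h g]; simp
  have e10 : ∀ g, mt (ρ g) 1 0 = (p : ℤ_[p]) ^ (m + 1) * c g := fun g => by
    rw [h g]; simp; ring
  have e11 : ∀ g, mt (ρ g) 1 1 = 1 + (p : ℤ_[p]) ^ (m + 1) * d g := fun g => by
    rw [h g]; simp; ring
  -- the two homomorphisms
  obtain ⟨Fb, hFb1, hFb2, hFb3⟩ := exists_hom ρ hG.cont bb (fun g g' => by
    refine ⟨(p : ℤ_[p]) ^ m * (a g * bb g' + bb g * d g'), ?_⟩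
    apply dvd_cancel (p := p) (k := m)
    have e := congrFun (congrFun (mt_mul ρ g g') 0) 1
    rw [Matrix.mul_apply, Fin.sum_univ_two, e00, e01, e01, e01, e11] at e
    linear_combination e) (m + 2) (fun g ⟨α, hα⟩ => by
    refine ⟨(p : ℤ_[p]) * α 0 1, ?_⟩
    apply dvd_cancel (p := p) (k := m)
    rw [← e01, hα]
    simp
    ring)
  obtain ⟨Fc, hFc1, hFc2, hFc3⟩ := exists_hom ρ hG.cont c (fun g g' => by
    refine ⟨(p : ℤ_[p]) ^ m * (c g * a g' + d g * c g'), ?_⟩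
    apply dvd_cancel (p := p) (k := m + 1)
    have e := congrFun (congrFun (mt_mul ρ g g') 1) 0
    rw [Matrix.mul_apply, Fin.sum_univ_two, e00, e10, e10, e10, e11] at e
    linear_combination e) (m + 2) (fun g ⟨α, hα⟩ => by
    refine ⟨α 1 0, ?_⟩
    apply dvd_cancel (p := p) (k := m + 1)
    rw [← e10, hα]
    simp
    ring)
  have hsb := A.span Fb hFb1 fun g hg => hFb3 g (hG.unr g hg)
  have hsc := A.span Fc hFc1 fun g hg => hFc3 g (hG.unr g hg)
  simp only [hFb2, toAdd_ofAdd] at hsb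
  simp only [hFc2, toAdd_ofAdd] at hsc
  -- the local condition
  have hloc : (∀ g ∈ D, q (bb g) = 0) ∨ (∀ g ∈ D, q (c g) = 0) := by
    obtain ⟨v, hv, hl⟩ := hG.prim
    have hw : ∀ g ∈ D, (p : ℤ_[p]) * a g * v 0 * v 1 + bb g * v 1 ^ 2 -
        (p : ℤ_[p]) * c g * v 0 ^ 2 - (p : ℤ_[p]) * d g * v 0 * v 1 = 0 := by
      intro g hg
      have e := hl g hg
      simp only [wed, Matrix.mulVec, dotProduct, Fin.sum_univ_two, e00, e01, e10, e11] at e
      apply dvd_cancel (p := p) (k := m)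
      rw [mul_zero]
      linear_combination e
    by_cases hv1 : q (v 1) = 0
    · right
      have hv0 : q (v 0) ≠ 0 := by
        rcases hv with h1 | h1
        · exact h1
        · exact absurd hv1 h1
      obtain ⟨w, hw1⟩ := q_eq_zero.1 hv1
      intro g hg
      have e := hw g hg
      have e2 : (p : ℤ_[p]) * (a g * v 0 * w * (p : ℤ_[p]) + bb g * w ^ 2 * (p : ℤ_[p]) -
          c g * v 0 ^ 2 - d g * v 0 * w * (p : ℤ_[p])) = (p : ℤ_[p]) * 0 := by
        rw [mul_zero, ← e, hw1]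
        ring
      have e3 := mul_left_cancel₀ p_ne e2
      have e4 : q (c g * v 0 ^ 2) = 0 := by
        rw [q_eq_zero]
        exact ⟨a g * v 0 * w + bb g * w ^ 2 - d g * v 0 * w, by linear_combination -e3⟩
      have e5 : q (c g) * q (v 0) ^ 2 = 0 := by
        have : q (c g * v 0 ^ 2) = q (c g) * q (v 0) ^ 2 := by rw [q_mul, q_pow]
        rw [← this, e4]
      exact (mul_eq_zero.1 e5).resolve_right (pow_ne_zero 2 hv0)
    · left
      intro g hg
      have e := hw g hg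
      have e4 : q (bb g * v 1 ^ 2) = 0 := by
        rw [q_eq_zero]
        exact ⟨c g * v 0 ^ 2 + d g * v 0 * v 1 - a g * v 0 * v 1, by linear_combination e⟩
      have e5 : q (bb g) * q (v 1) ^ 2 = 0 := by
        have : q (bb g * v 1 ^ 2) = q (bb g) * q (v 1) ^ 2 := by rw [q_mul, q_pow]
        rw [← this, e4]
      exact (mul_eq_zero.1 e5).resolve_right (pow_ne_zero 2 hv1)
  -- the tame relations
  have hsq : ∀ l ∈ S1, (p : ℤ_[p]) * a (A.τ l) ^ 2 + bb (A.τ l) * c (A.τ l) = 0 := by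
    intro l hl
    have e := congrFun (congrFun (hG.sq l hl) 0) 0
    rw [Matrix.mul_apply, Fin.sum_univ_two] at e
    simp only [Matrix.sub_apply, e00, e01, e10, Matrix.one_apply_eq, Matrix.zero_apply, ne_eq,
      zero_ne_one, one_ne_zero, not_false_eq_true, Matrix.one_apply_ne] at e
    apply dvd_cancel (p := p) (k := m + (m + 1))
    rw [mul_zero, pow_add]
    linear_combination e
  have hR : ∀ l ∈ S1,
      ((1 + (p : ℤ_[p]) ^ (m + 1) * a (A.σ l)) * a (A.τ l) +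
        (p : ℤ_[p]) ^ m * bb (A.σ l) * c (A.τ l) =
      (l : ℤ_[p]) * (a (A.τ l) * (1 + (p : ℤ_[p]) ^ (m + 1) * a (A.σ l)) +
        (p : ℤ_[p]) ^ m * bb (A.τ l) * c (A.σ l))) ∧
      ((1 + (p : ℤ_[p]) ^ (m + 1) * a (A.σ l)) * bb (A.τ l) +
        (p : ℤ_[p]) ^ (m + 1) * bb (A.σ l) * d (A.τ l) =
      (l : ℤ_[p]) * ((p : ℤ_[p]) ^ (m + 1) * a (A.τ l) * bb (A.σ l) +
        bb (A.τ l) * (1 + (p : ℤ_[p]) ^ (m + 1) * d (A.σ l)))) ∧
      ((p : ℤ_[p]) ^ (m + 1) * c (A.σ l) * a (A.τ l) +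
        (1 + (p : ℤ_[p]) ^ (m + 1) * d (A.σ l)) * c (A.τ l) =
      (l : ℤ_[p]) * (c (A.τ l) * (1 + (p : ℤ_[p]) ^ (m + 1) * a (A.σ l)) +
        (p : ℤ_[p]) ^ (m + 1) * d (A.τ l) * c (A.σ l))) := by
    intro l hl
    have e := hG.rel l hl
    have r00 := congrFun (congrFun e 0) 0
    have r01 := congrFun (congrFun e 0) 1
    have r10 := congrFun (congrFun e 1) 0
    rw [Matrix.smul_apply, smul_eq_mul, Matrix.mul_apply, Matrix.mul_apply, Fin.sum_univ_two,
      Fin.sum_univ_two] at r00 r01 r10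
    simp only [Matrix.sub_apply, e00, e01, e10, e11, Matrix.one_apply_eq, ne_eq,
      zero_ne_one, one_ne_zero, not_false_eq_true, Matrix.one_apply_ne] at r00 r01 r10
    refine ⟨?_, ?_, ?_⟩
    · apply dvd_cancel (p := p) (k := m + 1)
      linear_combination r00
    · apply dvd_cancel (p := p) (k := m)
      linear_combination r01
    · apply dvd_cancel (p := p) (k := m + 1)
      linear_combination r10
  -- conclusion from vanishing
  have fin : (∀ g, q (bb g) = 0) ∨ (∀ g, q (c g) = 0) →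
      ∃ ρ' : G →* GL (Fin 2) ℤ_[p], Rel ρ ρ' ∧ Ev (m + 1) ρ' := by
    rintro (h1 | h1)
    · exact ⟨ρ, Rel.refl ρ, move3 ρ a bb c d h fun g => q_eq_zero.1 (h1 g)⟩
    · exact move2 ρ a bb c d h fun g => q_eq_zero.1 (h1 g)
  apply fin
  rcases Nat.eq_zero_or_pos m with hm | hm
  · subst hm
    have hxy : ∀ l ∈ S1, q (bb (A.τ l)) * q (c (A.τ l)) = 0 := by
      intro l hl
      have e : q (bb (A.τ l)) * q (c (A.τ l)) = q (bb (A.τ l) * c (A.τ l)) := by rw [q_mul]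
      rw [e, q_eq_zero]
      exact ⟨-(a (A.τ l) ^ 2), by linear_combination hsq l hl⟩
    have hcross : ∀ l ∈ S1, q (bb (A.σ l)) * q (c (A.τ l)) = q (bb (A.τ l)) * q (c (A.σ l)) := by
      intro l hl
      obtain ⟨s, hs, -, -⟩ := A.hl l hl
      have e1 := (hR l hl).1
      have e2 : q (bb (A.σ l) * c (A.τ l) - bb (A.τ l) * c (A.σ l)) = 0 := by
        rw [q_eq_zero]
        have hl' : (l : ℤ_[p]) = 1 + p * s := by
          conv_lhs => rw [hs]
          push_cast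
          rfl
        rw [hl'] at e1
        refine ⟨s * (a (A.τ l) * (1 + (p : ℤ_[p]) * a (A.σ l)) + bb (A.τ l) * c (A.σ l)), ?_⟩
        linear_combination e1
      have e3 : q (bb (A.σ l) * c (A.τ l) - bb (A.τ l) * c (A.σ l)) =
          q (bb (A.σ l)) * q (c (A.τ l)) - q (bb (A.τ l)) * q (c (A.σ l)) := by
        rw [q_sub, q_mul, q_mul]
      rw [e3, sub_eq_zero] at e2
      exact e2
    have h1 : ∀ l ∈ S1, q (bb (A.τ l)) * (u l * q (c A.γ) +
        ∑ j ∈ S1, lam l j * q (c (A.τ j))) = 0 := by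
      intro l hl
      rw [mul_add, ← sum_congr_mul (A := A) hl (fun l => q (bb (A.τ l))) (fun l => q (c (A.τ l)))
        (hxy l hl), ← mul_add, ← A.hu l hl]
      have e := hsc (A.σ l)
      rw [← e, ← hcross l hl]
      by_cases h0 : q (bb (A.τ l)) = 0
      · rw [hcross l hl, h0, zero_mul]
      · rw [(mul_eq_zero.1 (hxy l hl)).resolve_left h0, mul_zero]
    have h2 : ∀ l ∈ S1, q (c (A.τ l)) * (u l * q (bb A.γ) +
        ∑ j ∈ S1, lam l j * q (bb (A.τ j))) = 0 := by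
      intro l hl
      rw [mul_add, ← sum_congr_mul (A := A) hl (fun l => q (c (A.τ l))) (fun l => q (bb (A.τ l)))
        (by rw [mul_comm]; exact hxy l hl), ← mul_add, ← A.hu l hl]
      have e := hsb (A.σ l)
      rw [← e, mul_comm, hcross l hl]
      by_cases h0 : q (bb (A.τ l)) = 0
      · rw [h0, zero_mul]
      · rw [← hcross l hl, (mul_eq_zero.1 (hxy l hl)).resolve_left h0, mul_zero]
    have h3 : (q (bb A.γ) = 0 ∧ ∑ j ∈ S1, b j * q (bb (A.τ j)) = 0) ∨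
        (q (c A.γ) = 0 ∧ ∑ j ∈ S1, b j * q (c (A.τ j)) = 0) := by
      rcases hloc with h4 | h4
      · left
        refine ⟨h4 _ A.hγ, ?_⟩
        have e := hsb A.φ
        rw [h4 _ A.hγ, h4 _ A.hφ, mul_zero, zero_add] at e
        rw [e]
        exact Finset.sum_congr rfl fun j hj => by rw [A.hb j hj]
      · right
        refine ⟨h4 _ A.hγ, ?_⟩
        have e := hsc A.φ
        rw [h4 _ A.hγ, h4 _ A.hφ, mul_zero, zero_add] at e
        rw [e]
        exact Finset.sum_congr rfl fun j hj => by rw [A.hb j hj]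
    rcases hH (q (bb A.γ)) (q (c A.γ)) (fun l => q (bb (A.τ l))) (fun l => q (c (A.τ l))) hxy h1 h2
      h3 with ⟨h4, h5⟩ | ⟨h4, h5⟩
    · left
      intro g
      rw [hsb g, h4, mul_zero, zero_add]
      exact Finset.sum_eq_zero fun l hl => by rw [h5 l hl, mul_zero]
    · right
      intro g
      rw [hsc g, h4, mul_zero, zero_add]
      exact Finset.sum_eq_zero fun l hl => by rw [h5 l hl, mul_zero]
  · obtain ⟨m', rfl⟩ := Nat.exists_eq_add_of_le' hm
    have hz : ∀ l ∈ S1, q (bb (A.τ l)) = 0 ∧ q (c (A.τ l)) = 0 := by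
      intro l hl
      obtain ⟨s, hs, hsu, hu0⟩ := A.hl l hl
      have hl' : (l : ℤ_[p]) = 1 + p * s := by
        conv_lhs => rw [hs]
        push_cast
        rfl
      have hqs : q ((s : ℕ) : ℤ_[p]) ≠ 0 := by
        have : q ((s : ℕ) : ℤ_[p]) = (s : ZMod p) := map_natCast _ s
        rw [this, hsu]
        exact hu0
      obtain ⟨-, e1, e2⟩ := hR l hl
      rw [hl'] at e1 e2
      constructor
      · have e3 : q ((s : ℤ_[p]) * bb (A.τ l)) = 0 := by
          rw [q_eq_zero]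
          have e4 : (p : ℤ_[p]) * ((p : ℤ_[p]) ^ (m' + 1) * (a (A.σ l) * bb (A.τ l) +
              bb (A.σ l) * d (A.τ l) - a (A.τ l) * bb (A.σ l) - bb (A.τ l) * d (A.σ l))) =
              (p : ℤ_[p]) * ((s : ℤ_[p]) * ((p : ℤ_[p]) ^ (m' + 2) * a (A.τ l) * bb (A.σ l) +
                bb (A.τ l) * (1 + (p : ℤ_[p]) ^ (m' + 2) * d (A.σ l)))) := by
            linear_combination e1
          have e5 := mul_left_cancel₀ p_ne e4
          refine ⟨(p : ℤ_[p]) ^ m' * (a (A.σ l) * bb (A.τ l) +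
              bb (A.σ l) * d (A.τ l) - a (A.τ l) * bb (A.σ l) - bb (A.τ l) * d (A.σ l)) -
              (s : ℤ_[p]) * ((p : ℤ_[p]) ^ (m' + 1) * a (A.τ l) * bb (A.σ l) +
                bb (A.τ l) * ((p : ℤ_[p]) ^ (m' + 1) * d (A.σ l))), ?_⟩
          linear_combination -e5
        have e4 : q ((s : ℤ_[p]) * bb (A.τ l)) = q (s : ℤ_[p]) * q (bb (A.τ l)) := by rw [q_mul]
        rw [e4] at e3
        exact (mul_eq_zero.1 e3).resolve_left hqs
      · have e3 : q ((s : ℤ_[p]) * c (A.τ l)) = 0 := by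
          rw [q_eq_zero]
          have e4 : (p : ℤ_[p]) * ((p : ℤ_[p]) ^ (m' + 1) * (c (A.σ l) * a (A.τ l) +
              d (A.σ l) * c (A.τ l) - c (A.τ l) * a (A.σ l) - d (A.τ l) * c (A.σ l))) =
              (p : ℤ_[p]) * ((s : ℤ_[p]) * (c (A.τ l) * (1 + (p : ℤ_[p]) ^ (m' + 2) * a (A.σ l)) +
                (p : ℤ_[p]) ^ (m' + 2) * d (A.τ l) * c (A.σ l))) := by
            linear_combination e2
          have e5 := mul_left_cancel₀ p_ne e4
          refine ⟨(p : ℤ_[p]) ^ m' * (c (A.σ l) * a (A.τ l) +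
              d (A.σ l) * c (A.τ l) - c (A.τ l) * a (A.σ l) - d (A.τ l) * c (A.σ l)) -
              (s : ℤ_[p]) * (c (A.τ l) * ((p : ℤ_[p]) ^ (m' + 1) * a (A.σ l)) +
                (p : ℤ_[p]) ^ (m' + 1) * d (A.τ l) * c (A.σ l)), ?_⟩
          linear_combination -e5
        have e4 : q ((s : ℤ_[p]) * c (A.τ l)) = q (s : ℤ_[p]) * q (c (A.τ l)) := by rw [q_mul]
        rw [e4] at e3
        exact (mul_eq_zero.1 e3).resolve_left hqs
    rcases hloc with h4 | h4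
    · left
      intro g
      rw [hsb g, h4 _ A.hγ, mul_zero, zero_add]
      exact Finset.sum_eq_zero fun l hl => by rw [(hz l hl).1, mul_zero]
    · right
      intro g
      rw [hsc g, h4 _ A.hγ, mul_zero, zero_add]
      exact Finset.sum_eq_zero fun l hl => by rw [(hz l hl).2, mul_zero]

end

end Pool.Agent.TH831.OT
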