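import Pool.Agent.TH831.OT.Step2

/-!
# The steps: even levels, continued
-/

set_option autoImplicit false

namespace Pool.Agent.TH831.OT

open Matrix Pool.Agent.W569.FM

section
variable {p : ℕ} [hp : Fact p.Prime] {G : Type} [Group G] [TopologicalSpace G]
  [IsTopologicalGroup G] {S1 : Finset ℕ} {u : ℕ → ZMod p} {lam : ℕ → ℕ → ZMod p} {b : ℕ → ZMod p}
  {Ur D : Set G}

omit [TopologicalSpace G] [IsTopologicalGroup G] in
theorem ev_mul {ρ : G →* GL (Fin 2) ℤ_[p]} {k : ℕ} {X : G → Matrix (Fin 2) (Fin 2) ℤ_[p]}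
    (hX : ∀ g, mt (ρ g) = 1 + (p : ℤ_[p]) ^ k • X g) (g h : G) :
    X (g * h) = X g + X h + (p : ℤ_[p]) ^ k • (X g * X h) := by
  have e := mt_mul ρ g h
  rw [hX, hX, hX] at e
  have e2 : (p : ℤ_[p]) ^ k • X (g * h) =
      (p : ℤ_[p]) ^ k • (X g + X h + (p : ℤ_[p]) ^ k • (X g * X h)) := by
    apply add_left_cancel (a := (1 : Matrix (Fin 2) (Fin 2) ℤ_[p]))
    rw [e]
    simp only [mul_add, add_mul, mul_one, one_mul, Matrix.smul_mul, Matrix.mul_smul, smul_smul,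
      smul_add]
    abel
  exact smul_cancel e2

/-- span formula for the entries of the layer -/
theorem span_entry (A : Ar p G S1 u lam b Ur D) {t : G → ℤ_[p]} {ρ : G →* GL (Fin 2) ℤ_[p]}
    (hG : Good A t ρ) {k : ℕ} (hk : 1 ≤ k) {X : G → Matrix (Fin 2) (Fin 2) ℤ_[p]}
    (hX : ∀ g, mt (ρ g) = 1 + (p : ℤ_[p]) ^ k • X g) (i j : Fin 2) (g : G) :
    q (X g i j) = A.psi g * q (X A.γ i j) + ∑ l ∈ S1, A.chi l g * q (X (A.τ l) i j) := by
  obtain ⟨F, hF1, hF2, hF3⟩ := exists_hom ρ hG.cont (fun g => X g i j) (fun g h => by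
    obtain ⟨k', rfl⟩ := Nat.exists_eq_add_of_le' hk
    refine ⟨(p : ℤ_[p]) ^ k' * (X g * X h) i j, ?_⟩
    rw [ev_mul hX g h, Matrix.add_apply, Matrix.add_apply, Matrix.smul_apply, smul_eq_mul]
    ring) (k + 1) (fun g ⟨α, hα⟩ => by
    refine ⟨α i j, ?_⟩
    apply dvd_cancel (p := p) (k := k)
    rw [hX] at hα
    have e0 := add_left_cancel hα
    have e := congrFun (congrFun e0 i) j
    rw [Matrix.smul_apply, Matrix.smul_apply, smul_eq_mul, smul_eq_mul] at e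
    rw [e]
    ring)
  have e := A.span F hF1 (fun g hg => hF3 g (hG.unr g hg)) g
  simp only [hF2, toAdd_ofAdd] at e
  exact e

omit [IsTopologicalGroup G] in
/-- the tame relation at an even level -/
theorem ev_tame (A : Ar p G S1 u lam b Ur D) {t : G → ℤ_[p]} {ρ : G →* GL (Fin 2) ℤ_[p]}
    (hG : Good A t ρ) {k : ℕ} {X : G → Matrix (Fin 2) (Fin 2) ℤ_[p]}
    (hX : ∀ g, mt (ρ g) = 1 + (p : ℤ_[p]) ^ k • X g) {l : ℕ} (hl : l ∈ S1) :
    X (A.τ l) * X (A.τ l) = 0 ∧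
      X (A.τ l) + (p : ℤ_[p]) ^ k • (X (A.σ l) * X (A.τ l)) =
        (l : ℤ_[p]) • (X (A.τ l) + (p : ℤ_[p]) ^ k • (X (A.τ l) * X (A.σ l))) := by
  have e0 : mt (ρ (A.τ l)) - 1 = (p : ℤ_[p]) ^ k • X (A.τ l) := by
    rw [hX]
    abel
  constructor
  · have e := hG.sq l hl
    rw [e0, Matrix.smul_mul, Matrix.mul_smul, smul_smul] at e
    exact (smul_eq_zero.1 e).resolve_left (mul_ne_zero (ppow_ne k) (ppow_ne k))
  · have e := hG.rel l hl
    rw [e0, hX (A.σ l)] at e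
    apply smul_cancel (p := p) (N := k)
    have e1 : (1 + (p : ℤ_[p]) ^ k • X (A.σ l)) * (p : ℤ_[p]) ^ k • X (A.τ l) =
        (p : ℤ_[p]) ^ k • (X (A.τ l) + (p : ℤ_[p]) ^ k • (X (A.σ l) * X (A.τ l))) := by
      simp only [add_mul, one_mul, Matrix.smul_mul, Matrix.mul_smul, smul_smul, smul_add]
    have e2 : (p : ℤ_[p]) ^ k • X (A.τ l) * (1 + (p : ℤ_[p]) ^ k • X (A.σ l)) =
        (p : ℤ_[p]) ^ k • (X (A.τ l) + (p : ℤ_[p]) ^ k • (X (A.τ l) * X (A.σ l))) := by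
      simp only [mul_add, mul_one, Matrix.smul_mul, Matrix.mul_smul, smul_smul, smul_add]
    rw [← e1, e, e2, smul_comm]

omit [TopologicalSpace G] [IsTopologicalGroup G] in
/-- the trace of the layer is divisible by `p` -/
theorem ev_trace {ρ : G →* GL (Fin 2) ℤ_[p]} {k : ℕ} (hk : 1 ≤ k)
    {X : G → Matrix (Fin 2) (Fin 2) ℤ_[p]} (hX : ∀ g, mt (ρ g) = 1 + (p : ℤ_[p]) ^ k • X g)
    (hdet : ∀ g, (mt (ρ g)).det = 1) (g : G) : (p : ℤ_[p]) ∣ (X g).trace := by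
  have e := hdet g
  rw [hX, Matrix.det_fin_two] at e
  simp only [Matrix.add_apply, Matrix.smul_apply, smul_eq_mul, Matrix.one_apply_eq, ne_eq,
      zero_ne_one, one_ne_zero, not_false_eq_true, Matrix.one_apply_ne] at e
  obtain ⟨k', rfl⟩ := Nat.exists_eq_add_of_le' hk
  refine ⟨-((p : ℤ_[p]) ^ k' * (X g 0 0 * X g 1 1 - X g 0 1 * X g 1 0)), ?_⟩
  apply dvd_cancel (p := p) (k := k' + 1)
  rw [Matrix.trace_fin_two]
  linear_combination e

omit [IsTopologicalGroup G] in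
theorem ev_tame_red (A : Ar p G S1 u lam b Ur D) {t : G → ℤ_[p]} {ρ : G →* GL (Fin 2) ℤ_[p]}
    (hG : Good A t ρ) {k : ℕ} (hk : 1 ≤ k) {X : G → Matrix (Fin 2) (Fin 2) ℤ_[p]}
    (hX : ∀ g, mt (ρ g) = 1 + (p : ℤ_[p]) ^ k • X g) {l : ℕ} (hl : l ∈ S1) :
    (k = 1 ∧ red p 2 (X (A.σ l)) * red p 2 (X (A.τ l)) - red p 2 (X (A.τ l)) *
      red p 2 (X (A.σ l)) = u l • red p 2 (X (A.τ l))) ∨
    (2 ≤ k ∧ red p 2 (X (A.τ l)) = 0) := by
  obtain ⟨s, hs, hsu, hu0⟩ := A.hl l hl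
  have hl' : (l : ℤ_[p]) = 1 + p * s := by
    conv_lhs => rw [hs]
    push_cast
    rfl
  have e := (ev_tame A hG hX hl).2
  rw [hl'] at e
  obtain ⟨k', rfl⟩ := Nat.exists_eq_add_of_le' hk
  have e1 : (p : ℤ_[p]) ^ 1 • ((p : ℤ_[p]) ^ k' • (X (A.σ l) * X (A.τ l) - X (A.τ l) * X (A.σ l))) =
      (p : ℤ_[p]) ^ 1 • ((s : ℤ_[p]) •
        (X (A.τ l) + (p : ℤ_[p]) ^ (k' + 1) • (X (A.τ l) * X (A.σ l)))) := by
    rw [add_smul, one_smul, add_assoc, add_right_inj] at e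
    rw [pow_one, smul_smul, ← pow_succ', smul_sub, e, smul_smul]
    abel
  have e2 := smul_cancel e1
  have e3 := congrArg (red p 2) e2
  rw [red_smul, red_smul, map_sub, map_mul, map_mul, map_add, red_smul, map_pow, map_pow, toZMod_p,
    zero_pow (Nat.succ_ne_zero k'), zero_smul, add_zero, map_natCast, hsu] at e3
  rcases Nat.eq_zero_or_pos k' with h0 | h0
  · left
    subst h0
    rw [pow_zero, one_smul] at e3
    exact ⟨rfl, e3⟩
  · right
    rw [zero_pow h0.ne', zero_smul] at e3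
    exact ⟨by omega, (smul_eq_zero.1 e3.symm).resolve_left hu0⟩

/-- off-diagonal entries when `ρ γ` is diagonal -/
theorem offdiag (A : Ar p G S1 u lam b Ur D) {t : G → ℤ_[p]} {ρ : G →* GL (Fin 2) ℤ_[p]}
    (hG : Good A t ρ) {k : ℕ} (hk : 1 ≤ k) {X : G → Matrix (Fin 2) (Fin 2) ℤ_[p]}
    (hX : ∀ g, mt (ρ g) = 1 + (p : ℤ_[p]) ^ k • X g)
    (hT : ∀ l ∈ S1, q (X (A.τ l) 0 0) = 0) (i j : Fin 2) (hij : i ≠ j)
    (hγ : X A.γ i j = 0) (hex : ∃ g, X g i j ≠ 0) :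
    q (X A.γ i i) - q (X A.γ j j) = 1 := by
  classical
  -- the diagonals of the layer on tame inertia
  have hT' : ∀ l ∈ S1, ∀ i, q (X (A.τ l) i i) = 0 := by
    intro l hl i
    have h0 := hT l hl
    have e := congrArg (red p 2) (ev_tame A hG hX hl).1
    rw [map_mul, map_zero] at e
    have e0 := congrFun (congrFun e 0) 0
    have e1 := congrFun (congrFun e 1) 1
    rw [Matrix.mul_apply, Fin.sum_univ_two] at e0 e1
    have r : ∀ i j, red p 2 (X (A.τ l)) i j = q (X (A.τ l) i j) := fun i j => rfl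
    rw [r, r, r, h0, Matrix.zero_apply] at e0
    rw [r, r, r, Matrix.zero_apply] at e1
    fin_cases i
    · exact h0
    · have e2 : q (X (A.τ l) 1 1) * q (X (A.τ l) 1 1) = 0 := by
        linear_combination e1 - e0
      exact mul_self_eq_zero.1 e2
  -- minimal valuation
  have hz : ∀ x : ℤ_[p], x ≠ 0 → ∃ n : ℕ, ¬ (p : ℤ_[p]) ^ (n + 1) ∣ x := by
    intro x hx
    have hf : FiniteMultiplicity (p : ℤ_[p]) x := FiniteMultiplicity.of_prime_left prime_p hx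
    obtain ⟨n, hn⟩ := hf
    exact ⟨n, hn⟩
  have hex' : ∃ n : ℕ, ∃ g, ¬ (p : ℤ_[p]) ^ (n + 1) ∣ X g i j := by
    obtain ⟨g, hg⟩ := hex
    obtain ⟨n, hn⟩ := hz _ hg
    exact ⟨n, g, hn⟩
  set B := Nat.find hex' with hB
  obtain ⟨g0, hg0⟩ : ∃ g, ¬ (p : ℤ_[p]) ^ (B + 1) ∣ X g i j := Nat.find_spec hex'
  have hall : ∀ g, (p : ℤ_[p]) ^ B ∣ X g i j := by
    intro g
    rcases Nat.eq_zero_or_pos B with h0 | h0
    · rw [h0, pow_zero]
      exact one_dvd _
    · have h1 := Nat.find_min hex' (m := B - 1) (by omega)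
      push Not at h1
      have h2 := h1 g
      rwa [Nat.sub_add_cancel h0] at h2
  choose f hf using hall
  have hmul : ∀ g h, (X g * X h) i j = X g i i * X h i j + X g i j * X h j j := by
    intro g h
    rw [Matrix.mul_apply, Fin.sum_univ_two]
    fin_cases i <;> fin_cases j
    · exact absurd rfl hij
    · rfl
    · exact add_comm _ _
    · exact absurd rfl hij
  obtain ⟨F, hF1, hF2, hF3⟩ := exists_hom ρ hG.cont f (fun g h => by
    obtain ⟨k', rfl⟩ := Nat.exists_eq_add_of_le' hk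
    refine ⟨(p : ℤ_[p]) ^ k' * (X g i i * f h + f g * X h j j), ?_⟩
    apply dvd_cancel (p := p) (k := B)
    have e := congrFun (congrFun (ev_mul hX g h) i) j
    rw [Matrix.add_apply, Matrix.add_apply, Matrix.smul_apply, smul_eq_mul, hmul, hf, hf g,
      hf h] at e
    linear_combination e) (k + B + 1) (fun g ⟨α, hα⟩ => by
    refine ⟨α i j, ?_⟩
    apply dvd_cancel (p := p) (k := k + B)
    rw [hX] at hα
    have e0 := add_left_cancel hα
    have e := congrFun (congrFun e0 i) j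
    rw [Matrix.smul_apply, Matrix.smul_apply, smul_eq_mul, smul_eq_mul, hf g] at e
    linear_combination e)
  have hspan := A.span F hF1 (fun g hg => hF3 g (hG.unr g hg))
  simp only [hF2, toAdd_ofAdd] at hspan
  have hfγ : f A.γ = 0 := by
    have e := hf A.γ
    rw [hγ] at e
    exact (mul_eq_zero.1 e.symm).resolve_left (ppow_ne B)
  have hfg0 : q (f g0) ≠ 0 := by
    intro h0
    obtain ⟨c, hc⟩ := q_eq_zero.1 h0
    exact hg0 ⟨c, by rw [hf g0, hc]; ring⟩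
  obtain ⟨l, hl, hfl⟩ : ∃ l ∈ S1, q (f (A.τ l)) ≠ 0 := by
    by_contra hcon
    push Not at hcon
    apply hfg0
    rw [hspan g0, hfγ, q_zero, mul_zero, zero_add]
    exact Finset.sum_eq_zero fun l hl => by rw [hcon l hl, mul_zero]
  -- the relation
  obtain ⟨s, hs, hsu, hu0⟩ := A.hl l hl
  have hl' : (l : ℤ_[p]) = 1 + p * s := by
    conv_lhs => rw [hs]
    push_cast
    rfl
  have e := congrFun (congrFun (ev_tame A hG hX hl).2 i) j
  rw [Matrix.smul_apply, Matrix.add_apply, Matrix.add_apply, Matrix.smul_apply, Matrix.smul_apply,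
    smul_eq_mul, smul_eq_mul, smul_eq_mul, hmul, hmul, hf (A.τ l), hf (A.σ l), hl'] at e
  obtain ⟨k', rfl⟩ := Nat.exists_eq_add_of_le' hk
  have e1 : (p : ℤ_[p]) ^ k' * (X (A.σ l) i i * f (A.τ l) + f (A.σ l) * X (A.τ l) j j -
      X (A.τ l) i i * f (A.σ l) - f (A.τ l) * X (A.σ l) j j) =
      s * (f (A.τ l) + (p : ℤ_[p]) ^ (k' + 1) * (X (A.τ l) i i * f (A.σ l) +
        f (A.τ l) * X (A.σ l) j j)) := by
    apply dvd_cancel (p := p) (k := B + 1)
    linear_combination e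
  have e2 := congrArg q e1
  rw [q_mul, q_mul, q_sub, q_sub, q_add, q_add, q_mul, q_mul, q_mul, q_mul, q_mul, q_natCast, hsu,
    q_pow, q_pow, hT' l hl i, hT' l hl j] at e2
  have hqp : q (p : ℤ_[p]) = 0 := toZMod_p
  rw [hqp, zero_pow (Nat.succ_ne_zero k')] at e2
  replace e2 : (0 : ZMod p) ^ k' * (q (X (A.σ l) i i) * q (f (A.τ l)) -
      q (f (A.τ l)) * q (X (A.σ l) j j)) = u l * q (f (A.τ l)) := by
    linear_combination e2
  rcases Nat.eq_zero_or_pos k' with h0 | h0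
  · rw [h0, pow_zero, one_mul] at e2
    have e3 : q (X (A.σ l) i i) - q (X (A.σ l) j j) = u l := by
      apply mul_left_cancel₀ hfl
      linear_combination e2
    have hsii := span_entry A hG hk hX i i (A.σ l)
    have hsjj := span_entry A hG hk hX j j (A.σ l)
    rw [Finset.sum_eq_zero (fun l' hl' => by rw [hT' l' hl' i, mul_zero]), add_zero,
      A.hu l hl] at hsii
    rw [Finset.sum_eq_zero (fun l' hl' => by rw [hT' l' hl' j, mul_zero]), add_zero,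
      A.hu l hl] at hsjj
    rw [hsii, hsjj] at e3
    apply mul_left_cancel₀ hu0
    linear_combination e3
  · exfalso
    rw [zero_pow h0.ne', zero_mul] at e2
    rcases mul_eq_zero.1 e2.symm with h | h
    · exact hu0 h
    · exact hfl h

/-- the second stage -/
theorem stage2 (hp2 : p ≠ 2) (A : Ar p G S1 u lam b Ur D) {t : G → ℤ_[p]}
    {ρ : G →* GL (Fin 2) ℤ_[p]}
    (hG : Good A t ρ) {k : ℕ} (hk : 1 ≤ k) {X : G → Matrix (Fin 2) (Fin 2) ℤ_[p]}
    (hX : ∀ g, mt (ρ g) = 1 + (p : ℤ_[p]) ^ k • X g)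
    (hT : ∀ l ∈ S1, q (X (A.τ l) 0 0) = 0)
    (hγ : X A.γ 0 1 = 0) (hγ' : X A.γ 1 0 = 0) : HasLine ρ Set.univ := by
  by_cases h01 : ∃ g, X g 0 1 ≠ 0
  · by_cases h10 : ∃ g, X g 1 0 ≠ 0
    · exfalso
      have e1 := offdiag A hG hk hX hT 0 1 (by decide) hγ h01
      have e2 := offdiag A hG hk hX hT 1 0 (by decide) hγ' h10
      have e3 : (2 : ZMod p) = 0 := by linear_combination -e1 - e2
      have h3p : 3 ≤ p := by
        have := hp.out.two_le
        omega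
      have e4 : ((2 : ℕ) : ZMod p) = 0 := by exact_mod_cast e3
      have := Nat.le_of_dvd two_pos ((ZMod.natCast_eq_zero_iff 2 p).1 e4)
      omega
    · push Not at h10
      refine ⟨Pi.single 0 1, fun h => by simpa using congrFun h 0, fun g _ => ?_⟩
      have e : mt (ρ g) 1 0 = 0 := by
        rw [hX g]; simp [h10 g]
      simp [wed, Matrix.col, e]
  · push Not at h01
    refine ⟨Pi.single 1 1, fun h => by simpa using congrFun h 1, fun g _ => ?_⟩
    have e : mt (ρ g) 0 1 = 0 := by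
      rw [hX g]; simp [h01 g]
    simp [wed, Matrix.col, e]

/-- the condition on the even levels -/
def H1 (S1 : Finset ℕ) (u : ℕ → ZMod p) (lam : ℕ → ℕ → ZMod p) (b : ℕ → ZMod p) : Prop :=
  ∀ (C : Matrix (Fin 2) (Fin 2) (ZMod p)) (T : ℕ → Matrix (Fin 2) (Fin 2) (ZMod p)),
    C.trace = 0 → (∀ l ∈ S1, T l * T l = 0) →
    (∀ l ∈ S1, (u l • C + ∑ j ∈ S1, lam l j • T j) * T l -
      T l * (u l • C + ∑ j ∈ S1, lam l j • T j) = u l • T l) →
    (∃ v : Fin 2 → ZMod p, v ≠ 0 ∧ wed (C *ᵥ v) v = 0 ∧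
      wed ((∑ j ∈ S1, b j • T j) *ᵥ v) v = 0) →
    ∃ w : Fin 2 → ZMod p, w ≠ 0 ∧ wed (C *ᵥ w) w = 0 ∧ ∀ l ∈ S1, T l *ᵥ w = 0

end

end Pool.Agent.TH831.OT
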