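import Pool.Agent.TH831.OT.Gal
import Pool.Agent.W880.UF2.Tri

/-!
# Reduction to determinant one, and the final assembly
-/

set_option autoImplicit false

namespace Pool.Agent.TH831.OT

open NumberField Matrix Pool.Agent.W569.FM Pool.Agent.W134.FM

section
variable {p : ℕ} [hp : Fact p.Prime]

theorem norm_of_q {x : ℤ_[p]} (h : q x ≠ 0) : ‖x‖ = 1 := PadicInt.isUnit_iff.1 (isUnit_of_q h)

theorem sqrt_unique (hp2 : p ≠ 2) {s t : ℤ_[p]} (hs : q s = 1) (ht : q t = 1)
    (h : s * s = t * t) : s = t := by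
  have h1 : (s - t) * (s + t) = 0 := by linear_combination h
  rcases mul_eq_zero.1 h1 with h2 | h2
  · exact sub_eq_zero.1 h2
  · exfalso
    have h3 := congrArg q h2
    rw [q_add, hs, ht, q_zero] at h3
    exact two_ne hp2 (by linear_combination h3)

theorem exists_sqrt (hp2 : p ≠ 2) (d : ℤ_[p]) (hd : q d = 1) : ∃ s : ℤ_[p], s * s = d ∧ q s = 1 := by
  have h2 : q (2 : ℤ_[p]) = 2 := by
    have := q_natCast (p := p) 2
    simpa using this
  have hn2 : ‖(2 : ℤ_[p])‖ = 1 := norm_of_q (by rw [h2]; exact two_ne hp2)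
  have hlt : ‖(1 : ℤ_[p]) - d‖ < 1 := by
    rw [PadicInt.norm_lt_one_iff_dvd, ← q_eq_zero, q_sub, q_one, hd, sub_self]
  obtain ⟨s, hs, hs1, -⟩ := hensels_lemma (p := p) (R := ℤ_[p])
    (F := Polynomial.X ^ 2 - Polynomial.C d) (a := 1) (by
      simp only [Polynomial.derivative_X_pow, Polynomial.derivative_C,
        map_sub, map_pow, Polynomial.aeval_X, Polynomial.aeval_C]
      simp
      rw [hn2]
      simpa using hlt)
  refine ⟨s, ?_, ?_⟩
  · have h3 : s ^ 2 - d = 0 := by simpa using hs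
    linear_combination h3
  · have h3 : ‖s - 1‖ < 1 := by
      refine lt_of_lt_of_le hs1 ?_
      exact PadicInt.norm_le_one _
    rw [PadicInt.norm_lt_one_iff_dvd, ← q_eq_zero, q_sub, q_one] at h3
    exact sub_eq_zero.1 h3

theorem sqrt_norm (hp2 : p ≠ 2) {s t : ℤ_[p]} (hs : q s = 1) (ht : q t = 1) :
    ‖s - t‖ = ‖s * s - t * t‖ := by
  have h1 : s * s - t * t = (s - t) * (s + t) := by ring
  have h2 : ‖s + t‖ = 1 := by
    apply norm_of_q
    rw [q_add, hs, ht]
    intro h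
    exact two_ne hp2 (by linear_combination h)
  rw [h1, norm_mul, h2, mul_one]

variable {G : Type} [Group G]

theorem resUnip_sq {ρ : G →* GL (Fin 2) ℤ_[p]} (hres : ResUnip ρ) (g : G) :
    (red p 2 (mt (ρ g)) - 1) * (red p 2 (mt (ρ g)) - 1) = 0 := by
  apply sq_zero_of_nil
  obtain ⟨N, β, h⟩ := hres g
  refine ⟨N, ?_⟩
  have h1 := congrArg (red p 2) h
  rw [map_pow, map_sub, map_one, red_smul, toZMod_p, zero_smul] at h1
  exact h1

theorem det_of_sq {K : Type} [Field K] {M : Matrix (Fin 2) (Fin 2) K}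
    (h : (M - 1) * (M - 1) = 0) : M.det = 1 := by
  have h1 : (M - 1).trace = 0 := trace_zero_of_sq h
  have h2 : (M - 1).det = 0 := by
    have h3 := congrArg Matrix.det h
    rw [Matrix.det_mul, Matrix.det_zero] at h3
    exact mul_self_eq_zero.1 h3
  rw [Matrix.trace_fin_two] at h1
  rw [Matrix.det_fin_two] at h2 ⊢
  simp only [Matrix.sub_apply, Matrix.one_apply_eq, ne_eq,
      zero_ne_one, one_ne_zero, not_false_eq_true, Matrix.one_apply_ne] at h1 h2
  linear_combination h1 + h2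

theorem q_det {ρ : G →* GL (Fin 2) ℤ_[p]} (hres : ResUnip ρ) (g : G) :
    q (mt (ρ g)).det = 1 := by
  have h1 := det_of_sq (resUnip_sq hres g)
  rw [Matrix.det_fin_two, red_apply, red_apply, red_apply, red_apply] at h1
  rw [Matrix.det_fin_two, q_sub, q_mul, q_mul]
  exact h1

/-- twist to determinant one -/
theorem exists_twist [TopologicalSpace G] [IsTopologicalGroup G] (hp2 : p ≠ 2)
    {ρ : G →* GL (Fin 2) ℤ_[p]} (hρ : Continuous ρ) (hres : ResUnip ρ) :
    ∃ (ρ' : G →* GL (Fin 2) ℤ_[p]) (s : G → ℤ_[p]), Continuous ρ' ∧ ResUnip ρ' ∧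
      (∀ g, s g ≠ 0) ∧ (∀ g, mt (ρ' g) = s g • mt (ρ g)) ∧ (∀ g, (mt (ρ' g)).det = 1) ∧
      ∀ g, ρ g = 1 → ρ' g = 1 := by
  have h1 : ∀ g : G, ∃ s : ℤ_[p], s * s = (mt (ρ g⁻¹)).det ∧ q s = 1 := fun g =>
    exists_sqrt hp2 _ (q_det hres _)
  choose s hs hs1 using h1
  have hs0 : ∀ g, s g ≠ 0 := by
    intro g h
    have := hs1 g
    rw [h, q_zero] at this
    exact zero_ne_one this
  have hmul : ∀ g h, s (g * h) = s g * s h := by
    intro g h
    apply sqrt_unique hp2 (hs1 _)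
    · rw [q_mul, hs1, hs1, one_mul]
    · rw [hs, _root_.mul_inv_rev, mt_mul, Matrix.det_mul, ← hs, ← hs]
      ring
  have hone : s 1 = 1 := by
    apply sqrt_unique hp2 (hs1 _) q_one
    rw [hs, inv_one, map_one, mt_one, Matrix.det_one, one_mul]
  let M : G →* Matrix (Fin 2) (Fin 2) ℤ_[p] :=
    { toFun := fun g => s g • mt (ρ g)
      map_one' := by rw [hone, map_one, mt_one, one_smul]
      map_mul' := fun g h => by
        rw [hmul, mt_mul, Matrix.smul_mul, Matrix.mul_smul, smul_smul] }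
  have hM : ∀ g, M g = s g • mt (ρ g) := fun g => rfl
  have hdet : ∀ g, (s g • mt (ρ g)).det = 1 := by
    intro g
    rw [Matrix.det_smul, Fintype.card_fin, pow_two, hs]
    have h2 : mt (ρ g⁻¹) * mt (ρ g) = 1 := by
      rw [← mt_mul, inv_mul_cancel, map_one, mt_one]
    have h3 := congrArg Matrix.det h2
    rwa [Matrix.det_mul, Matrix.det_one] at h3
  have hscont : Continuous s := by
    rw [continuous_iff_continuousAt]
    intro g
    rw [ContinuousAt, tendsto_iff_dist_tendsto_zero]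
    have hD : Continuous fun g : G => (mt (ρ g⁻¹)).det := by
      have hv : Continuous fun g => mt (ρ g) := Units.continuous_val.comp hρ
      exact (hv.comp continuous_inv).matrix_det
    have h2 := (hD.tendsto g)
    rw [tendsto_iff_dist_tendsto_zero] at h2
    refine h2.congr fun h => ?_
    rw [dist_eq_norm, dist_eq_norm, sqrt_norm hp2 (hs1 h) (hs1 g), hs, hs]
  have hval : ∀ g, mt (M.toHomUnits g) = s g • mt (ρ g) := fun g => rfl
  have hcont : Continuous fun g => mt (M.toHomUnits g) := by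
    have hv : Continuous fun g => mt (ρ g) := Units.continuous_val.comp hρ
    exact hscont.smul hv
  refine ⟨M.toHomUnits, s, ?_, fun g => ?_, hs0, hval, fun g => ?_, fun g hg => ?_⟩
  · rw [Units.continuous_iff]
    refine ⟨hcont, ?_⟩
    have h3 : (fun g => ((M.toHomUnits g)⁻¹ : GL (Fin 2) ℤ_[p]).1) =
        fun g => mt (M.toHomUnits g⁻¹) := by
      funext g
      rw [map_inv]
    show Continuous fun g => ((M.toHomUnits g)⁻¹ : GL (Fin 2) ℤ_[p]).1
    rw [h3]
    exact hcont.comp continuous_inv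
  · have h2 : red p 2 ((mt (M.toHomUnits g) - 1) ^ 2) = 0 := by
      rw [map_pow, map_sub, map_one, hval, red_smul]
      have : PadicInt.toZMod (s g) = 1 := hs1 g
      rw [this, one_smul, pow_two]
      exact resUnip_sq hres g
    obtain ⟨β, hβ⟩ := red_eq_zero h2
    exact ⟨2, β, hβ⟩
  · rw [hval]
    exact hdet g
  · have h2 : s g = 1 := by
      apply sqrt_unique hp2 (hs1 _) q_one
      rw [hs, map_inv, hg, inv_one, mt_one, Matrix.det_one, one_mul]
    apply Units.ext
    show s g • mt (ρ g) = 1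
    rw [h2, hg, mt_one, one_smul]

/-- conjugation into the pro-`p` Iwahori subgroup -/
theorem exists_od {ρ : G →* GL (Fin 2) ℤ_[p]} (hres : ResUnip ρ) :
    ∃ ρ' : G →* GL (Fin 2) ℤ_[p], Rel ρ ρ' ∧ Od 0 ρ' := by
  have hmem : ∀ x : ℤ_[p], x ∈ IsLocalRing.maximalIdeal ℤ_[p] ↔ (p : ℤ_[p]) ∣ x := by
    intro x
    rw [PadicInt.maximalIdeal_eq_span_p, Ideal.mem_span_singleton]
  have hfin : Finite (IsLocalRing.ResidueField ℤ_[p]) := by
    have e := PadicInt.residueField (p := p)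
    have : Finite (ZMod p) := inferInstance
    exact Finite.of_equiv (ZMod p) e.toEquiv.symm
  obtain ⟨Q, hQ⟩ := Pool.Agent.W880.UF2.tri p hp.out ℤ_[p] hfin ((hmem _).2 dvd_rfl) 2 G ρ
    (fun g => by
      obtain ⟨N, β, h⟩ := hres g
      refine ⟨N, fun i j => ?_⟩
      rw [h, Matrix.smul_apply, smul_eq_mul, hmem]
      exact dvd_mul_right _ _)
  have hQdet : (mt Q).det ≠ 0 := by
    have h1 : mt Q * mt Q⁻¹ = 1 := by
      show (Q * Q⁻¹ : GL (Fin 2) ℤ_[p]).1 = 1
      rw [mul_inv_cancel]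
      rfl
    have h2 := congrArg Matrix.det h1
    rw [Matrix.det_mul, Matrix.det_one] at h2
    intro h0
    rw [h0, zero_mul] at h2
    exact zero_ne_one h2
  obtain ⟨ρ', hρ', h⟩ := exists_rel ρ (mt Q) hQdet (fun g => mt (Q * ρ g * Q⁻¹)) (fun g => by
    show mt Q * mt (ρ g) = (Q * ρ g * Q⁻¹ : GL (Fin 2) ℤ_[p]).1 * mt Q
    have e : (Q * ρ g * Q⁻¹ : GL (Fin 2) ℤ_[p]) * Q = Q * ρ g := by group
    have e2 := congrArg (fun M : GL (Fin 2) ℤ_[p] => M.1) e
    exact e2.symm)
  refine ⟨ρ', hρ', fun g => ?_⟩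
  have h0 := hQ g
  have h00 := (hmem _).1 (h0 0 0 le_rfl)
  have h10 := (hmem _).1 (h0 1 0 (by decide))
  have h11 := (hmem _).1 (h0 1 1 le_rfl)
  obtain ⟨a, ha⟩ := h00
  obtain ⟨c, hc⟩ := h10
  obtain ⟨d, hd⟩ := h11
  rw [Matrix.sub_apply] at ha hc hd
  refine ⟨a, mt (ρ' g) 0 1, c, d, ?_⟩
  rw [h g] at *
  rw [pow_zero, one_smul]
  ext i j
  fin_cases i <;> fin_cases j
  · simp only [Fin.zero_eta, Matrix.add_apply, Matrix.one_apply_eq, Matrix.of_apply,
      Matrix.cons_val', Matrix.cons_val_zero]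
    rw [Matrix.one_apply_eq] at ha
    linear_combination ha
  · simp
  · simp only [Fin.zero_eta, Fin.mk_one, Matrix.add_apply, Matrix.of_apply,
      Matrix.cons_val', Matrix.cons_val_zero, Matrix.cons_val_one]
    linear_combination hc
  · simp only [Fin.mk_one, Matrix.add_apply, Matrix.one_apply_eq, Matrix.of_apply,
      Matrix.cons_val', Matrix.cons_val_one, Matrix.cons_val_fin_one]
    rw [Matrix.one_apply_eq] at hd
    linear_combination hd

end

end Pool.Agent.TH831.OT
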